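import Mathlib

/-! Two definition-free lemmas over an algebraically closed ultrametric field. -/

set_option autoImplicit false

namespace Pool.Agent.MP_28f8a1_an.H19

open Module MvPolynomial

section det
variable {K V : Type*} [NormedField K] [IsUltrametricDist K] [IsAlgClosed K] [AddCommGroup V]
  [Module K V] [FiniteDimensional K V]

omit [IsAlgClosed K] in
theorem d78_norm_one {x : K} (h : ‖x - 1‖ < 1) : ‖x‖ = 1 := by
  have := IsUltrametricDist.norm_add_eq_max_of_norm_ne_norm (x := x - 1) (y := 1)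
    (by rw [norm_one]; exact h.ne)
  rw [sub_add_cancel, norm_one] at this
  rw [this, max_eq_right h.le]

omit [IsUltrametricDist K] in
theorem d78_det_one (C : V →ₗ[K] V) (h : ∀ (l : K) (u : V), u ≠ 0 → C u = l • u → ‖l‖ = 1) :
    ‖LinearMap.det C‖ = 1 := by
  classical
  let b := Module.Free.chooseBasis K V
  rw [← LinearMap.det_toMatrix b, Matrix.det_eq_prod_roots_charpoly, LinearMap.charpoly_toMatrix]
  refine Multiset.prod_induction (fun x : K => ‖x‖ = 1) _
    (fun a c ha hc => by rw [norm_mul, ha, hc, mul_one]) norm_one fun l hl => ?_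
  have h1 : Module.End.HasEigenvalue C l := (Module.End.hasEigenvalue_iff_isRoot_charpoly C l).2
    (Polynomial.isRoot_of_mem_roots hl)
  obtain ⟨u, hu⟩ := h1.exists_hasEigenvector
  exact h l u hu.2 hu.apply_eq_smul

/-- DET. -/
theorem d78_det (N : V → ℝ) (hN0 : ∀ v, 0 ≤ N v) (hN : ∀ (c : K) (v : V), N (c • v) = ‖c‖ * N v) (A B : V →ₗ[K] V)
    (hA : Function.Injective A) (h : ∀ v, v ≠ 0 → N (B v - A v) < N (A v)) :
    Function.Injective B ∧ ‖LinearMap.det B‖ = ‖LinearMap.det A‖ := by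
  let e : V ≃ₗ[K] V := LinearEquiv.ofInjectiveEndo A hA
  have he : ∀ v, e v = A v := fun _ => rfl
  have h1 : ‖LinearMap.det (B ∘ₗ (e.symm : V →ₗ[K] V))‖ = 1 := d78_det_one _ fun l u hu hl => by
    have h2 := h (e.symm u) (by simpa using hu)
    have h3 : B (e.symm u) = l • u := hl
    rw [← he, e.apply_symm_apply, h3, show l • u - u = (l - 1) • u by rw [sub_smul, one_smul],
      hN] at h2
    have h4 : N u ≠ 0 := fun h0 => by rw [h0, mul_zero] at h2; exact lt_irrefl _ h2
    have h6 : 0 < N u := lt_of_le_of_ne (hN0 u) h4.symm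
    exact d78_norm_one (by rwa [mul_lt_iff_lt_one_left h6] at h2)
  have h2 : B = (B ∘ₗ (e.symm : V →ₗ[K] V)) ∘ₗ A := by
    ext v
    simp [← he]
  have h3 : ‖LinearMap.det B‖ = ‖LinearMap.det A‖ := by
    rw [h2, LinearMap.det_comp, norm_mul, h1, one_mul]
  refine ⟨?_, h3⟩
  have h4 : LinearMap.det A ≠ 0 := (LinearEquiv.isUnit_det' e).ne_zero
  have h5 : LinearMap.det B ≠ 0 := by rw [← norm_ne_zero_iff, h3]; exact norm_ne_zero_iff.2 h4
  exact (LinearMap.equivOfDetNeZero B h5).injective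

/-- DET along a chain. -/
theorem d78_chain (N : ℕ → V → ℝ) (hN0 : ∀ m v, 0 ≤ N m v)
    (hN : ∀ m (c : K) (v : V), N m (c • v) = ‖c‖ * N m v) (I : ℕ → V →ₗ[K] V)
    (h0 : Function.Injective (I 0))
    (h : ∀ m v, v ≠ 0 → N m (I (m + 1) v - I m v) < N m (I m v)) (m : ℕ) :
    Function.Injective (I m) ∧ ‖LinearMap.det (I m)‖ = ‖LinearMap.det (I 0)‖ := by
  induction m with
  | zero => exact ⟨h0, rfl⟩
  | succ m ih =>
    have := d78_det (N m) (hN0 m) (hN m) (I m) (I (m + 1)) ih.1 (h m)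
    exact ⟨this.1, this.2.trans ih.2⟩

end det

section sup
variable {K σ : Type*} [NormedField K] [IsUltrametricDist K]

theorem d78_eval_le {p : MvPolynomial σ K} {B : ℝ} (hB : 0 ≤ B) (h : ∀ m, ‖coeff m p‖ ≤ B)
    {ν : σ → K} (hν : ∀ j, ‖ν j‖ ≤ 1) : ‖eval ν p‖ ≤ B := by
  rw [eval_eq]
  refine IsUltrametricDist.norm_sum_le_of_forall_le_of_nonneg hB fun m _ => ?_
  rw [norm_mul, norm_prod]
  refine (mul_le_of_le_one_right (norm_nonneg _) (Finset.prod_le_one (fun _ _ => norm_nonneg _)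
    fun j _ => ?_)).trans (h m)
  rw [norm_pow]
  exact pow_le_one₀ (norm_nonneg _) (hν j)

theorem d78_pderiv_le {p : MvPolynomial σ K} {B : ℝ} (h : ∀ m, ‖coeff m p‖ ≤ B) (j : σ)
    (m : σ →₀ ℕ) : ‖coeff m (pderiv j p)‖ ≤ B := by
  rw [coeff_pderiv, norm_mul]
  refine (mul_le_of_le_one_right (norm_nonneg _) ?_).trans (h _)
  exact_mod_cast IsUltrametricDist.norm_natCast_le_one K (m j + 1)

theorem d78_residue_infinite [IsAlgClosed K] :
    Infinite (IsLocalRing.ResidueField (NormedField.valuation (K := K)).valuationSubring) := by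
  set O := (NormedField.valuation (K := K)).valuationSubring
  by_contra h
  have : Finite (IsLocalRing.ResidueField O) := not_infinite_iff_finite.1 h
  have := Fintype.ofFinite (IsLocalRing.ResidueField O)
  set q := Fintype.card (IsLocalRing.ResidueField O)
  have hq : 1 < q := Fintype.one_lt_card
  obtain ⟨x, hx⟩ := IsAlgClosed.exists_root (Polynomial.X ^ q - (Polynomial.X - 1) : Polynomial K)
    (by
      rw [Polynomial.degree_sub_eq_left_of_degree_lt, Polynomial.degree_X_pow]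
      · exact_mod_cast (by omega : q ≠ 0)
      · rw [Polynomial.degree_X_pow, ← Polynomial.C_1, Polynomial.degree_X_sub_C]
        exact_mod_cast hq)
  have hx' : x ^ q = x - 1 := by simpa [sub_eq_zero] using hx
  have hO : x ∈ O := by
    have hi : IsIntegral O x := ⟨Polynomial.X ^ q - (Polynomial.X - 1),
      Polynomial.monic_X_pow_sub (by
        rw [← Polynomial.C_1, Polynomial.degree_X_sub_C]; exact_mod_cast hq), by simp [hx']⟩
    obtain ⟨y, rfl⟩ := IsIntegrallyClosed.isIntegral_iff.1 hi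
    exact y.2
  have h1 : (⟨x, hO⟩ : O) ^ q = ⟨x, hO⟩ - 1 := Subtype.ext hx'
  have h2 := congrArg (IsLocalRing.residue O) h1
  rw [map_pow, map_sub, map_one, FiniteField.pow_card] at h2
  exact one_ne_zero (sub_eq_self.1 h2.symm)

/-- SUP: finitely many polynomials attain their Gauss norms at one point of the unit polydisc. -/
theorem d78_sup [IsAlgClosed K] {ι : Type*} [Finite ι] (p : ι → MvPolynomial σ K) :
    ∃ μ : σ → K, (∀ j, ‖μ j‖ ≤ 1) ∧ ∀ i m, ‖coeff m (p i)‖ ≤ ‖eval μ (p i)‖ := by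
  classical
  set O := (NormedField.valuation (K := K)).valuationSubring
  have := d78_residue_infinite (K := K)
  have := Fintype.ofFinite ι
  have hO : ∀ x : K, x ∈ O ↔ ‖x‖ ≤ 1 := fun x => by
    rw [Valuation.mem_valuationSubring_iff, NormedField.valuation_apply, ← NNReal.coe_le_coe]
    rfl
  have h1 : ∀ i, ∃ (c : K) (r : MvPolynomial σ O), (∀ m, ‖coeff m (p i)‖ ≤ ‖c‖) ∧
      map (IsLocalRing.residue O) r ≠ 0 ∧ p i = C c * map O.subtype r := fun i => by
    by_cases h0 : p i = 0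
    · exact ⟨0, 1, fun m => by simp [h0], by simp, by simp [h0]⟩
    obtain ⟨m0, hm0, hm⟩ := Finset.exists_max_image (p i).support (fun m => ‖coeff m (p i)‖)
      (support_nonempty.2 h0)
    have hc : coeff m0 (p i) ≠ 0 := mem_support_iff.1 hm0
    have hle : ∀ m, ‖coeff m (p i)‖ ≤ ‖coeff m0 (p i)‖ := fun m => by
      by_cases h : m ∈ (p i).support
      · exact hm m h
      · rw [notMem_support_iff.1 h, norm_zero]; exact norm_nonneg _
    obtain ⟨r, hr⟩ : C (coeff m0 (p i))⁻¹ * p i ∈ Set.range (map O.subtype) := by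
      rw [mem_range_map_iff_coeffs_subset]
      intro x hx
      obtain ⟨m, -, rfl⟩ := mem_coeffs_iff.1 hx
      refine ⟨⟨coeff m (C (coeff m0 (p i))⁻¹ * p i), (hO _).2 ?_⟩, rfl⟩
      rw [coeff_C_mul, norm_mul, norm_inv, inv_mul_le_iff₀ (norm_pos_iff.2 hc), mul_one]
      exact hle m
    refine ⟨_, r, hle, fun h => ?_, by rw [hr, ← mul_assoc, ← map_mul, mul_inv_cancel₀ hc,
      map_one, one_mul]⟩
    have h2 := congrArg (coeff m0) hr
    rw [coeff_map, coeff_C_mul, inv_mul_cancel₀ hc] at h2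
    have h3 : coeff m0 r = 1 := Subtype.ext h2
    have h4 := congrArg (coeff m0) h
    rw [coeff_map, h3, map_one, coeff_zero] at h4
    exact one_ne_zero h4
  choose c r hc hr hp using h1
  obtain ⟨x, hx⟩ : ∃ x, eval x (∏ i, map (IsLocalRing.residue O) (r i)) ≠ 0 := by
    by_contra! H
    exact Finset.prod_ne_zero_iff.2 (fun i _ => hr i) (MvPolynomial.funext fun x => by
      rw [H, map_zero])
  choose y hy using fun j => IsLocalRing.residue_surjective (R := O) (x j)
  refine ⟨fun j => y j, fun j => (hO _).1 (y j).2, fun i m => (hc i m).trans ?_⟩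
  rw [map_prod, Finset.prod_ne_zero_iff] at hx
  have h2 : IsLocalRing.residue O (eval y (r i)) ≠ 0 := by
    have := hx i (Finset.mem_univ _)
    rw [← _root_.funext hy, eval_map] at this
    rw [eval₂_comp]
    exact this
  obtain ⟨d, hd⟩ := ((IsLocalRing.residue_ne_zero_iff_isUnit _).1 h2).exists_left_inv
  have h3 : eval (fun j => (y j : K)) (map O.subtype (r i)) = (eval y (r i) : O) := by
    rw [eval_map]
    exact (eval₂_comp O.subtype y (r i)).symm
  have h4 : ‖(d : K)‖ * ‖((eval y (r i) : O) : K)‖ = 1 := by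
    rw [← norm_mul, ← norm_one (α := K)]
    exact congrArg (fun z : O => ‖(z : K)‖) hd
  rw [hp i, map_mul, eval_C, norm_mul, h3]
  refine le_mul_of_one_le_right (norm_nonneg _) ?_
  rw [← h4]
  exact mul_le_of_le_one_left (norm_nonneg _) ((hO _).1 d.2)

/-- SUP, in the form used for the generic point. -/
theorem d78_sup' [IsAlgClosed K] {ι : Type*} [Finite ι] (p : ι → MvPolynomial σ K) :
    ∃ μ : σ → K, (∀ j, ‖μ j‖ ≤ 1) ∧ ∀ i (ν : σ → K), (∀ j, ‖ν j‖ ≤ 1) →
      ‖eval ν (p i)‖ ≤ ‖eval μ (p i)‖ ∧ ∀ j, ‖eval ν (pderiv j (p i))‖ ≤ ‖eval μ (p i)‖ := by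
  obtain ⟨μ, h1, h2⟩ := d78_sup p
  exact ⟨μ, h1, fun i ν hν => ⟨d78_eval_le (norm_nonneg _) (h2 i) hν,
    fun j => d78_eval_le (norm_nonneg _) (d78_pderiv_le (h2 i) j) hν⟩⟩

end sup

end Pool.Agent.MP_28f8a1_an.H19
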