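import Pool.Agent.MP_28f8a1_an.H19N.Defs

/-! Gauss norms of rational functions on discs, principal parts. -/

set_option autoImplicit false

namespace Pool.Agent.MP_28f8a1_an.H19

open Polynomial Metric

section Alg
variable {L : Type*} [Field L]

/-- A polynomial as a rational function. -/
noncomputable abbrev ι : L[X] →+* RatFunc L := algebraMap L[X] (RatFunc L)

theorem ι_ne {p : L[X]} (h : p ≠ 0) : ι p ≠ 0 := RatFunc.algebraMap_ne_zero h

theorem ι_inj : Function.Injective (ι : L[X] → RatFunc L) := RatFunc.algebraMap_injective L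

theorem ι_C (c : L) : ι (C c) = algebraMap L (RatFunc L) c :=
  (IsScalarTower.algebraMap_apply L L[X] (RatFunc L) c).symm

theorem exists_div (h : RatFunc L) : ∃ P Q : L[X], Q ≠ 0 ∧ h = ι P / ι Q :=
  ⟨h.num, h.denom, h.denom_ne_zero, h.num_div_denom.symm⟩

/-- Rational functions without pole in `S`. -/
def Reg (S : Set L) : Subalgebra L (RatFunc L) where
  carrier := {h | ∀ a ∈ S, ∃ P Q : L[X], Q.eval a ≠ 0 ∧ h = ι P / ι Q}
  mul_mem' := fun h1 h2 a ha => by
    obtain ⟨P, Q, h3, rfl⟩ := h1 a ha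
    obtain ⟨P', Q', h4, h5⟩ := h2 a ha
    exact ⟨P * P', Q * Q', by simp [h3, h4], by rw [h5, map_mul, map_mul, div_mul_div_comm]⟩
  add_mem' := fun h1 h2 a ha => by
    obtain ⟨P, Q, h3, rfl⟩ := h1 a ha
    obtain ⟨P', Q', h4, h5⟩ := h2 a ha
    refine ⟨P * Q' + Q * P', Q * Q', by simp [h3, h4], ?_⟩
    rw [h5, map_add, map_mul, map_mul, map_mul, div_add_div _ _ (ι_ne (by rintro rfl; simp at h3))
      (ι_ne (by rintro rfl; simp at h4))]
  algebraMap_mem' := fun c a _ => ⟨C c, 1, by simp, by rw [ι_C, map_one, div_one]⟩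

theorem mem_Reg {S : Set L} {h : RatFunc L} : h ∈ Reg S ↔ ∀ a ∈ S, h.denom.eval a ≠ 0 := by
  refine forall₂_congr fun a _ => ⟨?_, fun h1 => ⟨h.num, h.denom, h1, h.num_div_denom.symm⟩⟩
  rintro ⟨P, Q, h1, rfl⟩ h2
  exact h1 (eval_eq_zero_of_dvd_of_eval_eq_zero
    (RatFunc.denom_div_dvd P Q) h2)

theorem exists_poles (h : RatFunc L) : ∃ Z : Finset L, h ∈ Reg (Z : Set L)ᶜ := by
  classical
  exact ⟨h.denom.roots.toFinset, mem_Reg.2 fun a ha h0 => ha (by simp [h.denom_ne_zero, h0])⟩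

theorem div_mem_Reg {S : Set L} (P : L[X]) {Q : L[X]} (h : ∀ a ∈ S, Q.eval a ≠ 0) :
    ι P / ι Q ∈ Reg S := fun a ha => ⟨P, Q, h a ha, rfl⟩

theorem ι_mem_Reg (S : Set L) (P : L[X]) : ι P ∈ Reg S := by
  simpa using div_mem_Reg (S := S) P (Q := 1) (by simp)

theorem Reg_mono {S T : Set L} (h : S ⊆ T) {g : RatFunc L} (hg : g ∈ Reg T) : g ∈ Reg S :=
  fun a ha => hg a (h ha)

theorem Reg_of_single {S : Set L} {g : RatFunc L} (h : ∀ a ∈ S, g ∈ Reg {a}) : g ∈ Reg S :=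
  fun a ha => h a ha a rfl

/-- Rational functions vanishing at infinity with all poles in `S`. -/
def Pri (S : Set L) : Submodule L (RatFunc L) where
  carrier := {h | ∃ P Q : L[X], P.degree < Q.degree ∧ (∀ a, Q.eval a = 0 → a ∈ S) ∧ h = ι P / ι Q}
  zero_mem' := ⟨0, 1, by simp, by simp, by simp⟩
  add_mem' := by
    rintro _ _ ⟨P, Q, h1, h2, rfl⟩ ⟨P', Q', h3, h4, rfl⟩
    have h5 := ne_zero_of_degree_gt h1
    have h6 := ne_zero_of_degree_gt h3
    refine ⟨P * Q' + Q * P', Q * Q', (degree_add_le _ _).trans_lt (max_lt ?_ ?_), fun a ha => ?_, ?_⟩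
    · rw [degree_mul, degree_mul]
      exact WithBot.add_lt_add_right (degree_ne_bot.2 h6) h1
    · rw [degree_mul, degree_mul]
      exact WithBot.add_lt_add_left (degree_ne_bot.2 h5) h3
    · rw [eval_mul, mul_eq_zero] at ha
      exact ha.elim (h2 a) (h4 a)
    · rw [map_add, map_mul, map_mul, map_mul, div_add_div _ _ (ι_ne h5) (ι_ne h6)]
  smul_mem' := by
    rintro c _ ⟨P, Q, h1, h2, rfl⟩
    exact ⟨c • P, Q, (degree_smul_le _ _).trans_lt h1, h2, by
      rw [smul_eq_C_mul, map_mul, ι_C, Algebra.smul_def, mul_div_assoc]⟩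

theorem Pri_mono {S T : Set L} (h : S ⊆ T) {g : RatFunc L} (hg : g ∈ Pri S) : g ∈ Pri T := by
  obtain ⟨P, Q, h1, h2, h3⟩ := hg
  exact ⟨P, Q, h1, fun a ha => h (h2 a ha), h3⟩

theorem Reg_of_Pri {S T : Set L} (h : Disjoint S T) {g : RatFunc L} (hg : g ∈ Pri S) :
    g ∈ Reg T := by
  obtain ⟨P, Q, -, h2, rfl⟩ := hg
  exact div_mem_Reg P fun a ha h0 => Set.disjoint_left.1 h (h2 a h0) ha

theorem comp_inj {f : L[X]} (hf : 0 < f.natDegree) :
    Function.Injective (aeval f : L[X] →ₐ[L] L[X]) :=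
  (injective_iff_map_eq_zero _).2 fun p hp => by
    rcases comp_eq_zero_iff.1 (show p.comp f = 0 from hp) with h | ⟨-, h⟩
    · exact h
    · rw [h, natDegree_C] at hf; omega

/-- Composition with a non-constant polynomial. -/
noncomputable def cmp (f : L[X]) (hf : 0 < f.natDegree) : RatFunc L →ₐ[L] RatFunc L :=
  RatFunc.mapAlgHom (aeval f)
    (nonZeroDivisors_le_comap_nonZeroDivisors_of_injective _ (comp_inj hf))

theorem cmp_div {f : L[X]} (hf : 0 < f.natDegree) (P Q : L[X]) :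
    cmp f hf (ι P / ι Q) = ι (P.comp f) / ι (Q.comp f) :=
  RatFunc.map_apply_div (aeval f)
    (nonZeroDivisors_le_comap_nonZeroDivisors_of_injective _ (comp_inj hf)) P Q

theorem cmp_ι {f : L[X]} (hf : 0 < f.natDegree) (P : L[X]) : cmp f hf (ι P) = ι (P.comp f) := by
  simpa using cmp_div hf P 1

theorem cmp_mem_Reg {f : L[X]} (hf : 0 < f.natDegree) {S T : Set L} (h : ∀ a ∈ S, f.eval a ∈ T)
    {g : RatFunc L} (hg : g ∈ Reg T) : cmp f hf g ∈ Reg S := fun a ha => by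
  obtain ⟨P, Q, h1, rfl⟩ := hg _ (h a ha)
  exact ⟨_, _, by rwa [eval_comp], cmp_div hf P Q⟩

/-- The value at a point (meaningful on `Reg {a}`). -/
noncomputable def ev (a : L) (g : RatFunc L) : L := g.num.eval a / g.denom.eval a

theorem ev_div {a : L} (P : L[X]) {Q : L[X]} (h : Q.eval a ≠ 0) :
    ev a (ι P / ι Q) = P.eval a / Q.eval a := by
  have h0 : Q ≠ 0 := by rintro rfl; simp at h
  rw [ev, div_eq_div_iff (mem_Reg.1 (div_mem_Reg P (S := {a}) (by simpa)) a rfl) h, ← eval_mul,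
    ← eval_mul, (RatFunc.num_mul_eq_mul_denom_iff h0).2 rfl]

theorem ev_ι (a : L) (P : L[X]) : ev a (ι P) = P.eval a := by
  simpa using ev_div (a := a) P (Q := 1) (by simp)

theorem ev_add {a : L} {g h : RatFunc L} (hg : g ∈ Reg {a}) (hh : h ∈ Reg {a}) :
    ev a (g + h) = ev a g + ev a h := by
  obtain ⟨P, Q, h3, rfl⟩ := hg a rfl
  obtain ⟨P', Q', h4, rfl⟩ := hh a rfl
  rw [div_add_div _ _ (ι_ne (by rintro rfl; simp at h3)) (ι_ne (by rintro rfl; simp at h4)),
    ← map_mul, ← map_mul, ← map_mul, ← map_add, ev_div _ (by simp [h3, h4]), ev_div _ h3,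
    ev_div _ h4, div_add_div _ _ h3 h4]
  simp

theorem ev_mul {a : L} {g h : RatFunc L} (hg : g ∈ Reg {a}) (hh : h ∈ Reg {a}) :
    ev a (g * h) = ev a g * ev a h := by
  obtain ⟨P, Q, h3, rfl⟩ := hg a rfl
  obtain ⟨P', Q', h4, rfl⟩ := hh a rfl
  rw [div_mul_div_comm, ← map_mul, ← map_mul, ev_div _ (by simp [h3, h4]), ev_div _ h3,
    ev_div _ h4, div_mul_div_comm]
  simp

theorem ev_smul {a : L} (c : L) {g : RatFunc L} (hg : g ∈ Reg {a}) :
    ev a (c • g) = c * ev a g := by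
  rw [Algebra.smul_def, ← ι_C, ev_mul (ι_mem_Reg _ _) hg, ev_ι, eval_C]

theorem ev_sub {a : L} {g h : RatFunc L} (hg : g ∈ Reg {a}) (hh : h ∈ Reg {a}) :
    ev a (g - h) = ev a g - ev a h := by
  rw [eq_sub_iff_add_eq, ← ev_add (sub_mem hg hh) hh, sub_add_cancel]

theorem ev_cmp {f : L[X]} (hf : 0 < f.natDegree) {a : L} {g : RatFunc L}
    (hg : g ∈ Reg {f.eval a}) : ev a (cmp f hf g) = ev (f.eval a) g := by
  obtain ⟨P, Q, h3, rfl⟩ := hg _ rfl
  rw [cmp_div, ev_div _ (by rwa [eval_comp]), ev_div _ h3, eval_comp, eval_comp]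

theorem ev_spec {S : Set L} {a : L} (ha : a ∈ S) {g : RatFunc L} (hg : g ∈ Reg S) :
    (g - ι (C (ev a g))) / ι (X - C a) ∈ Reg S := by
  have h1 := mem_Reg.1 hg
  obtain ⟨R, hR⟩ : X - C a ∣ g.num - C (ev a g) * g.denom := dvd_iff_isRoot.2 (by
    simp [ev, div_mul_cancel₀ _ (h1 a ha)])
  have h2 := congrArg ι hR
  have h3 := ι_ne (X_sub_C_ne_zero a)
  have h4 := ι_ne g.denom_ne_zero
  rw [map_sub, map_mul, map_mul] at h2
  convert div_mem_Reg R h1 using 1
  rw [div_eq_div_iff h3 h4, sub_mul, mul_comm (ι R), ← h2,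
    ← (div_eq_iff h4).1 g.num_div_denom]

variable [IsAlgClosed L]

theorem isCompl_Pri (S : Set L) : IsCompl (Pri S) (Subalgebra.toSubmodule (Reg S)) := by
  classical
  refine ⟨Submodule.disjoint_def.2 ?_, codisjoint_iff_le_sup.2 fun h _ => ?_⟩
  · rintro _ ⟨P, Q, h1, h2, rfl⟩ h3
    have h4 := mem_Reg.1 h3
    have h5 := (RatFunc.num_mul_eq_mul_denom_iff (x := ι P / ι Q) (ne_zero_of_degree_gt h1)).2 rfl
    have h6 : IsCoprime Q (ι P / ι Q).denom :=
      (isCoprime_iff_aeval_ne_zero_of_isAlgClosed L L _ _).2 fun a =>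
        or_iff_not_imp_left.2 fun h => h4 a (h2 a (not_not.1 h))
    rw [eq_zero_of_dvd_of_degree_lt (h6.dvd_of_dvd_mul_right ⟨_, by rw [← h5, mul_comm]⟩) h1]
    simp
  · have H : ∀ T : Set L, ∀ [DecidablePred (· ∈ T)], ∀ a,
        ((h.denom.roots.filter (· ∈ T)).map fun b => X - C b).prod.eval a = 0 → a ∈ T := by
      intro T _ a ha
      rw [eval_multiset_prod, Multiset.prod_eq_zero_iff] at ha
      simp only [Multiset.map_map, Multiset.mem_map, Multiset.mem_filter, Function.comp, eval_sub,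
        eval_X, eval_C, sub_eq_zero] at ha
      obtain ⟨b, hb, rfl⟩ := ha
      exact hb.2
    obtain ⟨Q1, Q2, h1, h2, h3, h4⟩ : ∃ Q1 Q2 : L[X], Q1.Monic ∧ h.denom = Q1 * Q2 ∧
        (∀ a, Q1.eval a = 0 → a ∈ S) ∧ ∀ a, Q2.eval a = 0 → a ∈ Sᶜ :=
      ⟨_, _, monic_multiset_prod_of_monic _ _ fun b _ => monic_X_sub_C b, by
        rw [← Multiset.prod_add, ← Multiset.map_add]
        simp only [Set.mem_compl_iff, Multiset.filter_add_not]
        exact (IsAlgClosed.splits _).eq_prod_roots_of_monic h.monic_denom, H S, H Sᶜ⟩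
    obtain ⟨u, v, h5⟩ : IsCoprime Q1 Q2 := (isCoprime_iff_aeval_ne_zero_of_isAlgClosed L L _ _).2
      fun a => or_iff_not_imp_left.2 fun h h' => h4 a h' (h3 a (not_not.1 h))
    have h6 : Q2 ≠ 0 := right_ne_zero_of_mul (h2 ▸ h.denom_ne_zero)
    refine Submodule.mem_sup.2 ⟨_, ⟨(h.num * v) %ₘ Q1, Q1, degree_modByMonic_lt _ h1, h3, rfl⟩, _,
      div_mem_Reg (h.num * u + (h.num * v) /ₘ Q1 * Q2) fun a ha h0 => h4 a h0 ha, ?_⟩
    rw [div_add_div _ _ (ι_ne h1.ne_zero) (ι_ne h6), ← map_mul, ← map_mul, ← map_mul, ← map_add,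
      ← h2]
    conv_rhs => rw [← h.num_div_denom]
    congr 2
    linear_combination Q2 * modByMonic_add_div (h.num * v) Q1 + h.num * h5

/-- The principal part in `S`. -/
noncomputable def pp (S : Set L) : RatFunc L →ₗ[L] RatFunc L :=
  (Pri S).projection _ (isCompl_Pri S)

theorem pp_mem (S : Set L) (h : RatFunc L) : pp S h ∈ Pri S :=
  Submodule.projection_apply_mem _ h

theorem sub_pp_mem (S : Set L) (h : RatFunc L) : h - pp S h ∈ Reg S :=
  Submodule.sub_projection_mem (isCompl_Pri S) h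

theorem pp_eq_zero {S : Set L} {h : RatFunc L} : pp S h = 0 ↔ h ∈ Reg S :=
  Submodule.projection_apply_eq_zero_iff (isCompl_Pri S)

theorem pp_of_mem {S : Set L} {h : RatFunc L} (hh : h ∈ Pri S) : pp S h = h :=
  Submodule.projection_apply_of_mem_left _ hh

theorem pp_congr {S : Set L} {g h : RatFunc L} (hh : g - h ∈ Reg S) : pp S g = pp S h := by
  rwa [← sub_eq_zero, ← map_sub, pp_eq_zero]

theorem pp_eq {S : Set L} {g h : RatFunc L} (hg : g ∈ Pri S) (hh : h - g ∈ Reg S) : pp S h = g :=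
  (pp_congr hh).trans (pp_of_mem hg)

theorem pp_pp {S T : Set L} (h : S ⊆ T) (g : RatFunc L) : pp S (pp T g) = pp S g :=
  (pp_congr (Reg_mono h (sub_pp_mem T g))).symm

/-- Principal parts over a partition. -/
theorem pp_sum (κ : L → Set L) (h1 : ∀ a, a ∈ κ a) (h2 : ∀ a, ∀ b ∈ κ a, κ b = κ a) {S : Set L}
    (h3 : ∀ a ∈ S, κ a ⊆ S) (h : RatFunc L) :
    ∃ T : Finset (Set L), (∀ U ∈ T, ∃ a ∈ S, U = κ a) ∧ pp S h = ∑ U ∈ T, pp U h := by
  classical
  have H : ∀ U ∈ (h.denom.roots.toFinset.filter (· ∈ S)).image κ, ∃ a ∈ S, U = κ a := fun U hU => by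
    obtain ⟨a, ha, rfl⟩ := Finset.mem_image.1 hU
    exact ⟨a, (Finset.mem_filter.1 ha).2, rfl⟩
  refine ⟨_, H, pp_eq (sum_mem fun U hU => ?_) (Reg_of_single fun a ha => ?_)⟩
  · obtain ⟨a, ha, rfl⟩ := H U hU
    exact Pri_mono (h3 a ha) (pp_mem _ h)
  have H2 : ∀ U ∈ (h.denom.roots.toFinset.filter (· ∈ S)).image κ, U ≠ κ a → pp U h ∈ Reg {a} :=
    fun U hU hne => by
      obtain ⟨b, -, rfl⟩ := H U hU
      exact Reg_of_Pri (Set.disjoint_singleton_right.2 fun h => hne (h2 b a h).symm) (pp_mem _ h)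
  by_cases h4 : κ a ∈ (h.denom.roots.toFinset.filter (· ∈ S)).image κ
  · rw [← Finset.add_sum_erase _ _ h4, ← sub_sub]
    exact sub_mem (Reg_mono (by simpa using h1 a) (sub_pp_mem _ h)) (sum_mem fun U hU =>
      H2 U (Finset.mem_of_mem_erase hU) (Finset.ne_of_mem_erase hU))
  · refine sub_mem (mem_Reg.2 ?_) (sum_mem fun U hU => H2 U hU fun h => h4 (h ▸ hU))
    rintro _ rfl h0
    exact h4 (Finset.mem_image_of_mem _ (by simp [h.denom_ne_zero, h0, ha]))

end Alg

section Norm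
variable {L : Type*} [NormedField L] [IsUltrametricDist L] {x y a : L} {s t : ℝ}

/-- The Gauss norm of a polynomial on the disc with centre `x` and radius `t`. -/
noncomputable def gp (x : L) (t : ℝ) (p : L[X]) : ℝ :=
  (taylor x p).gaussNorm (NormedField.toAbsoluteValue L) t

theorem na_abs : IsNonarchimedean (NormedField.toAbsoluteValue L) :=
  IsUltrametricDist.norm_add_le_max

omit [IsUltrametricDist L] in
theorem gp_ex (x : L) (t : ℝ) (p : L[X]) : ∃ i, gp x t p = ‖(taylor x p).coeff i‖ * t ^ i :=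
  exists_eq_gaussNorm _ _ _

omit [IsUltrametricDist L] in
theorem le_gp (x : L) (ht : 0 ≤ t) (p : L[X]) (i : ℕ) :
    ‖(taylor x p).coeff i‖ * t ^ i ≤ gp x t p := le_gaussNorm (NormedField.toAbsoluteValue L) _ ht i

omit [IsUltrametricDist L] in
theorem gp_le {p : L[X]} {r : ℝ} (h : ∀ i, ‖(taylor x p).coeff i‖ * t ^ i ≤ r) : gp x t p ≤ r := by
  obtain ⟨i, hi⟩ := gp_ex x t p
  exact hi ▸ h i

omit [IsUltrametricDist L] in
theorem gp_nonneg (x : L) (ht : 0 ≤ t) (p : L[X]) : 0 ≤ gp x t p := gaussNorm_nonneg _ _ ht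

omit [IsUltrametricDist L] in
theorem gp_pos (x : L) (ht : 0 < t) {p : L[X]} (hp : p ≠ 0) : 0 < gp x t p :=
  (gp_nonneg x ht.le p).lt_of_ne' fun h => hp (taylor_injective x (by
    rw [map_zero]; exact (gaussNorm_eq_zero_iff _ _ (fun _ => (AbsoluteValue.eq_zero _).1) ht).1 h))

omit [IsUltrametricDist L] in
theorem gp_C (x : L) (t : ℝ) (c : L) : gp x t (C c) = ‖c‖ := by
  rw [gp, taylor_C, gaussNorm_C]; rfl

omit [IsUltrametricDist L] in
theorem gp_zero (x : L) (t : ℝ) : gp x t 0 = 0 := by simp [gp]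

omit [IsUltrametricDist L] in
theorem gp_one (x : L) (t : ℝ) : gp x t 1 = 1 := by simpa using gp_C x t 1

theorem gp_mul (x : L) (ht : 0 < t) (p q : L[X]) : gp x t (p * q) = gp x t p * gp x t q := by
  rw [gp, taylor_mul, gaussNorm_mul na_abs ht]; rfl

theorem gp_add (x : L) (ht : 0 ≤ t) (p q : L[X]) : gp x t (p + q) ≤ max (gp x t p) (gp x t q) := by
  rw [gp, map_add]; exact isNonarchimedean_gaussNorm _ na_abs ht _ _

omit [IsUltrametricDist L] in
theorem gp_mono (x : L) (ht : 0 ≤ t) (h : t ≤ s) (p : L[X]) : gp x t p ≤ gp x s p :=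
  gp_le fun i => le_trans (by gcongr) (le_gp x (ht.trans h) p i)

theorem gp_split (x : L) (ht : 0 ≤ t) (p : L[X]) (c : L) :
    gp x t (p - C c) = max ‖p.eval x - c‖ (gp x t (p - C (p.eval x))) := by
  refine le_antisymm ?_ (max_le ?_ (gp_le fun i => ?_))
  · rw [← gp_C x t, show p - C c = C (p.eval x - c) + (p - C (p.eval x)) by rw [map_sub]; ring]
    exact gp_add x ht _ _
  · simpa using le_gp x ht (p - C c) 0
  · rcases i with _ | i
    · simpa using gp_nonneg x ht _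
    · simpa [coeff_C_succ] using le_gp x ht (p - C c) (i + 1)

theorem gp_X (x : L) (ht : 0 ≤ t) (a : L) : gp x t (X - C a) = max ‖x - a‖ t := by
  rw [gp_split x ht, eval_X, gp, map_sub, taylor_X, taylor_C, add_sub_cancel_right,
    ← monomial_one_one_eq_X, gaussNorm_monomial]
  simp

variable [IsAlgClosed L]

omit [IsUltrametricDist L] in
theorem mul_ind {P : L[X] → Prop} (h0 : ∀ c, P (C c)) (h1 : ∀ a q, P q → P ((X - C a) * q))
    (p : L[X]) : P p := by
  rw [(IsAlgClosed.splits p).eq_prod_roots, mul_comm]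
  induction p.roots using Multiset.induction_on with
  | empty => simpa using h0 _
  | cons a s ih => rw [Multiset.map_cons, Multiset.prod_cons, mul_assoc]; exact h1 _ _ ih

theorem gp_centre (ht : 0 < t) (h : ‖x - y‖ ≤ t) (p : L[X]) : gp x t p = gp y t p := by
  induction p using mul_ind with
  | h0 c => rw [gp_C, gp_C]
  | h1 a q ih =>
    have H : ∀ x y : L, ‖x - y‖ ≤ t → max ‖x - a‖ t ≤ max ‖y - a‖ t := fun x y h => max_le (by
      rw [← sub_add_sub_cancel x y, max_comm]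
      exact (IsUltrametricDist.norm_add_le_max _ _).trans (by gcongr)) (le_max_right _ _)
    rw [gp_mul _ ht, gp_mul _ ht, ih, gp_X _ ht.le, gp_X _ ht.le,
      le_antisymm (H x y h) (H y x (by rwa [norm_sub_rev]))]

theorem eval_le_gp (ht : 0 < t) (h : ‖a - x‖ ≤ t) (p : L[X]) : ‖p.eval a‖ ≤ gp x t p := by
  simpa [gp_centre ht h] using le_gp a ht.le p 0

theorem gp_eq_eval (ht : 0 < t) (h : ‖a - x‖ ≤ t) {p : L[X]}
    (hp : ∀ b, ‖b - x‖ ≤ t → p.eval b ≠ 0) : gp x t p = ‖p.eval a‖ := by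
  induction p using mul_ind with
  | h0 c => rw [gp_C, eval_C]
  | h1 b q ih =>
    have h1 : t < ‖b - x‖ := not_le.1 fun h => hp b h (by simp)
    rw [gp_mul _ ht, eval_mul, norm_mul, ih fun c hc h => hp c hc (by simp [h]), gp_X _ ht.le,
      norm_sub_rev, max_eq_left h1.le, eval_sub, eval_X, eval_C, ← sub_add_sub_cancel a x,
      IsUltrametricDist.norm_add_eq_max_of_norm_ne_norm
        (by rw [norm_sub_rev x]; exact (h.trans_lt h1).ne), norm_sub_rev x,
      max_eq_right (h.trans h1.le)]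

theorem gp_eq_pow (ht : 0 < t) {p : L[X]} (hp : ∀ b, p.eval b = 0 → ‖b - x‖ ≤ t) :
    gp x t p = ‖p.leadingCoeff‖ * t ^ p.natDegree := by
  induction p using mul_ind with
  | h0 c => simp [gp_C]
  | h1 b q ih =>
    rcases eq_or_ne q 0 with rfl | hq
    · simp [gp_zero]
    rw [gp_mul _ ht, ih fun c h => hp c (by simp [h]), gp_X _ ht.le, norm_sub_rev,
      max_eq_right (hp b (by simp)), leadingCoeff_monic_mul (monic_X_sub_C b),
      natDegree_mul (X_sub_C_ne_zero b) hq, natDegree_X_sub_C]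
    ring

/-- The radius of the image of a disc. -/
noncomputable def sig (f : L[X]) (x : L) (t : ℝ) : ℝ := gp x t (f - C (f.eval x))

omit [IsUltrametricDist L] [IsAlgClosed L] in
theorem sig_ne {f : L[X]} (hf : 0 < f.natDegree) (c : L) : f - C c ≠ 0 := fun h => by
  rw [sub_eq_zero.1 h, natDegree_C] at hf; omega

omit [IsUltrametricDist L] [IsAlgClosed L] in
theorem sig_pos {f : L[X]} (hf : 0 < f.natDegree) (x : L) (ht : 0 < t) : 0 < sig f x t :=
  gp_pos x ht (sig_ne hf _)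

theorem gp_comp {f : L[X]} (hf : 0 < f.natDegree) (x : L) (ht : 0 < t) (p : L[X]) :
    gp x t (p.comp f) = gp (f.eval x) (sig f x t) p := by
  have h := sig_pos hf x ht
  induction p using mul_ind with
  | h0 c => rw [C_comp, gp_C, gp_C]
  | h1 a q ih =>
    rw [mul_comp, gp_mul _ ht, gp_mul _ h, ih, gp_X _ h.le, sub_comp, X_comp, C_comp,
      gp_split _ ht.le, sig]

omit [IsUltrametricDist L] [IsAlgClosed L] in
theorem sig_coeff (f : L[X]) (x : L) (i : ℕ) : (taylor x (f - C (f.eval x))).coeff (i + 1) =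
    (taylor x f).coeff (i + 1) ∧ (taylor x (f - C (f.eval x))).coeff 0 = 0 := by
  simp [coeff_C_succ]

omit [IsUltrametricDist L] [IsAlgClosed L] in
theorem sig_scale (f : L[X]) (x : L) (ht : 0 < t) (h : t ≤ s) :
    sig f x t * s ≤ sig f x s * t := by
  rw [← le_div_iff₀ (ht.trans_le h)]
  refine gp_le fun i => ?_
  rw [le_div_iff₀ (ht.trans_le h)]
  rcases i with _ | i
  · simpa [(sig_coeff f x 0).2, sig] using mul_nonneg (gp_nonneg x (ht.le.trans h) _) ht.le
  · refine le_trans ?_ (mul_le_mul_of_nonneg_right (le_gp x (ht.le.trans h) _ (i + 1)) ht.le)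
    rw [pow_succ, pow_succ, mul_assoc, mul_assoc, mul_assoc, mul_assoc, mul_comm t s]
    gcongr
    exact mul_nonneg (ht.le.trans h) ht.le

omit [IsUltrametricDist L] [IsAlgClosed L] in
theorem sig_lt {f : L[X]} (hf : 0 < f.natDegree) (x : L) (ht : 0 < t) (h : t < s) :
    sig f x t < sig f x s :=
  lt_of_mul_lt_mul_right ((sig_scale f x ht h.le).trans_lt
    (mul_lt_mul_of_pos_left h (sig_pos hf x (ht.trans h)))) (ht.trans h).le

omit [IsUltrametricDist L] [IsAlgClosed L] in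
theorem sig_le_iff {f : L[X]} (hf : 0 < f.natDegree) (x : L) (ht : 0 < t) (hs : 0 < s) :
    sig f x t ≤ sig f x s ↔ t ≤ s :=
  ⟨fun h => not_lt.1 fun h' => (sig_lt hf x hs h').not_ge h, fun h => gp_mono x ht.le h _⟩

omit [IsUltrametricDist L] [IsAlgClosed L] in
theorem sig_surj {f : L[X]} (hf : 0 < f.natDegree) (x : L) (hs : 0 < s) :
    ∃ t, 0 < t ∧ sig f x t = s := by
  let q := taylor x (f - C (f.eval x))
  have h0 : ∀ i ∈ q.support, i ≠ 0 ∧ 0 < ‖q.coeff i‖ := fun i hi =>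
    ⟨by rintro rfl; exact mem_support_iff.1 hi (sig_coeff f x 0).2,
      norm_pos_iff.2 (mem_support_iff.1 hi)⟩
  obtain ⟨j, hj, h1⟩ := q.support.exists_min_image (fun i => (s / ‖q.coeff i‖) ^ (i : ℝ)⁻¹)
    (support_nonempty.2 fun h => sig_ne hf _ (taylor_injective x (h.trans (map_zero _).symm)))
  have h2 : ∀ i ∈ q.support, ‖q.coeff i‖ * ((s / ‖q.coeff i‖) ^ (i : ℝ)⁻¹) ^ i = s := fun i hi => by
    rw [Real.rpow_inv_natCast_pow (div_pos hs (h0 i hi).2).le (h0 i hi).1,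
      mul_div_cancel₀ _ (h0 i hi).2.ne']
  have h3 := Real.rpow_pos_of_pos (div_pos hs (h0 j hj).2) (j : ℝ)⁻¹
  refine ⟨_, h3, le_antisymm (gp_le fun i => ?_) ((h2 j hj).ge.trans (le_gp x h3.le _ j))⟩
  by_cases hi : i ∈ q.support
  · exact le_trans (by gcongr; exact h1 i hi) (h2 i hi).le
  · rw [show (taylor x (f - C (f.eval x))).coeff i = 0 from notMem_support_iff.1 hi]
    simpa using hs.le

theorem eval_mem (f : L[X]) (ht : 0 < t) (h : ‖y - x‖ ≤ t) : ‖f.eval y - f.eval x‖ ≤ sig f x t := by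
  simpa [sig] using eval_le_gp ht h (f - C (f.eval x))

theorem sig_centre (f : L[X]) (ht : 0 < t) (h : ‖y - x‖ ≤ t) : sig f y t = sig f x t := by
  have H : ∀ x y : L, ‖y - x‖ ≤ t → sig f y t ≤ sig f x t := fun x y h => by
    rw [sig, gp_centre ht h, gp_split _ ht.le, norm_sub_rev]
    exact max_le (eval_mem f ht h) le_rfl
  exact le_antisymm (H x y h) (H y x (by rwa [norm_sub_rev]))

omit [IsUltrametricDist L] [IsAlgClosed L] in
/-- (G2) -/
theorem gp_deriv {f : L[X]} (hf : ∀ j : ℕ, 0 < j → j ≤ f.natDegree → ‖(j : L)‖ = 1) (x : L)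
    (ht : 0 < t) : gp x t (derivative f) * t = sig f x t := by
  have H : ∀ i, ‖(taylor x (derivative f)).coeff i‖ * t ^ i * t =
      ‖(taylor x (f - C (f.eval x))).coeff (i + 1)‖ * t ^ (i + 1) := fun i => by
    have h1 : taylor x (derivative f) = derivative (taylor x f) := by
      simp [taylor_apply, derivative_comp]
    rw [h1, coeff_derivative, (sig_coeff f x i).1, norm_mul, pow_succ, mul_assoc]
    rcases le_or_gt (i + 1) f.natDegree with h | h
    · rw [← Nat.cast_succ, hf _ i.succ_pos h, mul_one]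
    · simp [coeff_eq_zero_of_natDegree_lt (show (taylor x f).natDegree < i + 1 by rwa [natDegree_taylor])]
  refine le_antisymm ?_ (gp_le fun i => ?_)
  · obtain ⟨i, hi⟩ := gp_ex x t (derivative f)
    rw [hi, H]; exact le_gp x ht.le _ _
  · rcases i with _ | i
    · simpa [(sig_coeff f x 0).2] using mul_nonneg (gp_nonneg x ht.le _) ht.le
    · rw [← H]; exact mul_le_mul_of_nonneg_right (le_gp x ht.le _ _) ht.le

/-- The Gauss norm of a rational function. -/
noncomputable def gn (x : L) (t : ℝ) (h : RatFunc L) : ℝ := gp x t h.num / gp x t h.denom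

omit [IsAlgClosed L] in
theorem gn_div (x : L) (ht : 0 < t) (P Q : L[X]) : gn x t (ι P / ι Q) = gp x t P / gp x t Q := by
  rcases eq_or_ne Q 0 with rfl | h0
  · simp [gn, gp_zero]
  rw [gn, div_eq_div_iff (gp_pos x ht (RatFunc.denom_ne_zero _)).ne' (gp_pos x ht h0).ne',
    ← gp_mul x ht, ← gp_mul x ht, (RatFunc.num_mul_eq_mul_denom_iff h0).2 rfl]

omit [IsAlgClosed L] in
theorem gn_ι (x : L) (ht : 0 < t) (P : L[X]) : gn x t (ι P) = gp x t P := by
  simpa [gp_one] using gn_div x ht P 1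

omit [IsUltrametricDist L] [IsAlgClosed L] in
theorem gn_nonneg (x : L) (ht : 0 < t) (h : RatFunc L) : 0 ≤ gn x t h :=
  div_nonneg (gp_nonneg x ht.le _) (gp_nonneg x ht.le _)

omit [IsUltrametricDist L] [IsAlgClosed L] in
theorem gn_pos (x : L) (ht : 0 < t) {h : RatFunc L} (h0 : h ≠ 0) : 0 < gn x t h :=
  div_pos (gp_pos x ht (RatFunc.num_ne_zero h0)) (gp_pos x ht h.denom_ne_zero)

omit [IsUltrametricDist L] [IsAlgClosed L] in
theorem gn_zero (x : L) (t : ℝ) : gn x t 0 = 0 := by simp [gn, gp_zero]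

omit [IsAlgClosed L] in
theorem gn_mul (x : L) (ht : 0 < t) (g h : RatFunc L) : gn x t (g * h) = gn x t g * gn x t h := by
  obtain ⟨P, Q, -, rfl⟩ := exists_div g
  obtain ⟨P', Q', -, rfl⟩ := exists_div h
  rw [div_mul_div_comm, ← map_mul, ← map_mul, gn_div x ht, gn_div x ht, gn_div x ht, gp_mul x ht,
    gp_mul x ht, div_mul_div_comm]

omit [IsAlgClosed L] in
theorem gn_div' (x : L) (ht : 0 < t) (g h : RatFunc L) : gn x t (g / h) = gn x t g / gn x t h := by
  rcases eq_or_ne h 0 with rfl | h0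
  · simp [gn_zero]
  rw [eq_div_iff (gn_pos x ht h0).ne', ← gn_mul x ht, div_mul_cancel₀ _ h0]

omit [IsAlgClosed L] in
theorem gn_smul (x : L) (ht : 0 < t) (c : L) (h : RatFunc L) :
    gn x t (c • h) = ‖c‖ * gn x t h := by
  rw [Algebra.smul_def, ← ι_C, gn_mul x ht, gn_ι x ht, gp_C]

omit [IsAlgClosed L] in
theorem gn_neg (x : L) (ht : 0 < t) (h : RatFunc L) : gn x t (-h) = gn x t h := by
  simpa using gn_smul x ht (-1) h

omit [IsAlgClosed L] in
theorem gn_add (x : L) (ht : 0 < t) (g h : RatFunc L) :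
    gn x t (g + h) ≤ max (gn x t g) (gn x t h) := by
  obtain ⟨P, Q, h1, rfl⟩ := exists_div g
  obtain ⟨P', Q', h2, rfl⟩ := exists_div h
  have h3 := gp_pos x ht h1
  have h4 := gp_pos x ht h2
  rw [div_add_div _ _ (ι_ne h1) (ι_ne h2), ← map_mul, ← map_mul, ← map_mul, ← map_add, gn_div x ht,
    gn_div x ht, gn_div x ht, gp_mul x ht, div_le_iff₀ (mul_pos h3 h4),
    max_mul_of_nonneg _ _ (mul_pos h3 h4).le]
  refine (gp_add x ht.le _ _).trans (max_le_max ?_ ?_) <;> rw [gp_mul x ht] <;>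
    exact le_of_eq (by field_simp)

omit [IsAlgClosed L] in
theorem gn_sub (x : L) (ht : 0 < t) (g h : RatFunc L) :
    gn x t (g - h) ≤ max (gn x t g) (gn x t h) := by
  simpa [sub_eq_add_neg, gn_neg x ht] using gn_add x ht g (-h)

omit [IsAlgClosed L] in
theorem gn_sum_lt {κ : Type*} (x : L) (ht : 0 < t) (T : Finset κ) (g : κ → RatFunc L) {r : ℝ}
    (hr : 0 < r) (h : ∀ i ∈ T, gn x t (g i) < r) : gn x t (∑ i ∈ T, g i) < r :=
  Finset.sum_induction g (gn x t · < r) (fun a b h1 h2 => (gn_add x ht a b).trans_lt (max_lt h1 h2))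
    (by simpa [gn_zero]) h

omit [IsAlgClosed L] in
theorem gn_sum_le {κ : Type*} (x : L) (ht : 0 < t) (T : Finset κ) (g : κ → RatFunc L) {r : ℝ}
    (hr : 0 ≤ r) (h : ∀ i ∈ T, gn x t (g i) ≤ r) : gn x t (∑ i ∈ T, g i) ≤ r :=
  Finset.sum_induction g (gn x t · ≤ r) (fun a b h1 h2 => (gn_add x ht a b).trans (max_le h1 h2))
    (by simpa [gn_zero]) h

theorem gn_centre (ht : 0 < t) (h : ‖x - y‖ ≤ t) (g : RatFunc L) : gn x t g = gn y t g := by
  rw [gn, gn, gp_centre ht h, gp_centre ht h]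

/-- (G1) -/
theorem gn_cmp {f : L[X]} (hf : 0 < f.natDegree) (x : L) (ht : 0 < t) (g : RatFunc L) :
    gn x t (cmp f hf g) = gn (f.eval x) (sig f x t) g := by
  obtain ⟨P, Q, -, rfl⟩ := exists_div g
  rw [cmp_div, gn_div x ht, gn_div _ (sig_pos hf x ht), gp_comp hf x ht, gp_comp hf x ht]

/-- (G3) -/
theorem gn_pri (ht : 0 < t) (h : t ≤ s) {g : RatFunc L} (hg : g ∈ Pri (closedBall x t)) :
    gn x s g * s ≤ gn x t g * t := by
  obtain ⟨P, Q, h1, h2, rfl⟩ := hg
  have hs := ht.trans_le h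
  have h3 := norm_pos_iff.2 (leadingCoeff_ne_zero.2 (ne_zero_of_degree_gt h1))
  rw [gn_div x ht, gn_div x hs, gp_eq_pow ht fun b hb => mem_closedBall_iff_norm.1 (h2 b hb),
    gp_eq_pow hs fun b hb => (mem_closedBall_iff_norm.1 (h2 b hb)).trans h, ← le_div_iff₀ hs,
    div_le_iff₀ (by positivity)]
  refine gp_le fun i => ?_
  rcases lt_or_ge i Q.natDegree with hi | hi
  · obtain ⟨k, hk⟩ := Nat.exists_eq_add_of_lt hi
    have h4 := le_gp x ht.le P i
    have h5 : t ^ k ≤ s ^ k := by gcongr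
    rw [hk, show gp x t P / (‖Q.leadingCoeff‖ * t ^ (i + k + 1)) * t / s * (‖Q.leadingCoeff‖ *
      s ^ (i + k + 1)) = gp x t P * s ^ k * s ^ i / (t ^ i * t ^ k) by field_simp; ring,
      le_div_iff₀ (by positivity), show ‖(taylor x P).coeff i‖ * s ^ i * (t ^ i * t ^ k) =
        ‖(taylor x P).coeff i‖ * t ^ i * t ^ k * s ^ i by ring]
    gcongr
    exact gp_nonneg x ht.le P
  · rw [coeff_eq_zero_of_degree_lt (by
      rw [degree_taylor]; exact h1.trans_le (degree_le_natDegree.trans (by exact_mod_cast hi)))]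
    have := gp_nonneg x ht.le P
    rw [norm_zero, zero_mul]; positivity

/-- Regular functions: the norm is monotone in the disc and bounds the values. -/
theorem gn_reg (ht : 0 < t) (h : t ≤ s) {g : RatFunc L} (hg : g ∈ Reg (closedBall x s)) :
    gn x t g ≤ gn x s g := by
  have h1 := fun b hb => mem_Reg.1 hg b (mem_closedBall_iff_norm.2 hb)
  have hs := ht.trans_le h
  rw [gn, gn, gp_eq_eval (a := x) hs (by simpa using hs.le) h1,
    gp_eq_eval (a := x) ht (by simpa using ht.le) fun b hb => h1 b (hb.trans h)]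
  exact div_le_div_of_nonneg_right (gp_mono x ht.le h _) (norm_nonneg _)

theorem ev_le (ht : 0 < t) (ha : a ∈ closedBall x t) {g : RatFunc L}
    (hg : g ∈ Reg (closedBall x t)) : ‖ev a g‖ ≤ gn x t g := by
  rw [mem_closedBall_iff_norm] at ha
  rw [gn, ev, norm_div, gp_eq_eval ht ha fun b hb => mem_Reg.1 hg b (mem_closedBall_iff_norm.2 hb)]
  exact div_le_div_of_nonneg_right (eval_le_gp ht ha _) (norm_nonneg _)

theorem g4_aux (ht : 0 < t) {g : RatFunc L} (hg : g ∈ Reg (closedBall x t)) (Q : L[X]) :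
    ∀ P : L[X], P.degree < Q.degree → (∀ a, Q.eval a = 0 → a ∈ closedBall x t) →
      gn x t (ι Q * g) ≤ gn x t (ι P + ι Q * g) := by
  induction Q using mul_ind with
  | h0 c =>
    intro P h _
    rw [degree_eq_bot.1 (Nat.WithBot.lt_zero_iff.1 (h.trans_le degree_C_le))]
    simp
  | h1 a Q ih =>
    intro P h1 h2
    have ha := h2 a (by simp)
    have h3 := modByMonic_add_div P (X - C a)
    rw [modByMonic_X_sub_C_eq_C_eval] at h3
    have h4 : (P /ₘ (X - C a)).degree < Q.degree := by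
      have hQ : Q ≠ 0 := by rintro rfl; simp at h1
      refine lt_of_not_ge fun h => h1.not_ge ?_
      rw [← h3, degree_add_eq_right_of_degree_lt, degree_mul, degree_mul]
      · exact add_le_add_right h _
      · refine degree_C_le.trans_lt ?_
        rw [degree_mul, degree_X_sub_C]
        exact lt_of_lt_of_le (by simp) (add_le_add_right ((zero_le_degree_iff.2 hQ).trans h) _)
    have h5 : ι (X - C a) * (ι (P /ₘ (X - C a)) + ι Q * g) ∈ Reg (closedBall x t) :=
      mul_mem (ι_mem_Reg _ _) (add_mem (ι_mem_Reg _ _) (mul_mem (ι_mem_Reg _ _) hg))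
    have h6 : ι P + ι ((X - C a) * Q) * g =
        ι (C (P.eval a)) + ι (X - C a) * (ι (P /ₘ (X - C a)) + ι Q * g) := by
      conv_lhs => rw [← h3]
      simp only [map_add, map_mul]; ring
    have h7 := ev_le ht ha (add_mem (ι_mem_Reg _ (C (P.eval a))) h5)
    have h8 : ({a} : Set L) ⊆ closedBall x t := by simpa using ha
    rw [ev_add (ι_mem_Reg _ _) (Reg_mono h8 h5), ev_mul (ι_mem_Reg _ _) (Reg_mono h8
      (add_mem (ι_mem_Reg _ _) (mul_mem (ι_mem_Reg _ _) hg))), ev_ι, ev_ι] at h7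
    have h9 := gn_sub x ht (ι (C (P.eval a)) + ι (X - C a) * (ι (P /ₘ (X - C a)) + ι Q * g))
      (ι (C (P.eval a)))
    rw [add_sub_cancel_left, gn_ι x ht, gp_C, max_eq_left (by simpa using h7)] at h9
    rw [h6, map_mul, mul_assoc]
    refine le_trans ?_ h9
    rw [gn_mul x ht, gn_mul x ht (ι (X - C a))]
    exact mul_le_mul_of_nonneg_left (ih _ h4 fun b hb => h2 b (by simp [hb])) (gn_nonneg x ht _)

/-- (G4), regular part. -/
theorem gn_sub_pp (ht : 0 < t) (h : RatFunc L) :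
    gn x t (h - pp (closedBall x t) h) ≤ gn x t h := by
  obtain ⟨P, Q, h1, h2, h3⟩ := pp_mem (closedBall x t) h
  have h4 := g4_aux ht (sub_pp_mem _ h) Q P h1 h2
  have h5 := ι_ne (ne_zero_of_degree_gt h1)
  rwa [(div_eq_iff h5).1 h3.symm, (by ring : pp (closedBall x t) h * ι Q +
    ι Q * (h - pp (closedBall x t) h) = ι Q * h), gn_mul x ht, gn_mul x ht,
    mul_le_mul_iff_right₀ (gn_pos x ht h5)] at h4

/-- (G4), principal part. -/
theorem gn_pp (ht : 0 < t) (h : RatFunc L) : gn x t (pp (closedBall x t) h) ≤ gn x t h := by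
  simpa [gn_sub_pp ht h] using gn_sub x ht h (h - pp (closedBall x t) h)

omit [IsAlgClosed L] in
theorem gn_X (x : L) (ht : 0 < t) (a : L) : gn x t (ι (X - C a)) = max ‖x - a‖ t := by
  rw [gn_ι x ht, gp_X x ht.le]

/-- The partition lemma. -/
theorem gn_pp_lt (κ : L → Set L) (h1 : ∀ a, a ∈ κ a) (h2 : ∀ a, ∀ b ∈ κ a, κ b = κ a) {S : Set L}
    (h3 : ∀ a ∈ S, κ a ⊆ S) (h : RatFunc L) (x : L) (ht : 0 < t) {r : ℝ} (hr : 0 < r)
    (H : ∀ a ∈ S, gn x t (pp (κ a) h) < r) : gn x t (pp S h) < r := by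
  obtain ⟨T, h4, h5⟩ := pp_sum κ h1 h2 h3 h
  refine h5 ▸ gn_sum_lt x ht T _ hr fun U hU => ?_
  obtain ⟨a, ha, rfl⟩ := h4 U hU
  exact H a ha

theorem gn_pp_le (κ : L → Set L) (h1 : ∀ a, a ∈ κ a) (h2 : ∀ a, ∀ b ∈ κ a, κ b = κ a) {S : Set L}
    (h3 : ∀ a ∈ S, κ a ⊆ S) (h : RatFunc L) (x : L) (ht : 0 < t) {r : ℝ} (hr : 0 ≤ r)
    (H : ∀ a ∈ S, gn x t (pp (κ a) h) ≤ r) : gn x t (pp S h) ≤ r := by
  obtain ⟨T, h4, h5⟩ := pp_sum κ h1 h2 h3 h
  refine h5 ▸ gn_sum_le x ht T _ hr fun U hU => ?_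
  obtain ⟨a, ha, rfl⟩ := h4 U hU
  exact H a ha

/-- (G3) for two centres. -/
theorem gn_pri' (ht : 0 < t) (h : t ≤ s) (hy : ‖y - x‖ ≤ s) {g : RatFunc L}
    (hg : g ∈ Pri (closedBall y t)) : gn x s g * s ≤ gn y t g * t :=
  gn_centre (ht.trans_le h) hy g ▸ gn_pri ht h hg

end Norm

end Pool.Agent.MP_28f8a1_an.H19
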