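import Pool.Agent.MP_28f8a1_an.H19N.Fam
import Pool.Agent.MP_28f8a1_an.H19N.G
import Pool.Agent.MP_28f8a1_an.H19N.Det78

/-! h19n, section 3: a critical point that stays bounded on a parameter ball has a disc of
uniform radius with bounded iterates. -/

open Polynomial

namespace Pool.Agent.MP_28f8a1_an.H19

variable {K : Type*} [NontriviallyNormedField K]

/-- the polynomial with parameter `q` (critical points `q (some i)`, constant term `q none`) -/
noncomputable def fam {n : ℕ} (α : K) (q : Option (Fin n) → K) : K[X] :=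
  famP α (fun i => q (some i)) (q none)

/-- the parameter `q + r μ` with indeterminate `μ` -/
noncomputable def qU {n : ℕ} (q : Option (Fin n) → K) (r : K) (τ : Option (Fin n)) :
    MvPolynomial (Option (Fin n)) K := MvPolynomial.C (q τ) + MvPolynomial.C r * MvPolynomial.X τ

/-- the polynomial with parameter `q + r μ` with indeterminate `μ` -/
noncomputable def fU {n : ℕ} (α : K) (q : Option (Fin n) → K) (r : K) :
    (MvPolynomial (Option (Fin n)) K)[X] := famP α (fun i => qU q r (some i)) (qU q r none)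

theorem qU_eval {n : ℕ} (q : Option (Fin n) → K) (r : K) (τ : Option (Fin n))
    (μ : Option (Fin n) → K) : MvPolynomial.eval μ (qU q r τ) = (q + r • μ) τ := by
  simp [qU]

theorem fU_map {n : ℕ} (α : K) (q : Option (Fin n) → K) (r : K) (μ : Option (Fin n) → K) :
    (fU α q r).map (MvPolynomial.eval μ) = fam α (q + r • μ) := by
  have h := famP_map (MvPolynomial.aeval μ : MvPolynomial (Option (Fin n)) K →ₐ[K] K) α
    (fun i => qU q r (some i)) (qU q r none)
  have e : ((MvPolynomial.aeval μ : MvPolynomial (Option (Fin n)) K →ₐ[K] K) :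
      MvPolynomial (Option (Fin n)) K →+* K) = MvPolynomial.eval μ := by
    ext <;> simp
  rw [e] at h
  rw [fU, h, fam]
  simp only [MvPolynomial.aeval_eq_eval, qU_eval]

/-- Taylor coefficients of the iterates at the critical values -/
noncomputable def bU {n : ℕ} (α : K) (q : Option (Fin n) → K) (r : K) (i : Fin n) (m : ℕ) :
    (MvPolynomial (Option (Fin n)) K)[X] :=
  taylor ((fU α q r).eval (qU q r (some i))) (itR (fU α q r) m)

theorem cv_map {n : ℕ} (α : K) (q : Option (Fin n) → K) (r : K) (i : Fin n)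
    (μ : Option (Fin n) → K) : MvPolynomial.eval μ ((fU α q r).eval (qU q r (some i))) =
      (fam α (q + r • μ)).eval ((q + r • μ) (some i)) := by
  rw [← fU_map, ← qU_eval, eval_map, eval₂_at_apply]

theorem bU_map {n : ℕ} (α : K) (q : Option (Fin n) → K) (r : K) (i : Fin n) (m : ℕ)
    (μ : Option (Fin n) → K) : (bU α q r i m).map (MvPolynomial.eval μ) =
      taylor ((fam α (q + r • μ)).eval ((q + r • μ) (some i))) (itp (fam α (q + r • μ)) m) := by
  rw [bU, map_taylor, cv_map, itR_map, fU_map]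

theorem tame_ne {n : ℕ} (ht : ∀ j : ℕ, 1 ≤ j → j ≤ n + 1 → ‖(j : K)‖ = 1) :
    ∀ j : ℕ, 1 ≤ j → j ≤ n + 1 → (j : K) ≠ 0 := fun j h1 h2 h => by
  have := ht j h1 h2
  rw [h, norm_zero] at this
  exact zero_ne_one this

theorem fam_der {n : ℕ} (ht : ∀ j : ℕ, 1 ≤ j → j ≤ n + 1 → (j : K) ≠ 0) (α : K)
    (q : Option (Fin n) → K) : derivative (fam α q) =
      C (((n + 1 : ℕ) : K) * α) * ∏ i, (X - C (q (some i))) := famP_der ht α _ _

theorem fam_zero {n : ℕ} (α : K) (q : Option (Fin n) → K) : (fam α q).eval 0 = q none := by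
  rw [← coeff_zero_eq_eval_zero, fam, famP_coeff_zero]

theorem der_sum {A ι : Type*} [CommRing A] [Algebra K A] (s : Finset ι) (D : ι → Derivation K A A)
    (a : A) : (∑ τ ∈ s, D τ) a = ∑ τ ∈ s, D τ a := by
  classical
  induction s using Finset.induction_on with
  | empty => simp
  | insert b s hb ih => rw [Finset.sum_insert hb, Finset.sum_insert hb, Derivation.add_apply, ih]

/-- the direction in parameter space along which the polynomial moves by `vv j` -/
theorem dir_eq {n : ℕ} (ht : ∀ j : ℕ, 1 ≤ j → j ≤ n + 1 → (j : K) ≠ 0) (α : K)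
    (q : Option (Fin n) → K) {r : K} (μ : Option (Fin n) → K)
    (hc : Function.Injective fun i => (q + r • μ) (some i)) (j : Fin n)
    (ν : Option (Fin n) → K)
    (h0 : r * ν none = (vv α (fun i => (q + r • μ) (some i)) j).eval 0)
    (h1 : ∀ l, r * ν (some l) = -(if l = j then ∑ k ∈ Finset.univ.erase j,
      ((q + r • μ) (some j) - (q + r • μ) (some k))⁻¹
      else -((q + r • μ) (some j) - (q + r • μ) (some l))⁻¹)) :
    (Dc (∑ τ, ν τ • MvPolynomial.pderiv τ) (fU α q r)).map (MvPolynomial.eval μ) =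
      vv α (fun i => (q + r • μ) (some i)) j := by
  set D : Derivation K (MvPolynomial (Option (Fin n)) K) (MvPolynomial (Option (Fin n)) K) :=
    ∑ τ, ν τ • MvPolynomial.pderiv τ with hD
  have hq : ∀ τ, MvPolynomial.eval μ (D (qU q r τ)) = r * ν τ := fun τ => by
    rw [hD, der_sum, map_sum, Finset.sum_eq_single τ]
    · simp [qU, mul_comm]
    · intro b _ hb
      simp [qU, MvPolynomial.pderiv_X, hb.symm]
    · simp
  refine eq_of_der ht ?_ (vv_deg _ _ _) ?_ ?_
  · refine natDegree_le_iff_coeff_eq_zero.2 fun k hk => ?_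
    rw [coeff_map, Dc_coeff, fU, coeff_eq_zero_of_natDegree_lt ((famP_deg _ _ _).trans_lt hk),
      map_zero, map_zero]
  · rw [coeff_map, Dc_coeff, fU, famP_coeff_zero, hq, h0, coeff_zero_eq_eval_zero]
  · rw [derivative_map, ← Dc_der, fU, famP_der ht, Dc_mul, Dc_C, D.map_algebraMap, Dc_prod,
      vv_der α hc, C_0, zero_mul, zero_add, Polynomial.map_mul, Polynomial.map_neg,
      Polynomial.map_sum, mul_neg, Finset.mul_sum, ← Finset.sum_neg_distrib]
    refine Finset.sum_congr rfl fun l _ => ?_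
    rw [Polynomial.map_mul, map_C, map_C, hq, h1, Polynomial.map_prod, vv, C_neg]
    simp only [Polynomial.map_sub, map_X, map_C, qU_eval, MvPolynomial.algebraMap_eq,
      MvPolynomial.eval_C]
    ring

/-- the polynomial in `CoreStmt` is a directional derivative of `bU` -/
theorem jet_eq {n : ℕ} (ht : ∀ j : ℕ, 1 ≤ j → j ≤ n + 1 → (j : K) ≠ 0) (α : K)
    (q : Option (Fin n) → K) (r : K) (μ : Option (Fin n) → K) (i : Fin n) (m : ℕ)
    (D : Derivation K (MvPolynomial (Option (Fin n)) K) (MvPolynomial (Option (Fin n)) K))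
    {v : K[X]} (hv : (Dc D (fU α q r)).map (MvPolynomial.eval μ) = v) :
    taylor ((fam α (q + r • μ)).eval ((q + r • μ) (some i))) (Gp (fam α (q + r • μ)) v m +
      derivative (itp (fam α (q + r • μ)) m) * C (v.eval ((q + r • μ) (some i)))) =
      (Dc D (bU α q r i m)).map (MvPolynomial.eval μ) := by
  have h0 : (derivative (fU α q r)).eval (qU q r (some i)) = 0 := by
    rw [fU, famP_der ht, eval_mul, eval_prod,
      Finset.prod_eq_zero (Finset.mem_univ i) (by simp), mul_zero]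
  rw [bU, Dc_taylor, map_taylor, cv_map, Polynomial.map_add, Polynomial.map_mul, itR_Dc,
    ← derivative_map, itR_map, fU_map, hv, map_C, Dc_eval, h0, zero_mul, add_zero, ← hv,
    ← qU_eval q r (some i) μ, eval_map, eval₂_at_apply]

theorem fam_setup {n : ℕ} (hn : 1 ≤ n) (ht : ∀ j : ℕ, 1 ≤ j → j ≤ n + 1 → ‖(j : K)‖ = 1) {α : K}
    {q : Option (Fin n) → K} {ρ : ℝ} (hρ : 0 < ρ) (hq : ∀ τ, ‖q τ‖ ≤ ρ) (hb : 2 ≤ ‖α‖ * ρ ^ n) :
    Setup n (fam α q) α (fun i => q (some i)) ρ :=
  ⟨hn, ht, famP_deg _ _ _, fam_der (tame_ne ht) _ _, hρ, fun _ => hq _,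
    by rw [fam_zero]; exact hq _, hb⟩

variable [IsUltrametricDist K]

theorem par_le {n : ℕ} {q μ : Option (Fin n) → K} {r : K} {ρ : ℝ} (hρ : 1 ≤ ρ) (hr : ‖r‖ ≤ 1)
    (hq : ∀ τ, ‖q τ‖ ≤ ρ) (hμ : ∀ τ, ‖μ τ‖ ≤ 1) (τ : Option (Fin n)) : ‖(q + r • μ) τ‖ ≤ ρ := by
  refine (IsUltrametricDist.norm_add_le_max _ _).trans (max_le (hq τ) ?_)
  rw [Pi.smul_apply, smul_eq_mul, norm_mul]
  exact (mul_le_one₀ hr (norm_nonneg _) (hμ τ)).trans hρ

theorem sum_le {ι : Type*} (s : Finset ι) (g : ι → K) {B : ℝ} (hB : 0 ≤ B)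
    (h : ∀ i ∈ s, ‖g i‖ ≤ B) : ‖∑ i ∈ s, g i‖ ≤ B :=
  IsUltrametricDist.norm_sum_le_of_forall_le_of_nonneg hB h

theorem ball_bound [IsAlgClosed K] (hc : CoreStmt K) {n : ℕ} (hn : 1 ≤ n)
    (ht : ∀ j : ℕ, 1 ≤ j → j ≤ n + 1 → ‖(j : K)‖ = 1) {α : K}
    {q : Option (Fin n) → K} {r : K} {ρ : ℝ} (hρ : 1 ≤ ρ) (hr0 : r ≠ 0) (hr : ‖r‖ ≤ 1)
    (hq : ∀ τ, ‖q τ‖ ≤ ρ) (hb : 2 ≤ ‖α‖ * ρ ^ n) (i : Fin n)
    (hi : ∀ μ : Option (Fin n) → K, (∀ τ, ‖μ τ‖ ≤ 1) → ∀ m,
      ‖(itp (fam α (q + r • μ)) m).eval ((fam α (q + r • μ)).eval ((q + r • μ) (some i)))‖ ≤ 2 * ρ) :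
    ∃ s : ℝ, 0 < s ∧ ∀ ν : Option (Fin n) → K, (∀ τ, ‖ν τ‖ ≤ 1) → ∀ m z,
      ‖z - (fam α (q + r • ν)).eval ((q + r • ν) (some i))‖ ≤ s →
        ‖(itp (fam α (q + r • ν)) m).eval z‖ ≤ 2 * ρ := by
  have hρ0 : 0 < ρ := by linarith
  have hr1 : 0 < ‖r‖ := norm_pos_iff.2 hr0
  have hα : 0 < ‖α‖ := by
    by_contra h
    have : ‖α‖ = 0 := le_antisymm (not_lt.1 h) (norm_nonneg _)
    rw [this, zero_mul] at hb
    linarith
  set N : ℝ := max (‖r‖⁻¹ * ‖r‖⁻¹) (‖α‖ * ρ ^ n * ‖r‖⁻¹) with hN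
  have hN0 : 0 < N := lt_max_of_lt_left (by positivity)
  set β : ℝ := ‖α‖ * ‖r‖ ^ n with hβ
  have hβ0 : 0 < β := by positivity
  set M : ℝ := max 1 (2 * N * (‖α‖ * ρ ^ (n + 1)) / β) with hM
  have hM0 : 0 < M := lt_max_of_lt_left one_pos
  refine ⟨β / (2 * N * (n.factorial * M ^ n)), by positivity, fun ν hν m z hz => ?_⟩
  obtain ⟨L, hL⟩ : ∃ L, ∀ i', (bU α q r i' m).natDegree < L :=
    ⟨(Finset.univ.sup fun i' => (bU α q r i' m).natDegree) + 1, fun i' => Nat.lt_succ_of_le
      (Finset.le_sup (f := fun i' => (bU α q r i' m).natDegree) (Finset.mem_univ i'))⟩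
  obtain ⟨μ, hμ, H⟩ := d78_sup' (ι := (Fin n × Fin L) ⊕ (Fin n × Fin n))
    (Sum.elim (fun x => (bU α q r x.1 m).coeff x.2) fun x => qU q r (some x.1) - qU q r (some x.2))
  have Hb : ∀ i' k (ν' : Option (Fin n) → K), (∀ τ, ‖ν' τ‖ ≤ 1) →
      ‖MvPolynomial.eval ν' ((bU α q r i' m).coeff k)‖ ≤
        ‖MvPolynomial.eval μ ((bU α q r i' m).coeff k)‖ ∧
      ∀ τ, ‖MvPolynomial.eval ν' (MvPolynomial.pderiv τ ((bU α q r i' m).coeff k))‖ ≤
        ‖MvPolynomial.eval μ ((bU α q r i' m).coeff k)‖ := fun i' k ν' h => by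
    by_cases hk : k < L
    · exact H (Sum.inl (i', ⟨k, hk⟩)) ν' h
    · rw [coeff_eq_zero_of_natDegree_lt ((hL i').trans_le (not_lt.1 hk))]
      simp
  set c : Fin n → K := fun i => (q + r • μ) (some i) with hcd
  have Hc : ∀ k l, k ≠ l → ‖r‖ ≤ ‖c k - c l‖ := fun k l h => by
    have h1 := (H (Sum.inr (k, l)) μ hμ).2 (some k)
    simp only [Sum.elim_inr, map_sub, qU_eval] at h1
    simpa [qU, MvPolynomial.pderiv_X, Pi.single_apply, h.symm, hcd] using h1
  have hinj : Function.Injective c := fun k l h => by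
    by_contra h1
    have := Hc k l h1
    rw [h, sub_self, norm_zero] at this
    linarith
  have hqμ := par_le hρ hr hq hμ
  set f := fam α (q + r • μ) with hf
  obtain ⟨s, hs, hs1, hs2⟩ := hc n f α c ρ (fam_setup hn ht hρ0 hqμ hb) hinj m
  have hcoef : ∀ i' k, MvPolynomial.eval μ ((bU α q r i' m).coeff k) =
      (taylor (f.eval (c i')) (itp f m)).coeff k := fun i' k => by
    rw [← coeff_map, bU_map]
  have hs0 : ∀ x : K, ‖x‖ ≤ 2 * s0 ρ x ∧ 0 ≤ s0 ρ x := fun x => by
    have := norm_nonneg x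
    unfold s0; split_ifs with h <;> constructor <;> linarith
  have hbk : ∀ i' k, ‖MvPolynomial.eval μ ((bU α q r i' m).coeff k)‖ * s i' ^ k ≤
      2 * s0 ρ ((itp f m).eval (f.eval (c i'))) := fun i' k => by
    rw [hcoef]
    rcases Nat.eq_zero_or_pos k with rfl | hk
    · simpa using (hs0 _).1
    · have := hs1 i' k hk
      have := (hs0 ((itp f m).eval (f.eval (c i')))).2
      linarith
  have hinv : ∀ k l, k ≠ l → ‖(c k - c l)⁻¹‖ ≤ ‖r‖⁻¹ := fun k l h => by
    rw [norm_inv]; exact inv_anti₀ hr1 (Hc k l h)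
  have hna : ‖((n + 1 : ℕ) : K) * α‖ = ‖α‖ := by rw [norm_mul, ht _ (by omega) le_rfl, one_mul]
  have key := hs2 (2 * N) (by positivity) fun i' j k => by
    set w : Fin n → K := fun l => if l = j then ∑ k ∈ Finset.univ.erase j, (c j - c k)⁻¹
      else -(c j - c l)⁻¹ with hw
    set ν' : Option (Fin n) → K := fun τ => τ.elim ((vv α c j).eval 0 * r⁻¹) fun l => -w l * r⁻¹
      with hν'
    have hνN : ∀ τ, ‖ν' τ‖ ≤ N := by
      rintro (_ | l)
      · refine le_max_of_le_right ?_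
        simp only [hν', Option.elim_none, norm_mul, norm_inv]
        gcongr
        rw [vv, eval_mul, eval_C, norm_mul, hna, eval_prod, norm_prod]
        gcongr
        calc _ ≤ ∏ _k ∈ Finset.univ.erase j, ρ :=
              Finset.prod_le_prod (fun _ _ => norm_nonneg _) fun k _ => by
                rw [eval_sub, eval_X, eval_C, zero_sub, norm_neg]; exact hqμ (some k)
          _ ≤ ρ ^ n := by
              rw [Finset.prod_const]
              refine pow_le_pow_right₀ hρ ?_
              simp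
      · refine le_max_of_le_left ?_
        simp only [hν', Option.elim_some, norm_mul, norm_inv, norm_neg]
        gcongr
        simp only [hw]
        split_ifs with h
        · exact sum_le _ _ (by positivity) fun k hk => hinv _ _ (Finset.ne_of_mem_erase hk).symm
        · rw [norm_neg]; exact hinv _ _ (Ne.symm h)
    have hdir := dir_eq (tame_ne ht) α q μ hinj j ν'
      (by simp only [hν', Option.elim_none]; rw [mul_comm, inv_mul_cancel_right₀ hr0])
      (fun l => by simp only [hν', Option.elim_some]; rw [mul_comm, inv_mul_cancel_right₀ hr0])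
    have hj := jet_eq (tame_ne ht) α q r μ i' m _ hdir
    have h1 : ‖(taylor (f.eval (c i')) (Gp f (vv α c j) m +
        derivative (itp f m) * C ((vv α c j).eval (c i')))).coeff k‖ ≤
        N * ‖MvPolynomial.eval μ ((bU α q r i' m).coeff k)‖ := by
      rw [show taylor (f.eval (c i')) (Gp f (vv α c j) m +
        derivative (itp f m) * C ((vv α c j).eval (c i'))) = _ from hj, coeff_map, Dc_coeff,
        der_sum, map_sum]
      refine sum_le _ _ (by positivity) fun τ _ => ?_
      rw [Derivation.smul_apply, MvPolynomial.smul_eval, norm_mul]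
      exact mul_le_mul (hνN τ) ((Hb i' k μ hμ).2 τ) (norm_nonneg _) hN0.le
    have h2 := hbk i' k
    have h3 : 0 ≤ s i' ^ k := pow_nonneg (hs i').1.le k
    calc _ ≤ N * ‖MvPolynomial.eval μ ((bU α q r i' m).coeff k)‖ * s i' ^ k := by gcongr
      _ = N * (‖MvPolynomial.eval μ ((bU α q r i' m).coeff k)‖ * s i' ^ k) := by ring
      _ ≤ N * (2 * s0 ρ ((itp f m).eval (f.eval (c i')))) := by gcongr
      _ = _ := by ring
  have hvv : ∀ l, β ≤ ‖(vv α c l).eval (c l)‖ := fun l => by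
    rw [vv, eval_mul, eval_C, norm_mul, hna, eval_prod, norm_prod, hβ]
    gcongr
    calc ‖r‖ ^ n ≤ ∏ _k ∈ Finset.univ.erase l, ‖r‖ := by
          rw [Finset.prod_const]
          refine pow_le_pow_of_le_one hr1.le hr ?_
          simp
      _ ≤ _ := Finset.prod_le_prod (fun _ _ => hr1.le) fun k hk => by
          simpa using Hc l k (Finset.ne_of_mem_erase hk).symm
  have hfac : ∀ l, 2 * N * s l / ‖(vv α c l).eval (c l)‖ ≤ 2 * N * s l / β := fun l => by
    have := (hs l).1
    have := hvv l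
    gcongr
  have hsi : β / (2 * N * (n.factorial * M ^ n)) ≤ s i := by
    rw [div_le_iff₀ (by positivity)]
    have h1 : ∏ l, 2 * N * s l / ‖(vv α c l).eval (c l)‖ ≤ 2 * N * s i / β * M ^ n := by
      rw [← Finset.mul_prod_erase _ _ (Finset.mem_univ i)]
      have h0 : ∀ l, 0 ≤ 2 * N * s l / ‖(vv α c l).eval (c l)‖ := fun l => by
        have := (hs l).1
        positivity
      have := (hs i).1
      refine mul_le_mul (hfac i) ?_ (Finset.prod_nonneg fun l _ => h0 l) (by positivity)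
      calc _ ≤ ∏ _k ∈ Finset.univ.erase i, M :=
            Finset.prod_le_prod (fun l _ => h0 l) fun l _ => (hfac l).trans
              (le_max_of_le_right (by have := (hs l).2; gcongr))
        _ ≤ M ^ n := by
            rw [Finset.prod_const]
            refine pow_le_pow_right₀ (le_max_left _ _) ?_
            simp
    have h2 : 1 ≤ (n.factorial : ℝ) * (2 * N * s i / β * M ^ n) := key.trans (by gcongr)
    have h3 : (n.factorial : ℝ) * (2 * N * s i / β * M ^ n) =
        s i * (2 * N * (n.factorial * M ^ n)) / β := by ring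
    rwa [h3, le_div_iff₀ hβ0, one_mul] at h2
  have hs0i : s0 ρ ((itp f m).eval (f.eval (c i))) = 2 * ρ := if_pos (hi μ hμ m)
  refine (eval_le_gp (hs i).1 (hz.trans hsi) _).trans (gp_le fun k => ?_)
  rcases Nat.eq_zero_or_pos k with rfl | hk
  · simpa using hi ν hν m
  · rw [← bU_map, coeff_map, ← hs0i]
    refine le_trans ?_ (hs1 i k hk)
    rw [← hcoef]
    exact mul_le_mul_of_nonneg_right (Hb i k ν hν).1 (pow_nonneg (hs i).1.le k)

end Pool.Agent.MP_28f8a1_an.H19
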