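import Pool.Agent.MP_28f8a1_an.H19N.S2Defs

/-! h19n, section 1: the cells. -/

open Polynomial

namespace Pool.Agent.MP_28f8a1_an.H19

variable {K : Type*} [NontriviallyNormedField K]

/-- the radii of the cells -/
structure Cells {n : ℕ} (f : K[X]) (c : Fin n → K) (α : K) (ρ : ℝ) (s : ℕ → K → ℝ) : Prop where
  p0 : ∀ m x, 0 < s m x
  p1 : ∀ x, s 0 x = s0 ρ x
  p2 : ∀ m x, sig f x (s (m + 1) x) = s m (f.eval x)
  p3 : ∀ m x y, ‖y - x‖ ≤ s m x → s m y = s m x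
  p4 : ∀ m x y, ‖y - x‖ ≤ s (m + 1) x → ‖f.eval y - f.eval x‖ ≤ s m (f.eval x)
  p5a : ∀ m x, 2 * ρ < ‖(itp f m).eval x‖ → s (m + 1) x = s m x
  p5b : ∀ m x, ‖(itp f m).eval x‖ ≤ 2 * ρ → s (m + 1) x < s m x
  p6 : ∀ i, s 1 (c i) ≤ ρ
  p7a : ∀ m x, sig (itp f m) x (s m x) = s0 ρ ((itp f m).eval x)
  p7b : ∀ m x, s m x * gp x (s m x) (derivative (itp f m)) = s0 ρ ((itp f m).eval x)
  p8 : ∀ x, 2 * ρ < ‖x‖ → 2 * ρ < ‖f.eval x‖
  p9 : ∀ m i, s m (f.eval (c i)) ≤ ‖α‖ * ρ ^ (n + 1)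

theorem Cells.succ_le {n : ℕ} {f : K[X]} {c : Fin n → K} {α : K} {ρ : ℝ} {s : ℕ → K → ℝ}
    (h : Cells f c α ρ s) (m : ℕ) (x : K) : s (m + 1) x ≤ s m x :=
  (le_or_gt _ _).elim (fun h1 => (h.p5b m x h1).le) fun h1 => (h.p5a m x h1).le

theorem Cells.anti {n : ℕ} {f : K[X]} {c : Fin n → K} {α : K} {ρ : ℝ} {s : ℕ → K → ℝ}
    (h : Cells f c α ρ s) {k m : ℕ} (hk : k ≤ m) (x : K) : s m x ≤ s k x :=
  antitone_nat_of_succ_le (f := fun m => s m x) (fun m => h.succ_le m x) hk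

theorem itp_succ' (f : K[X]) (m : ℕ) : itp f (m + 1) = (itp f m).comp f := by
  induction m with
  | zero => simp [itp]
  | succ m ih => rw [itp, ih, ← comp_assoc, ← ih, itp]

theorem eval_itp_succ' (f : K[X]) (m : ℕ) (x : K) :
    (itp f (m + 1)).eval x = (itp f m).eval (f.eval x) := by rw [itp_succ', eval_comp]

theorem s0_pos {ρ : ℝ} (h : 0 < ρ) (x : K) : 0 < s0 ρ x := by
  unfold s0; split_ifs with h1
  · positivity
  · linarith [not_le.1 h1]

namespace Setup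

variable {n : ℕ} {f : K[X]} {α : K} {c : Fin n → K} {ρ : ℝ} (h : Setup n f α c ρ)
include h

theorem alpha_pos : 0 < ‖α‖ := by
  by_contra h0
  have h1 : ‖α‖ = 0 := le_antisymm (not_lt.1 h0) (norm_nonneg _)
  have h2 := h.big
  rw [h1, zero_mul] at h2
  linarith

theorem lead : f.coeff (n + 1) = α := by
  have hn : ((n + 1 : ℕ) : K) ≠ 0 := norm_ne_zero_iff.1 (by
    rw [h.tame _ (Nat.le_add_left _ _) le_rfl]; exact one_ne_zero)
  have h1 := congrArg (coeff · n) h.der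
  have h2 : (∏ i, (X - C (c i))).coeff n = 1 := by
    have h3 := (monic_prod_of_monic Finset.univ _ fun i _ => monic_X_sub_C (c i)).coeff_natDegree
    rwa [natDegree_finsetProd_X_sub_C_eq_card, Finset.card_univ, Fintype.card_fin] at h3
  simp only [coeff_derivative, coeff_C_mul, h2, mul_one] at h1
  refine mul_left_cancel₀ hn ?_
  rw [← h1]; push_cast; ring

theorem natDegree_eq : f.natDegree = n + 1 :=
  h.deg.antisymm (le_natDegree_of_ne_zero (h.lead ▸ norm_pos_iff.1 h.alpha_pos))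

theorem deg_pos : 0 < f.natDegree := h.natDegree_eq ▸ n.succ_pos

theorem two_rho_le : 2 * ρ ≤ ‖α‖ * ρ ^ (n + 1) := by
  rw [pow_succ, ← mul_assoc]
  exact mul_le_mul_of_nonneg_right h.big h.rho_pos.le

theorem s0_le {y : K} {t : ℝ} (ht : ρ ≤ t) (hy : ‖y‖ ≤ ‖α‖ * t ^ (n + 1)) :
    s0 ρ y ≤ ‖α‖ * t ^ (n + 1) := by
  have hρ := h.rho_pos
  unfold s0
  split_ifs with h1
  · exact h.two_rho_le.trans (by gcongr)
  · linarith [norm_nonneg y]

variable [IsUltrametricDist K]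

theorem gp_der (x : K) {t : ℝ} (ht : 0 < t) :
    gp x t (derivative f) = ‖α‖ * ∏ i, max ‖x - c i‖ t := by
  have h1 : ∀ S : Finset (Fin n), gp x t (∏ i ∈ S, (X - C (c i))) = ∏ i ∈ S, max ‖x - c i‖ t :=
    fun S => by
      induction S using Finset.induction_on with
      | empty => exact gp_one x t
      | insert a S ha ih =>
        rw [Finset.prod_insert ha, Finset.prod_insert ha, gp_mul x ht, ih, gp_X x ht.le]
  rw [h.der, gp_mul x ht, gp_C, h1, norm_mul, h.tame _ (Nat.le_add_left _ _) le_rfl, one_mul]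

variable [IsAlgClosed K]

theorem G2 (x : K) {t : ℝ} (ht : 0 < t) : t * gp x t (derivative f) = sig f x t := by
  rw [mul_comm, gp_deriv (fun j h0 h1 => h.tame j h0 (h1.trans h.deg)) x ht]

theorem sig_const {x : K} {t r : ℝ} (ht : 0 < t) (hr : ∀ i, max ‖x - c i‖ t = r) :
    sig f x t = ‖α‖ * (t * r ^ n) := by
  rw [← h.G2 x ht, h.gp_der x ht]; simp only [hr, Finset.prod_const, Finset.card_univ,
    Fintype.card_fin]; ring

theorem sig_inj (x : K) {t u : ℝ} (ht : 0 < t) (hu : 0 < u) (e : sig f x t = sig f x u) : t = u :=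
  le_antisymm ((sig_le_iff h.deg_pos x ht hu).1 e.le) ((sig_le_iff h.deg_pos x hu ht).1 e.ge)

theorem sig_in {x : K} {t : ℝ} (ht : ρ ≤ t) (hx : ‖x‖ ≤ t) : sig f x t = ‖α‖ * t ^ (n + 1) := by
  rw [h.sig_const (r := t) (h.rho_pos.trans_le ht) fun i => max_eq_right ?_]
  · ring
  · rw [sub_eq_add_neg]
    exact (IsUltrametricDist.norm_add_le_max _ _).trans
      (max_le hx (by rw [norm_neg]; exact (h.crit i).trans ht))

theorem eval_le {x : K} {t : ℝ} (ht : ρ ≤ t) (hx : ‖x‖ ≤ t) : ‖f.eval x‖ ≤ ‖α‖ * t ^ (n + 1) := by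
  have hρ := h.rho_pos
  have h1 := eval_mem f (x := 0) (y := x) (hρ.trans_le ht) (by rwa [sub_zero])
  rw [h.sig_in ht (by rw [norm_zero]; linarith)] at h1
  have h2 := IsUltrametricDist.norm_add_le_max (f.eval x - f.eval 0) (f.eval 0)
  rw [sub_add_cancel] at h2
  refine h2.trans (max_le h1 (h.f0.trans ?_))
  calc ρ ≤ 2 * ρ := by linarith
    _ ≤ ‖α‖ * ρ ^ (n + 1) := h.two_rho_le
    _ ≤ _ := by gcongr

theorem grow {x : K} (hx : ρ < ‖x‖) : ‖f.eval x‖ = ‖α‖ * ‖x‖ ^ (n + 1) := by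
  have hρ := h.rho_pos
  have ha := h.alpha_pos
  have hx0 := hρ.trans hx
  have hk : ∀ k ∈ Finset.range (n + 1), ‖f.coeff k * x ^ k‖ < ‖α‖ * ‖x‖ ^ (n + 1) := fun k hk => by
    have h1 : ‖f.coeff k‖ * ρ ^ k ≤ ‖α‖ * ρ ^ (n + 1) := by
      rcases Nat.eq_zero_or_pos k with rfl | h0
      · rw [coeff_zero_eq_eval_zero, pow_zero, mul_one]
        linarith [h.f0, h.two_rho_le]
      · have h2 := le_gp 0 hρ.le (f - C (f.eval 0)) k
        rw [taylor_zero, coeff_sub, coeff_C_of_ne_zero h0.ne', sub_zero] at h2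
        exact h2.trans_eq (h.sig_in le_rfl (by rw [norm_zero]; exact hρ.le))
    obtain ⟨j, hj⟩ := Nat.exists_eq_add_of_lt (Finset.mem_range.1 hk)
    rw [hj, show k + j + 1 = j + 1 + k by ring, pow_add, ← mul_assoc] at h1 ⊢
    rw [norm_mul, norm_pow]
    refine mul_lt_mul_of_pos_right ((le_of_mul_le_mul_right h1 (pow_pos hρ k)).trans_lt ?_)
      (pow_pos hx0 k)
    gcongr
  obtain ⟨k, hk1, hk2⟩ := IsUltrametricDist.exists_norm_finsetSum_le_of_nonempty
    Finset.nonempty_range_add_one fun k => f.coeff k * x ^ k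
  have h1 := hk2.trans_lt (hk k hk1)
  rw [eval_eq_sum_range' (Nat.lt_succ_of_le h.deg), Finset.sum_range_succ, h.lead,
    IsUltrametricDist.norm_add_eq_max_of_norm_ne_norm (by rw [norm_mul, norm_pow]; exact h1.ne),
    norm_mul, norm_pow, max_eq_right h1.le]

theorem out {x : K} (hx : 2 * ρ < ‖x‖) : 2 * ρ < ‖f.eval x‖ := by
  have hρ := h.rho_pos
  rw [h.grow (by linarith)]
  refine h.two_rho_le.trans_lt ?_
  have := h.alpha_pos
  gcongr
  linarith

end Setup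

variable [IsUltrametricDist K]

theorem s0_congr {ρ : ℝ} (hρ : 0 < ρ) {x y : K} (h : ‖y - x‖ ≤ s0 ρ x) : s0 ρ y = s0 ρ x := by
  have h1 := IsUltrametricDist.norm_add_le_max (y - x) x
  rw [sub_add_cancel] at h1
  unfold s0 at h ⊢
  by_cases h2 : ‖x‖ ≤ 2 * ρ
  · rw [if_pos h2] at h
    rw [if_pos h2, if_pos (h1.trans (max_le h h2))]
  · rw [if_neg h2] at h
    have h3 : ‖y - x‖ < ‖x‖ := by linarith [not_le.1 h2]
    have h4 := IsUltrametricDist.norm_add_eq_max_of_norm_ne_norm h3.ne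
    rw [sub_add_cancel, max_eq_right h3.le] at h4
    rw [h4]

variable [IsAlgClosed K]

theorem grow : GrowStmt K := fun _ _ _ _ _ h _ hx => h.grow hx

theorem exists_cells {n : ℕ} {f : K[X]} {α : K} {c : Fin n → K} {ρ : ℝ}
    (h : Setup n f α c ρ) : ∃ s, Cells f c α ρ s := by
  have hρ := h.rho_pos
  have ha := h.alpha_pos
  have hf := h.deg_pos
  choose τ τ0 τ1 using fun x (r : {r : ℝ // 0 < r}) => sig_surj hf x r.2
  let S : ℕ → K → {r : ℝ // 0 < r} := fun m =>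
    Nat.rec (fun x => ⟨s0 ρ x, s0_pos hρ x⟩) (fun _ g x => ⟨τ x (g (f.eval x)), τ0 _ _⟩) m
  obtain ⟨s, p0, p1, p2⟩ : ∃ s : ℕ → K → ℝ, (∀ m x, 0 < s m x) ∧ (∀ x, s 0 x = s0 ρ x) ∧
      ∀ m x, sig f x (s (m + 1) x) = s m (f.eval x) :=
    ⟨fun m x => (S m x).1, fun m x => (S m x).2, fun _ => rfl, fun m x => τ1 x (S m _)⟩
  have p4 : ∀ m x y, ‖y - x‖ ≤ s (m + 1) x → ‖f.eval y - f.eval x‖ ≤ s m (f.eval x) :=
    fun m x y hy => p2 m x ▸ eval_mem f (p0 _ _) hy
  have p5a : ∀ m x, 2 * ρ < ‖(itp f m).eval x‖ → s (m + 1) x = s m x := fun m => by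
    induction m with
    | zero =>
      intro x hx
      rw [itp, eval_X] at hx
      refine h.sig_inj x (p0 _ _) (p0 _ _) ?_
      rw [p2, p1, p1, s0, s0, if_neg (h.out hx).not_ge, if_neg hx.not_ge, h.grow (by linarith),
        h.sig_const (r := ‖x‖) (by linarith) fun i => ?_]
      · ring
      · have h1 : ‖-c i‖ < ‖x‖ := by rw [norm_neg]; linarith [h.crit i]
        rw [sub_eq_add_neg, IsUltrametricDist.norm_add_eq_max_of_norm_ne_norm h1.ne',
          max_eq_left h1.le, max_eq_left (by linarith)]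
    | succ m ih =>
      intro x hx
      rw [eval_itp_succ'] at hx
      exact h.sig_inj x (p0 _ _) (p0 _ _) (by rw [p2, p2, ih _ hx])
  have p5b : ∀ m x, ‖(itp f m).eval x‖ ≤ 2 * ρ → s (m + 1) x < s m x := fun m => by
    induction m with
    | zero =>
      intro x hx
      rw [itp, eval_X] at hx
      have h1 := h.eval_le (t := 2 * ρ) (by linarith) hx
      have h2 : 2 * ρ < ‖α‖ * (2 * ρ) ^ (n + 1) := h.two_rho_le.trans_lt (by gcongr; linarith)
      rw [← not_le, ← sig_le_iff hf x (p0 _ _) (p0 _ _), not_le, p2, p1, p1, s0, s0, if_pos hx,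
        h.sig_in (by linarith) hx]
      split_ifs <;> linarith
    | succ m ih =>
      intro x hx
      rw [eval_itp_succ'] at hx
      rw [← not_le, ← sig_le_iff hf x (p0 _ _) (p0 _ _), not_le, p2, p2]
      exact ih _ hx
  have hc : ∀ i, s0 ρ (f.eval (c i)) ≤ ‖α‖ * ρ ^ (n + 1) := fun i =>
    h.s0_le le_rfl (h.eval_le le_rfl (h.crit i))
  refine ⟨s, p0, p1, p2, fun m => ?_, p4, p5a, p5b, fun i => ?_, fun m => ?_, fun m => ?_,
    fun x => h.out, fun m i => ?_⟩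
  · induction m with
    | zero => intro x y hy; rw [p1] at hy; rw [p1, p1, s0_congr hρ hy]
    | succ m ih =>
      intro x y hy
      exact h.sig_inj y (p0 _ _) (p0 _ _)
        (by rw [p2, ih _ _ (p4 m x y hy), sig_centre f (p0 _ _) hy, p2])
  · rw [← sig_le_iff hf (c i) (p0 _ _) hρ, p2, p1, h.sig_in le_rfl (h.crit i)]
    exact hc i
  · induction m with
    | zero =>
      intro x
      rw [sig, itp, eval_X, gp_X x (p0 _ _).le, sub_self, norm_zero, max_eq_right (p0 _ _).le, p1]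
    | succ m ih =>
      intro x
      rw [sig, eval_itp_succ', ← ih, sig, ← p2, ← gp_comp hf x (p0 _ _), itp_succ', sub_comp, C_comp]
  · induction m with
    | zero => intro x; rw [itp, derivative_X, gp_one, mul_one, eval_X, p1]
    | succ m ih =>
      intro x
      rw [eval_itp_succ', ← ih, itp_succ', derivative_comp, gp_mul x (p0 _ _), ← mul_assoc,
        h.G2 x (p0 _ _), gp_comp hf x (p0 _ _), p2]
  · induction m with
    | zero => rw [p1]; exact hc i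
    | succ m ih =>
      refine le_trans ?_ ih
      by_cases h1 : ‖(itp f m).eval (f.eval (c i))‖ ≤ 2 * ρ
      · exact (p5b _ _ h1).le
      · exact (p5a _ _ (not_le.1 h1)).le

theorem cells_ex {n : ℕ} {f : K[X]} {α : K} {c : Fin n → K} {ρ : ℝ} (h : Setup n f α c ρ) :
    ∃ s : ℕ → K → ℝ, Cel f c ρ s ∧ (∀ m x, sig (itp f m) x (s m x) = s0 ρ ((itp f m).eval x)) ∧
      ∀ m i, s m (f.eval (c i)) ≤ ‖α‖ * ρ ^ (n + 1) := by
  obtain ⟨s, H⟩ := exists_cells h
  exact ⟨s, ⟨H.p0, H.p1, H.p2, H.p3, H.p5a, H.p5b, H.p6, H.p7b, H.p8⟩, H.p7a, H.p9⟩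

omit [IsUltrametricDist K] [IsAlgClosed K] in
theorem setup_deg {n : ℕ} {f : K[X]} {α : K} {c : Fin n → K} {ρ : ℝ} (h : Setup n f α c ρ) :
    f.natDegree = n + 1 := h.natDegree_eq

end Pool.Agent.MP_28f8a1_an.H19
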