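import Mathlib

/-! h19n: definitions shared by the rows (polynomial level, no Gauss norms). -/

open Polynomial

namespace Pool.Agent.MP_28f8a1_an.H19

variable {K : Type*} [NontriviallyNormedField K]

/-- `f` is tame of degree `n + 1`, with leading coefficient `α`, critical points `c`, all inside radius `ρ`. -/
structure Setup (n : ℕ) (f : K[X]) (α : K) (c : Fin n → K) (ρ : ℝ) : Prop where
  n_pos : 1 ≤ n
  tame : ∀ j : ℕ, 1 ≤ j → j ≤ n + 1 → ‖(j : K)‖ = 1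
  deg : f.natDegree ≤ n + 1
  der : derivative f = C (((n + 1 : ℕ) : K) * α) * ∏ i, (X - C (c i))
  rho_pos : 0 < ρ
  crit : ∀ i, ‖c i‖ ≤ ρ
  f0 : ‖f.eval 0‖ ≤ ρ
  big : 2 ≤ ‖α‖ * ρ ^ n

/-- the `m`-th iterate as a polynomial -/
noncomputable def itp (f : K[X]) : ℕ → K[X]
  | 0 => X
  | m + 1 => f.comp (itp f m)

/-- the derivative of `itp (f + t v) m` in `t` at `t = 0` -/
noncomputable def Gp (f v : K[X]) : ℕ → K[X]
  | 0 => 0
  | m + 1 => v.comp (itp f m) + (derivative f).comp (itp f m) * Gp f v m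

/-- radius of the level-0 cell of `x` (`R = 2ρ`, `τ = 1/2`) -/
noncomputable def s0 (ρ : ℝ) (x : K) : ℝ := if ‖x‖ ≤ 2 * ρ then 2 * ρ else ‖x‖ / 2

/-- the basis `f' / (X - c j)` of the polynomials of degree `< n` -/
noncomputable def vv {n : ℕ} (α : K) (c : Fin n → K) (j : Fin n) : K[X] :=
  C (((n + 1 : ℕ) : K) * α) * ∏ k ∈ Finset.univ.erase j, (X - C (c k))

/-- the statement that sections 0-2 hand to sections 3-4 -/
def CoreStmt (K : Type*) [NontriviallyNormedField K] : Prop :=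
  ∀ (n : ℕ) (f : K[X]) (α : K) (c : Fin n → K) (ρ : ℝ), Setup n f α c ρ → Function.Injective c →
    ∀ m : ℕ, ∃ s : Fin n → ℝ, (∀ i, 0 < s i ∧ s i ≤ ‖α‖ * ρ ^ (n + 1)) ∧
      (∀ i k, 1 ≤ k → ‖(taylor (f.eval (c i)) (itp f m)).coeff k‖ * s i ^ k
          ≤ s0 ρ ((itp f m).eval (f.eval (c i)))) ∧
      ∀ Λ : ℝ, 0 ≤ Λ →
        (∀ i j k, ‖(taylor (f.eval (c i))
            (Gp f (vv α c j) m + derivative (itp f m) * C ((vv α c j).eval (c i)))).coeff k‖ * s i ^ k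
          ≤ Λ * s0 ρ ((itp f m).eval (f.eval (c i)))) →
        1 ≤ (n.factorial : ℝ) * ∏ i, (Λ * s i / ‖(vv α c i).eval (c i)‖)

/-- growth outside radius `ρ` -/
def GrowStmt (K : Type*) [NontriviallyNormedField K] : Prop :=
  ∀ (n : ℕ) (f : K[X]) (α : K) (c : Fin n → K) (ρ : ℝ), Setup n f α c ρ →
    ∀ x : K, ρ < ‖x‖ → ‖f.eval x‖ = ‖α‖ * ‖x‖ ^ (n + 1)

/-- the final statement -/
def MainStmt (K : Type*) [NontriviallyNormedField K] : Prop :=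
  ∀ T : K[X], 2 ≤ T.natDegree → (∀ j : ℕ, 1 ≤ j → j ≤ T.natDegree → ‖(j : K)‖ = 1) →
    ∀ ε : ℝ, 0 < ε → ∃ S : K[X], S.natDegree = T.natDegree ∧ (∀ k, ‖S.coeff k - T.coeff k‖ < ε) ∧
      ∀ c : K, (derivative S).eval c = 0 →
        (Filter.Tendsto (fun n : ℕ => ‖(fun z => S.eval z)^[n] c‖) Filter.atTop Filter.atTop ∨
          ∃ r : ℝ, 0 < r ∧ ∃ B : ℝ, ∀ z : K, ‖z - c‖ ≤ r → ∀ n : ℕ, ‖(fun z => S.eval z)^[n] z‖ ≤ B)

end Pool.Agent.MP_28f8a1_an.H19
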