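import Pool.Agent.MP_28f8a1_an.H19N.Defs

/-! h19n, section 3 (algebra): the family of polynomials with marked critical points and its
derivatives in the parameters. -/

open Polynomial

namespace Pool.Agent.MP_28f8a1_an.H19

section Dc
variable {K A : Type*} [CommRing K] [CommRing A] [Algebra K A]

/-- a derivation applied to the coefficients -/
noncomputable def Dc (D : Derivation K A A) (p : A[X]) : A[X] := p.sum fun k a => monomial k (D a)

theorem Dc_coeff (D : Derivation K A A) (p : A[X]) (k : ℕ) : (Dc D p).coeff k = D (p.coeff k) := by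
  rw [Dc, Polynomial.sum, finsetSum_coeff]
  simp only [coeff_monomial]
  rw [Finset.sum_ite_eq']
  split_ifs with h
  · rfl
  · rw [notMem_support_iff.1 h, map_zero]

theorem Dc_add (D : Derivation K A A) (p q : A[X]) : Dc D (p + q) = Dc D p + Dc D q := by
  ext k; simp [Dc_coeff]

theorem Dc_sub (D : Derivation K A A) (p q : A[X]) : Dc D (p - q) = Dc D p - Dc D q := by
  ext k; simp [Dc_coeff]

theorem Dc_C (D : Derivation K A A) (a : A) : Dc D (C a) = C (D a) := by
  ext k; rw [Dc_coeff, coeff_C, coeff_C]; split_ifs <;> simp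

theorem Dc_X (D : Derivation K A A) : Dc D X = 0 := by
  ext k; rw [Dc_coeff, coeff_X]; split_ifs <;> simp

theorem Dc_mul (D : Derivation K A A) (p q : A[X]) : Dc D (p * q) = Dc D p * q + p * Dc D q := by
  ext k
  simp only [Dc_coeff, coeff_mul, coeff_add, map_sum, Derivation.leibniz, smul_eq_mul,
    ← Finset.sum_add_distrib]
  exact Finset.sum_congr rfl fun x _ => by ring

theorem Dc_comp (D : Derivation K A A) (p q : A[X]) :
    Dc D (p.comp q) = (Dc D p).comp q + (derivative p).comp q * Dc D q := by
  induction p using Polynomial.induction_on with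
  | C a => simp [Dc_C]
  | add p r hp hr => simp only [add_comp, Dc_add, hp, hr, map_add]; ring
  | monomial k a ih =>
    rw [pow_succ, ← mul_assoc, mul_comp, Dc_mul, ih, Dc_mul D _ X, Dc_X, derivative_mul (f := C a * X ^ k)]
    simp only [X_comp, mul_zero, add_zero, mul_comp, add_comp, derivative_X, mul_one]
    ring

theorem Dc_eval (D : Derivation K A A) (p : A[X]) (c : A) :
    D (p.eval c) = (Dc D p).eval c + (derivative p).eval c * D c := by
  have h := Dc_comp D p (C c)
  simp only [comp_C, Dc_C, ← C_mul, ← C_add] at h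
  exact C_injective h

theorem Dc_der (D : Derivation K A A) (p : A[X]) : Dc D (derivative p) = derivative (Dc D p) := by
  ext k
  rw [Dc_coeff, coeff_derivative, coeff_derivative, Dc_coeff, Derivation.leibniz]
  have : D ((k : A) + 1) = 0 := by rw [map_add, D.map_natCast, D.map_one_eq_zero, add_zero]
  simp [this, mul_comm]

theorem Dc_prod (D : Derivation K A A) {ι : Type*} [DecidableEq ι] (s : Finset ι) (c : ι → A) :
    Dc D (∏ k ∈ s, (X - C (c k))) = -∑ l ∈ s, C (D (c l)) * ∏ k ∈ s.erase l, (X - C (c k)) := by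
  induction s using Finset.induction_on with
  | empty => simpa using Dc_C D 1
  | insert a s ha ih =>
    rw [Finset.prod_insert ha, Dc_mul, ih, Dc_sub, Dc_X, Dc_C, Finset.sum_insert ha,
      Finset.erase_insert ha, mul_neg, Finset.mul_sum]
    have : ∀ l ∈ s, (X - C (c a)) * (C (D (c l)) * ∏ k ∈ s.erase l, (X - C (c k))) =
        C (D (c l)) * ∏ k ∈ (insert a s).erase l, (X - C (c k)) := fun l hl => by
      rw [Finset.erase_insert_of_ne (show a ≠ l from fun h => ha (h ▸ hl)),
        Finset.prod_insert (fun h => ha (Finset.mem_of_mem_erase h))]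
      ring
    rw [Finset.sum_congr rfl this]
    ring

theorem Dc_taylor (D : Derivation K A A) (p : A[X]) (x : A) :
    Dc D (taylor x p) = taylor x (Dc D p + derivative p * C (D x)) := by
  simp only [taylor_apply, Dc_comp, Dc_add, Dc_X, Dc_C, zero_add, add_comp, mul_comp, C_comp]

/-- the iterate over any commutative ring -/
noncomputable def itR (f : A[X]) : ℕ → A[X]
  | 0 => X
  | m + 1 => f.comp (itR f m)

end Dc

variable {K : Type*} [NontriviallyNormedField K]

section Map
variable {A : Type*} [CommRing A] [Algebra K A]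

omit [Algebra K A] in
theorem itR_map (φ : A →+* K) (f : A[X]) (m : ℕ) : (itR f m).map φ = itp (f.map φ) m := by
  induction m with
  | zero => simp [itR, itp]
  | succ m ih => rw [itR, itp, map_comp, ih]

theorem itR_Dc (φ : A →+* K) (D : Derivation K A A) (f : A[X]) (m : ℕ) :
    (Dc D (itR f m)).map φ = Gp (f.map φ) ((Dc D f).map φ) m := by
  induction m with
  | zero => simp [itR, Gp, Dc_X]
  | succ m ih =>
    rw [itR, Gp, Dc_comp, Polynomial.map_add, Polynomial.map_mul, map_comp, map_comp, ih, itR_map,
      derivative_map]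

/-- the polynomial with leading coefficient `α`, critical points `c` and constant term `a` -/
noncomputable def famP {n : ℕ} (α : K) (c : Fin n → A) (a : A) : A[X] :=
  C a + ∑ k ∈ Finset.range (n + 1), monomial (k + 1) ((((k + 1 : ℕ) : K)⁻¹) •
    (C (algebraMap K A (((n + 1 : ℕ) : K) * α)) * ∏ i, (X - C (c i))).coeff k)

theorem famP_map {B : Type*} [CommRing B] [Algebra K B] (φ : A →ₐ[K] B) {n : ℕ} (α : K)
    (c : Fin n → A) (a : A) :
    (famP α c a).map (φ : A →+* B) = famP α (fun i => φ (c i)) (φ a) := by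
  have h : (C (algebraMap K A (((n + 1 : ℕ) : K) * α)) * ∏ i, (X - C (c i))).map (φ : A →+* B) =
      C (algebraMap K B (((n + 1 : ℕ) : K) * α)) * ∏ i, (X - C (φ (c i))) := by
    rw [Polynomial.map_mul, map_C, Polynomial.map_prod]
    simp only [Polynomial.map_sub, map_X, map_C, RingHom.coe_coe, AlgHom.commutes]
  rw [famP, famP, Polynomial.map_add, map_C, Polynomial.map_sum, ← h]
  simp only [map_monomial, coeff_map, RingHom.coe_coe, map_smul]

theorem famP_coeff_zero {n : ℕ} (α : K) (c : Fin n → A) (a : A) : (famP α c a).coeff 0 = a := by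
  simp [famP, coeff_monomial]

theorem famP_deg {n : ℕ} (α : K) (c : Fin n → A) (a : A) : (famP α c a).natDegree ≤ n + 1 := by
  refine (natDegree_add_le _ _).trans (max_le (by simp) ?_)
  refine natDegree_sum_le_of_forall_le _ _ fun k hk => (natDegree_monomial_le _).trans ?_
  have := Finset.mem_range.1 hk
  omega

theorem famP_der {n : ℕ} (ht : ∀ j : ℕ, 1 ≤ j → j ≤ n + 1 → (j : K) ≠ 0) (α : K) (c : Fin n → A)
    (a : A) : derivative (famP α c a) =
      C (algebraMap K A (((n + 1 : ℕ) : K) * α)) * ∏ i, (X - C (c i)) := by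
  set g : A[X] := C (algebraMap K A (((n + 1 : ℕ) : K) * α)) * ∏ i, (X - C (c i)) with hg
  have hd : g.natDegree < n + 1 := by
    refine Nat.lt_succ_of_le ((natDegree_C_mul_le _ _).trans ?_)
    refine (natDegree_prod_le _ _).trans ?_
    refine (Finset.sum_le_card_nsmul _ _ 1 fun i _ => natDegree_X_sub_C_le _).trans (by simp)
  rw [famP, ← hg, map_add, derivative_C, zero_add, map_sum]
  conv_rhs => rw [as_sum_range' g _ hd]
  refine Finset.sum_congr rfl fun k hk => ?_
  have h1 := ht (k + 1) (by omega) (by have := Finset.mem_range.1 hk; omega)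
  rw [derivative_monomial, Nat.add_sub_cancel]
  congr 1
  rw [smul_mul_assoc, ← map_natCast (algebraMap K A), mul_comm, ← Algebra.smul_def, smul_smul,
    inv_mul_cancel₀ h1, one_smul]

end Map

theorem eq_of_der {n : ℕ} (ht : ∀ j : ℕ, 1 ≤ j → j ≤ n + 1 → (j : K) ≠ 0) {p q : K[X]}
    (hp : p.natDegree ≤ n + 1) (hq : q.natDegree ≤ n + 1) (h0 : p.coeff 0 = q.coeff 0)
    (h : derivative p = derivative q) : p = q := by
  ext k
  rcases k with _ | k
  · exact h0
  by_cases hk : k + 1 ≤ n + 1
  · have h1 := congrArg (fun r => coeff r k) h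
    simp only [coeff_derivative] at h1
    have h2 := ht (k + 1) (by omega) hk
    push_cast at h2
    exact mul_right_cancel₀ h2 h1
  · rw [coeff_eq_zero_of_natDegree_lt (by omega), coeff_eq_zero_of_natDegree_lt (by omega)]

theorem vv_deg {n : ℕ} (α : K) (c : Fin n → K) (j : Fin n) : (vv α c j).natDegree ≤ n + 1 := by
  refine (natDegree_C_mul_le _ _).trans ((natDegree_prod_le _ _).trans ?_)
  refine (Finset.sum_le_card_nsmul _ _ 1 fun i _ => natDegree_X_sub_C_le _).trans ?_
  have := Finset.card_erase_le (s := (Finset.univ : Finset (Fin n))) (a := j)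
  simp only [Finset.card_univ, Fintype.card_fin] at this
  simp only [smul_eq_mul, mul_one]
  omega

/-- the derivative of a basis vector in the basis -/
theorem vv_der {n : ℕ} (α : K) {c : Fin n → K} (hc : Function.Injective c) (j : Fin n) :
    derivative (vv α c j) = ∑ l, C (if l = j then ∑ k ∈ Finset.univ.erase j, (c j - c k)⁻¹
      else -(c j - c l)⁻¹) * vv α c l := by
  have H : ∀ l ∈ Finset.univ.erase j, C (((n + 1 : ℕ) : K) * α) *
      ((∏ k ∈ (Finset.univ.erase j).erase l, (X - C (c k))) * derivative (X - C (c l))) =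
      C (c j - c l)⁻¹ * vv α c j + C (-(c j - c l)⁻¹) * vv α c l := fun l hl => by
    have hne : l ≠ j := Finset.ne_of_mem_erase hl
    have h1 : c j - c l ≠ 0 := sub_ne_zero.2 fun h => hne (hc h).symm
    have h2 : j ∈ Finset.univ.erase l := Finset.mem_erase.2 ⟨hne.symm, Finset.mem_univ _⟩
    have h3 : C (c j - c l)⁻¹ * (C (c j) - C (c l)) = 1 := by
      rw [← C_sub, ← C_mul, inv_mul_cancel₀ h1, C_1]
    rw [vv, vv, ← Finset.mul_prod_erase _ _ hl, ← Finset.mul_prod_erase _ _ h2,
      Finset.erase_right_comm (a := l) (b := j), C_neg]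
    simp only [derivative_sub, derivative_X, derivative_C, sub_zero, mul_one]
    linear_combination (-(C (((n + 1 : ℕ) : K) * α) *
      ∏ k ∈ (Finset.univ.erase j).erase l, (X - C (c k)))) * h3
  rw [← Finset.add_sum_erase _ _ (Finset.mem_univ j), if_pos rfl, map_sum, Finset.sum_mul,
    ← Finset.sum_add_distrib]
  conv_lhs => rw [vv, derivative_C_mul, derivative_prod_finset, Finset.mul_sum]
  refine Finset.sum_congr rfl fun l hl => ?_
  rw [H l hl, if_neg (Finset.ne_of_mem_erase hl)]

theorem itp_eval (f : K[X]) (m : ℕ) (x : K) :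
    (itp f m).eval x = (fun z => f.eval z)^[m] x := by
  induction m with
  | zero => simp [itp]
  | succ m ih => rw [itp, eval_comp, ih, Function.iterate_succ_apply']

end Pool.Agent.MP_28f8a1_an.H19
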