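import Pool.Agent.MP_28f8a1_an.H19N.Ball

/-! h19n, section 4: choice of the parameter ball and the final statement. -/

open Polynomial

namespace Pool.Agent.MP_28f8a1_an.H19

variable {K : Type*} [NontriviallyNormedField K]

theorem fam_cont {n : ℕ} (α : K) :
    (∀ k, Continuous fun q : Option (Fin n) → K => (fam α q).coeff k) ∧
    ∀ i m, Continuous fun q : Option (Fin n) → K =>
      (itp (fam α q) m).eval ((fam α q).eval (q (some i))) := by
  refine ⟨fun k => ?_, fun i m => ?_⟩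
  · refine (MvPolynomial.continuous_eval ((fU α 0 1).coeff k)).congr fun q => ?_
    rw [← coeff_map, fU_map, zero_add, one_smul]
  · refine (MvPolynomial.continuous_eval ((bU α 0 1 i m).coeff 0)).congr fun q => ?_
    rw [← coeff_map, bU_map, zero_add, one_smul, taylor_coeff_zero]

theorem fam_natDegree {n : ℕ} (hn : 1 ≤ n) (ht : ∀ j : ℕ, 1 ≤ j → j ≤ n + 1 → (j : K) ≠ 0) {α : K}
    (hα : α ≠ 0) (q : Option (Fin n) → K) : (fam α q).natDegree = n + 1 := by
  refine le_antisymm (famP_deg _ _ _) ?_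
  have h1 : (derivative (fam α q)).natDegree = n := by
    rw [fam_der ht, natDegree_C_mul (mul_ne_zero (ht _ (by omega) le_rfl) hα),
      natDegree_prod_of_monic _ _ fun i _ => monic_X_sub_C _]
    simp
  have h2 := natDegree_derivative_le (fam α q)
  omega

theorem exists_fam [IsAlgClosed K] {n : ℕ} (ht : ∀ j : ℕ, 1 ≤ j → j ≤ n + 1 → (j : K) ≠ 0)
    {T : K[X]} (hT : T.natDegree = n + 1) :
    ∃ q : Option (Fin n) → K, T = fam T.leadingCoeff q := by
  have hl : T.leadingCoeff ≠ 0 := leadingCoeff_ne_zero.2 (by rintro rfl; simp at hT)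
  have hn := ht (n + 1) (by omega) le_rfl
  have h1 : (derivative T).coeff n = ((n + 1 : ℕ) : K) * T.leadingCoeff := by
    rw [coeff_derivative, leadingCoeff, hT]; push_cast; ring
  have h2 : (derivative T).natDegree = n := by
    refine le_antisymm ?_ (le_natDegree_of_ne_zero (h1 ▸ mul_ne_zero hn hl))
    have := natDegree_derivative_le T
    omega
  have h3 : (derivative T).roots.card = n := by
    rw [← (IsAlgClosed.splits (derivative T)).natDegree_eq_card_roots, h2]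
  have h4 : (derivative T).roots.toList.length = n := by rw [Multiset.length_toList, h3]
  refine ⟨fun τ => τ.elim (T.coeff 0) fun i => (derivative T).roots.toList.get (i.cast h4.symm),
    eq_of_der ht hT.le (famP_deg _ _ _) (famP_coeff_zero _ _ _).symm ?_⟩
  rw [fam_der ht]
  conv_lhs => rw [← C_leadingCoeff_mul_prod_multiset_X_sub_C (h3.trans h2.symm)]
  rw [leadingCoeff, h2, h1]
  congr 1
  conv_lhs => rw [← Multiset.coe_toList (derivative T).roots, Multiset.map_coe, Multiset.prod_coe]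
  simp only [Option.elim_some]
  generalize (derivative T).roots.toList = l at h4
  subst h4
  rw [← List.prod_ofFn]
  conv_lhs => rw [← List.ofFn_get l, List.map_ofFn]
  rfl

theorem escape (hg : GrowStmt K) {n : ℕ} {f : K[X]} {α : K} {c : Fin n → K} {ρ : ℝ}
    (h : Setup n f α c ρ) {x : K} {m : ℕ} (hx : ρ < ‖(fun z => f.eval z)^[m] x‖) :
    Filter.Tendsto (fun k : ℕ => ‖(fun z => f.eval z)^[k] x‖) Filter.atTop Filter.atTop := by
  have hρ := h.rho_pos
  have H : ∀ k : ℕ, ρ * 2 ^ k < ‖(fun z => f.eval z)^[k + m] x‖ := fun k => by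
    induction k with
    | zero => simpa using hx
    | succ k ih =>
      rw [Nat.add_right_comm, Function.iterate_succ_apply']
      set y := (fun z => f.eval z)^[k + m] x
      have h1 : ρ < ‖y‖ := lt_of_le_of_lt (le_mul_of_one_le_right hρ.le (one_le_pow₀ one_le_two)) ih
      have h2 : 2 ≤ ‖α‖ * ‖y‖ ^ n := h.big.trans (by gcongr)
      show _ < ‖f.eval y‖
      rw [hg n f α c ρ h y h1, pow_succ ‖y‖, ← mul_assoc, pow_succ]
      nlinarith
  rw [← Filter.tendsto_add_atTop_iff_nat m]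
  exact Filter.tendsto_atTop_mono (fun k => (H k).le)
    ((tendsto_pow_atTop_atTop_of_one_lt one_lt_two).const_mul_atTop hρ)

variable [IsUltrametricDist K] [IsAlgClosed K]

/-- near every parameter there is a whole ball of parameters at which each critical point escapes
or has its critical value in a disc whose iterates stay in `D(0, 2ρ)` -/
theorem main_ball (hc : CoreStmt K) {n : ℕ} (hn : 1 ≤ n)
    (ht : ∀ j : ℕ, 1 ≤ j → j ≤ n + 1 → ‖(j : K)‖ = 1) {α : K} {q : Option (Fin n) → K} {ρ : ℝ}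
    (hρ : 1 ≤ ρ) (hq : ∀ τ, ‖q τ‖ ≤ ρ) (hb : 2 ≤ ‖α‖ * ρ ^ n) {δ : ℝ} (hδ : 0 < δ) :
    ∃ (q1 : Option (Fin n) → K) (η : ℝ), 0 < η ∧ ∀ q', dist q' q1 < η → dist q' q < δ ∧
      (∀ τ, ‖q' τ‖ ≤ ρ) ∧ ∀ i,
      (∃ m, 2 * ρ < ‖(itp (fam α q') m).eval ((fam α q').eval (q' (some i)))‖) ∨
      ∃ s : ℝ, 0 < s ∧ ∀ m z, ‖z - (fam α q').eval (q' (some i))‖ ≤ s →
        ‖(itp (fam α q') m).eval z‖ ≤ 2 * ρ := by
  classical
  let E : (Option (Fin n) → K) → Finset (Fin n) := fun q' => Finset.univ.filter fun i =>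
    ∃ m, 2 * ρ < ‖(itp (fam α q') m).eval ((fam α q').eval (q' (some i)))‖
  have hδ' : 0 < min δ 1 := lt_min hδ one_pos
  obtain ⟨q1, hq1, hmax⟩ := Set.Finite.exists_maximalFor' (fun q' => (E q').card)
    (Metric.ball q (min δ 1)) ((Set.finite_Iic n).subset (by
      rintro _ ⟨q', -, rfl⟩
      simpa using Finset.card_le_univ (E q'))) ⟨q, Metric.mem_ball_self hδ'⟩
  have hev : ∀ᶠ q' in nhds q1, q' ∈ Metric.ball q (min δ 1) ∧ ∀ i ∈ E q1, i ∈ E q' := by
    refine Filter.Eventually.and (Metric.isOpen_ball.mem_nhds hq1) ?_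
    refine (Filter.eventually_all_finset _).2 fun i hi => ?_
    obtain ⟨m, hm⟩ := (Finset.mem_filter.1 hi).2
    filter_upwards [(((fam_cont α).2 i m).norm.tendsto q1).eventually (lt_mem_nhds hm)] with q' h
    exact Finset.mem_filter.2 ⟨Finset.mem_univ _, m, h⟩
  obtain ⟨η, hη, hB⟩ := Metric.eventually_nhds_iff.1 hev
  obtain ⟨r, hr0, hr⟩ := NormedField.exists_norm_lt K (lt_min hη one_pos)
  have hle : ∀ q' ∈ Metric.ball q (min δ 1), ∀ τ, ‖q' τ‖ ≤ ρ := fun q' h τ => by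
    have h1 : ‖q' τ - q τ‖ ≤ 1 := by
      rw [← dist_eq_norm]
      exact (dist_le_pi_dist q' q τ).trans ((Metric.mem_ball.1 h).le.trans (min_le_right _ _))
    have := IsUltrametricDist.norm_add_le_max (q' τ - q τ) (q τ)
    rw [sub_add_cancel] at this
    exact this.trans (max_le (h1.trans hρ) (hq τ))
  have hin : ∀ μ : Option (Fin n) → K, (∀ τ, ‖μ τ‖ ≤ 1) → dist (q1 + r • μ) q1 < η := fun μ hμ => by
    rw [dist_eq_norm, add_sub_cancel_left, norm_smul]
    exact (mul_le_of_le_one_right hr0.le ((pi_norm_le_iff_of_nonneg zero_le_one).2 hμ)).trans_lt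
      (hr.trans_le (min_le_left _ _))
  refine ⟨q1, ‖r‖, hr0, fun q' hq' => ?_⟩
  have hr1 : r ≠ 0 := norm_pos_iff.1 hr0
  have h1 := hB (hq'.trans (hr.trans_le (min_le_left _ _)))
  refine ⟨(Metric.mem_ball.1 h1.1).trans_le (min_le_left _ _), hle q' h1.1, fun i => ?_⟩
  by_cases hi : i ∈ E q1
  · exact Or.inl (Finset.mem_filter.1 (h1.2 i hi)).2
  obtain ⟨s, hs, H⟩ := ball_bound hc hn ht hρ hr1 (hr.le.trans (min_le_right _ _)) (hle q1 hq1) hb i
    fun μ hμ m => by
      by_contra h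
      have h2 := hB (hin μ hμ)
      have h3 : (E q1).card < (E (q1 + r • μ)).card :=
        Finset.card_lt_card ⟨h2.2, fun h4 => hi (h4 (Finset.mem_filter.2
          ⟨Finset.mem_univ _, m, not_le.1 h⟩))⟩
      exact (hmax h2.1 h3.le).not_gt h3
  have e : q1 + r • (r⁻¹ • (q' - q1)) = q' := by
    rw [smul_smul, mul_inv_cancel₀ hr1, one_smul, add_sub_cancel]
  refine Or.inr ⟨s, hs, fun m z => ?_⟩
  have := H (r⁻¹ • (q' - q1)) (fun τ => by
    rw [Pi.smul_apply, norm_smul, norm_inv, inv_mul_le_iff₀ hr0, mul_one]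
    exact (norm_le_pi_norm _ τ).trans (by rw [← dist_eq_norm]; exact hq'.le)) m z
  rwa [e] at this

omit [IsUltrametricDist K] [IsAlgClosed K] in
theorem exists_rho {n : ℕ} (hn : 1 ≤ n) {α : K} (hα : α ≠ 0) (q : Option (Fin n) → K) :
    ∃ ρ : ℝ, 1 ≤ ρ ∧ (∀ τ, ‖q τ‖ ≤ ρ) ∧ 2 ≤ ‖α‖ * ρ ^ n := by
  have h0 : 0 < ‖α‖ := norm_pos_iff.2 hα
  refine ⟨max (max 1 ‖q‖) (2 / ‖α‖), le_max_of_le_left (le_max_left _ _),
    fun τ => le_max_of_le_left (le_max_of_le_right (norm_le_pi_norm q τ)), ?_⟩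
  rw [← div_le_iff₀' h0]
  exact (le_max_right _ _).trans (le_self_pow₀ (le_max_of_le_left (le_max_left _ _)) (by omega))

omit [IsUltrametricDist K] [IsAlgClosed K] in
theorem coeff_close {n : ℕ} (α : K) (q : Option (Fin n) → K) {ε : ℝ} (hε : 0 < ε) :
    ∃ δ : ℝ, 0 < δ ∧ ∀ q', dist q' q < δ → ∀ k, ‖(fam α q').coeff k - (fam α q).coeff k‖ < ε := by
  have hev : ∀ᶠ q' in nhds q, ∀ k ∈ Finset.range (n + 2),
      dist ((fam α q').coeff k) ((fam α q).coeff k) < ε :=
    (Filter.eventually_all_finset _).2 fun k _ =>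
      Metric.tendsto_nhds.1 (((fam_cont α).1 k).tendsto q) ε hε
  obtain ⟨δ, hδ, H⟩ := Metric.eventually_nhds_iff.1 hev
  refine ⟨δ, hδ, fun q' h k => ?_⟩
  by_cases hk : k < n + 2
  · rw [← dist_eq_norm]; exact H h k (Finset.mem_range.2 hk)
  · have h1 : ∀ p : Option (Fin n) → K, (fam α p).coeff k = 0 := fun p =>
      coeff_eq_zero_of_natDegree_lt ((famP_deg _ _ _).trans_lt (by omega))
    simpa [h1] using hε

omit [IsUltrametricDist K] [IsAlgClosed K] in
theorem crit_eq {n : ℕ} (ht : ∀ j : ℕ, 1 ≤ j → j ≤ n + 1 → (j : K) ≠ 0) {α : K} (hα : α ≠ 0)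
    {q : Option (Fin n) → K} {c : K} (h : (derivative (fam α q)).eval c = 0) :
    ∃ i, c = q (some i) := by
  rw [fam_der ht, eval_mul, eval_C, eval_prod, mul_eq_zero, Finset.prod_eq_zero_iff] at h
  obtain h | ⟨i, -, h⟩ := h
  · exact absurd h (mul_ne_zero (ht _ (by omega) le_rfl) hα)
  · exact ⟨i, by simpa [sub_eq_zero] using h⟩

theorem main_of_core (hc : CoreStmt K) (hg : GrowStmt K) : MainStmt K := by
  intro T hT ht ε hε
  obtain ⟨n, hn⟩ : ∃ n, T.natDegree = n + 1 := ⟨T.natDegree - 1, by omega⟩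
  rw [hn] at ht hT
  have hn1 : 1 ≤ n := by omega
  have hα : T.leadingCoeff ≠ 0 := leadingCoeff_ne_zero.2 (by rintro rfl; simp at hn)
  obtain ⟨q, hq⟩ := exists_fam (tame_ne ht) hn
  generalize T.leadingCoeff = α at hα hq
  subst hq
  obtain ⟨ρ, hρ, hqρ, hb⟩ := exists_rho hn1 hα q
  obtain ⟨δ, hδ, hcl⟩ := coeff_close α q hε
  obtain ⟨q1, η, hη, H⟩ := main_ball hc hn1 ht hρ hqρ hb hδ
  obtain ⟨h1, h2, h3⟩ := H q1 (by rwa [dist_self])
  refine ⟨fam α q1, by rw [hn, fam_natDegree hn1 (tame_ne ht) hα], hcl q1 h1, fun c h => ?_⟩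
  obtain ⟨i, rfl⟩ := crit_eq (tame_ne ht) hα h
  rcases h3 i with ⟨m, hm⟩ | ⟨s, hs, H1⟩
  · refine Or.inl (escape hg (fam_setup hn1 ht (by linarith) h2 hb) (m := m + 1) ?_)
    rw [itp_eval] at hm
    rw [Function.iterate_succ_apply]
    linarith
  · obtain ⟨r, hr, H2⟩ := Metric.continuous_iff.1 (fam α q1).continuous (q1 (some i)) s hs
    refine Or.inr ⟨r / 2, by linarith, max (‖q1 (some i)‖ + r) (2 * ρ), fun z hz k => ?_⟩
    rcases k with _ | k
    · refine le_max_of_le_left ?_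
      have := norm_sub_norm_le z (q1 (some i))
      simp only [Function.iterate_zero, id_eq]
      linarith
    · rw [Function.iterate_succ_apply, ← itp_eval]
      refine le_max_of_le_right (H1 k _ ?_)
      rw [← dist_eq_norm]
      exact (H2 z (by rw [dist_eq_norm]; linarith)).le

end Pool.Agent.MP_28f8a1_an.H19
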