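import Pool.Agent.MP_28f8a1_an.H19N.G

/-! h19n: simple critical points depend continuously on the coefficients. -/

open Polynomial

namespace Pool.Agent.MP_28f8a1_an.H19

variable {K : Type*} [NontriviallyNormedField K] [IsUltrametricDist K] [IsAlgClosed K]

theorem op_root {P Q : K[X]} {x : K} {t : ℝ} (ht : 0 < t) (h0 : P.eval x = 0)
    (h : gp x t (Q - P) < gp x t P) : ∃ b, ‖b - x‖ ≤ t ∧ Q.eval b = 0 := by
  by_contra h1
  push Not at h1
  have hx : ‖x - x‖ ≤ t := by rw [sub_self, norm_zero]; exact ht.le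
  have h2 := gp_eq_eval ht hx h1
  have h3 := eval_le_gp ht hx (Q - P)
  rw [eval_sub, h0, sub_zero, ← h2] at h3
  have h4 := gp_add x ht.le Q (C (-1) * (Q - P))
  rw [gp_mul x ht, gp_C, norm_neg, norm_one, one_mul,
    show Q + C (-1) * (Q - P) = P by simp] at h4
  exact (h4.trans_lt (max_lt (h3.trans_lt h) h)).false

theorem op_small {D : K[X]} {n : ℕ} (hn : D.natDegree ≤ n + 1) {δ R t : ℝ} {x : K}
    (hD : ∀ k, ‖D.coeff k‖ ≤ δ) (hR : 1 ≤ R) (hx : ‖x‖ ≤ R) (ht : 0 ≤ t) (htR : t ≤ R) :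
    gp x t (derivative D) ≤ δ * R ^ n := by
  have hδ : 0 ≤ δ := (norm_nonneg _).trans (hD 0)
  refine (gp_mono x ht htR _).trans ?_
  rw [gp_centre (y := 0) (by linarith) (by rwa [sub_zero])]
  refine gp_le fun i => ?_
  rw [taylor_zero, coeff_derivative]
  by_cases hi : i ≤ n
  · rw [norm_mul]
    have h1 : ‖(i : K) + 1‖ ≤ 1 := by exact_mod_cast IsUltrametricDist.norm_natCast_le_one K (i + 1)
    calc _ ≤ δ * 1 * R ^ n := by gcongr; exact hD _
      _ = _ := by rw [mul_one]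
  · rw [coeff_eq_zero_of_natDegree_lt (by omega), zero_mul, norm_zero, zero_mul]
    positivity

theorem crit_near {n : ℕ} {S : K[X]} {α : K} {c : Fin n → K} (hS : S.natDegree ≤ n + 1)
    (hd : derivative S = C (((n + 1 : ℕ) : K) * α) * ∏ i, (X - C (c i)))
    (hc : Function.Injective c) (hα : α ≠ 0) (hn : ‖((n + 1 : ℕ) : K)‖ = 1) {η : ℝ} (hη : 0 < η) :
    ∃ δ : ℝ, 0 < δ ∧ ∀ S' : K[X], S'.natDegree ≤ n + 1 → (∀ k, ‖S'.coeff k - S.coeff k‖ < δ) →
      ∃ (α' : K) (c' : Fin n → K),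
        derivative S' = C (((n + 1 : ℕ) : K) * α') * ∏ i, (X - C (c' i)) ∧ ‖α' - α‖ < η ∧
          (∀ i, ‖c' i - c i‖ < η) ∧ ‖S'.eval 0 - S.eval 0‖ < η := by
  have hn0 : ((n + 1 : ℕ) : K) ≠ 0 := norm_ne_zero_iff.1 (by rw [hn]; exact one_ne_zero)
  have hm : ∀ c : Fin n → K, (∏ i, (X - C (c i))).Monic := fun c =>
    monic_prod_of_monic Finset.univ _ fun i _ => monic_X_sub_C (c i)
  have hdeg : ∀ c : Fin n → K, (∏ i, (X - C (c i))).natDegree = n := fun c => by
    rw [natDegree_finsetProd_X_sub_C_eq_card, Finset.card_univ, Fintype.card_fin]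
  have hP : derivative S ≠ 0 := hd ▸ mul_ne_zero (C_ne_zero.2 (mul_ne_zero hn0 hα)) (hm c).ne_zero
  obtain ⟨t, t0, t1, t2, t3⟩ : ∃ t : ℝ, 0 < t ∧ t < η ∧ t ≤ 1 ∧
      ∀ p : Fin n × Fin n, p.1 ≠ p.2 → t < ‖c p.1 - c p.2‖ := by
    have h1 : ∀ᶠ t in nhdsWithin (0 : ℝ) (Set.Ioi 0), 0 < t ∧ t < η ∧ t ≤ 1 ∧
        ∀ p : Fin n × Fin n, p.1 ≠ p.2 → t < ‖c p.1 - c p.2‖ := by
      refine Filter.Eventually.and self_mem_nhdsWithin (Filter.Eventually.filter_mono nhdsWithin_le_nhds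
        ((eventually_lt_nhds hη).and ((eventually_le_nhds one_pos).and
          (Filter.eventually_all.2 fun p => ?_))))
      by_cases hp : p.1 = p.2
      · exact .of_forall fun _ h => (h hp).elim
      · exact (eventually_lt_nhds (norm_pos_iff.2 (sub_ne_zero.2 (hc.ne hp)))).mono fun _ h _ => h
    exact h1.exists
  obtain ⟨R, R1, R2⟩ : ∃ R : ℝ, 1 ≤ R ∧ ∀ i, ‖c i‖ ≤ R :=
    ⟨1 + ∑ i, ‖c i‖, le_add_of_nonneg_right (by positivity), fun i => le_add_of_nonneg_of_le one_pos.le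
      (Finset.single_le_sum (f := fun i => ‖c i‖) (fun _ _ => norm_nonneg _) (Finset.mem_univ i))⟩
  obtain ⟨δ, d0, d1, d2⟩ : ∃ δ : ℝ, 0 < δ ∧ δ < η ∧ ∀ i, δ * R ^ n < gp (c i) t (derivative S) := by
    have h1 : ∀ᶠ δ in nhdsWithin (0 : ℝ) (Set.Ioi 0), 0 < δ ∧ δ < η ∧
        ∀ i, δ * R ^ n < gp (c i) t (derivative S) := by
      refine Filter.Eventually.and self_mem_nhdsWithin (Filter.Eventually.filter_mono nhdsWithin_le_nhds
        ((eventually_lt_nhds hη).and (Filter.eventually_all.2 fun i => ?_)))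
      have h2 : ContinuousAt (fun δ : ℝ => δ * R ^ n) 0 := by fun_prop
      exact h2.eventually_lt continuousAt_const (by simpa using gp_pos (c i) t0 hP)
    exact h1.exists
  refine ⟨δ, d0, fun S' h1 h2 => ?_⟩
  have h3 : ∀ i, ∃ b, ‖b - c i‖ ≤ t ∧ (derivative S').eval b = 0 := fun i =>
    op_root (P := derivative S) t0 (by
      rw [hd, eval_mul, eval_prod, Finset.prod_eq_zero (Finset.mem_univ i) (by simp), mul_zero]) (by
      rw [← derivative_sub]
      exact (op_small ((natDegree_sub_le _ _).trans (max_le h1 hS))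
        (fun k => by rw [coeff_sub]; exact (h2 k).le) R1 (R2 i) t0.le (t2.trans R1)).trans_lt (d2 i))
  choose c' c1 c2 using h3
  have hc' : Function.Injective c' := fun i j hij => by
    by_contra h4
    have h5 := IsUltrametricDist.norm_add_le_max (c i - c' i) (c' j - c j)
    rw [hij, sub_add_sub_cancel, norm_sub_rev (c i) (c' j), ← hij] at h5
    exact (t3 (i, j) h4).not_ge (h5.trans (max_le (c1 i) (hij ▸ c1 j)))
  have key : ∀ (T : K[X]) (a : K) (e : Fin n → K),
      derivative T = C (((n + 1 : ℕ) : K) * a) * ∏ i, (X - C (e i)) → T.coeff (n + 1) = a :=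
    fun T a e h => by
      have h4 := congrArg (coeff · n) h
      have h5 := (hm e).coeff_natDegree
      rw [hdeg] at h5
      simp only [coeff_derivative, coeff_C_mul, h5, mul_one] at h4
      refine mul_left_cancel₀ hn0 ?_
      rw [← h4]; push_cast; ring
  obtain ⟨g, hg⟩ : ∏ i, (X - C (c' i)) ∣ derivative S' :=
    Finset.prod_dvd_of_coprime (fun i _ j _ hij => isCoprime_X_sub_C_of_isUnit_sub
      (sub_ne_zero.2 (hc'.ne hij)).isUnit) fun i _ => dvd_iff_isRoot.2 (c2 i)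
  have hg0 : g.natDegree = 0 := by
    by_cases h0 : g = 0
    · rw [h0, natDegree_zero]
    · have h4 := natDegree_derivative_le S'
      rw [hg, (hm c').natDegree_mul' h0, hdeg] at h4
      omega
  have h6 : derivative S' = C (((n + 1 : ℕ) : K) * (g.coeff 0 / ((n + 1 : ℕ) : K))) *
      ∏ i, (X - C (c' i)) := by
    rw [mul_div_cancel₀ _ hn0, ← eq_C_of_natDegree_eq_zero hg0, hg, mul_comm]
  refine ⟨_, c', h6, ?_, fun i => (c1 i).trans_lt t1, ?_⟩
  · rw [← key _ _ _ h6, ← key _ _ _ hd]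
    exact (h2 _).trans d1
  · rw [← coeff_zero_eq_eval_zero, ← coeff_zero_eq_eval_zero]
    exact (h2 _).trans d1

/-- the point escapes or has a disc on which all iterates are bounded -/
def Good (S : K[X]) (c : K) : Prop :=
  Filter.Tendsto (fun n : ℕ => ‖(fun z => S.eval z)^[n] c‖) Filter.atTop Filter.atTop ∨
    ∃ r : ℝ, 0 < r ∧ ∃ B : ℝ, ∀ z : K, ‖z - c‖ ≤ r → ∀ n : ℕ, ‖(fun z => S.eval z)^[n] z‖ ≤ B

/-- a ball of good parameters near every parameter -/
def BallStmt (K : Type*) [NontriviallyNormedField K] : Prop :=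
  ∀ n : ℕ, 1 ≤ n → (∀ j : ℕ, 1 ≤ j → j ≤ n + 1 → ‖(j : K)‖ = 1) →
    ∀ (α0 : K) (c0 : Fin n → K) (a0 : K) (ε : ℝ), α0 ≠ 0 → 0 < ε →
      ∃ (α1 : K) (c1 : Fin n → K) (a1 : K) (r : ℝ), 0 < r ∧ ‖α1 - α0‖ < ε ∧
        (∀ i, ‖c1 i - c0 i‖ < ε) ∧ ‖a1 - a0‖ < ε ∧
        ∀ (f : K[X]) (α : K) (c : Fin n → K), f.natDegree ≤ n + 1 →
          derivative f = C (((n + 1 : ℕ) : K) * α) * ∏ i, (X - C (c i)) → ‖α - α1‖ ≤ r →
          (∀ i, ‖c i - c1 i‖ ≤ r) → ‖f.eval 0 - a1‖ ≤ r → ∀ i, Good f (c i)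

/-- the final statement, open and dense form -/
def OpenStmt (K : Type*) [NontriviallyNormedField K] : Prop :=
  ∀ T : K[X], 2 ≤ T.natDegree → (∀ j : ℕ, 1 ≤ j → j ≤ T.natDegree → ‖(j : K)‖ = 1) →
    ∀ ε : ℝ, 0 < ε → ∃ S : K[X], ∃ δ : ℝ, 0 < δ ∧ S.natDegree = T.natDegree ∧
      (∀ k, ‖S.coeff k - T.coeff k‖ < ε) ∧
      ∀ S' : K[X], S'.natDegree = T.natDegree → (∀ k, ‖S'.coeff k - S.coeff k‖ < δ) →
        ∀ c : K, (derivative S').eval c = 0 →
          (Filter.Tendsto (fun n : ℕ => ‖(fun z => S'.eval z)^[n] c‖) Filter.atTop Filter.atTop ∨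
            ∃ r : ℝ, 0 < r ∧ ∃ B : ℝ, ∀ z : K, ‖z - c‖ ≤ r → ∀ n : ℕ,
              ‖(fun z => S'.eval z)^[n] z‖ ≤ B)

omit [IsUltrametricDist K] [IsAlgClosed K] in
theorem op_prim {n : ℕ} (ht : ∀ j : ℕ, 1 ≤ j → j ≤ n + 1 → ‖(j : K)‖ = 1) {P : K[X]}
    (hP : P.natDegree ≤ n) (a : K) :
    ∃ S : K[X], S.natDegree ≤ n + 1 ∧ derivative S = P ∧ S.eval 0 = a := by
  refine ⟨C a + ∑ k ∈ Finset.range (n + 1), monomial (k + 1) (P.coeff k / ((k + 1 : ℕ) : K)),
    (natDegree_add_le _ _).trans (max_le (by simp) (natDegree_sum_le_of_forall_le _ _ fun k hk =>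
      (natDegree_monomial_le _).trans (Finset.mem_range.1 hk))), ?_, by simp [eval_finsetSum]⟩
  rw [derivative_add, derivative_C, zero_add, derivative_sum]
  conv_rhs => rw [P.as_sum_range' (n + 1) (Nat.lt_succ_of_le hP)]
  refine Finset.sum_congr rfl fun k hk => ?_
  rw [derivative_monomial, Nat.add_sub_cancel, div_mul_cancel₀ _ (norm_ne_zero_iff.1 (by
    rw [ht _ k.succ_pos (Finset.mem_range.1 hk)]; exact one_ne_zero))]

omit [IsUltrametricDist K] [IsAlgClosed K] in
theorem op_cont {n : ℕ} (S : Finset (Fin n)) (k : ℕ) :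
    Continuous fun c : Fin n → K => (∏ i ∈ S, (X - C (c i))).coeff k := by
  induction S using Finset.induction_on generalizing k with
  | empty => simpa using continuous_const
  | insert a S ha ih =>
    simp only [Finset.prod_insert ha, sub_mul, coeff_sub, coeff_C_mul]
    refine Continuous.sub ?_ ((continuous_apply a).mul (ih k))
    rcases k with _ | k
    · simpa using continuous_const
    · simpa only [coeff_X_mul] using ih k

omit [IsAlgClosed K] [IsUltrametricDist K] in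
theorem op_inj {n : ℕ} (c : Fin n → K) {r : ℝ} (hr : 0 < r) :
    ∃ e : Fin n → K, Function.Injective e ∧ ∀ i, ‖e i - c i‖ < r := by
  classical
  have h1 : ∀ i, (Metric.ball (c i) r).Infinite := fun i =>
    infinite_of_mem_nhds _ (Metric.ball_mem_nhds _ hr)
  obtain ⟨e, h2, h3⟩ := (Finset.all_card_le_biUnion_card_iff_exists_injective
    fun i => ((h1 i).exists_subset_card_eq n).choose).1 fun S => by
      rcases S.eq_empty_or_nonempty with rfl | ⟨i, hi⟩
      · simp
      · refine le_trans ?_ (Finset.card_le_card (Finset.subset_biUnion_of_mem _ hi))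
        rw [((h1 i).exists_subset_card_eq n).choose_spec.2]
        simpa using S.card_le_univ
  exact ⟨e, h2, fun i => mem_ball_iff_norm.1 (((h1 i).exists_subset_card_eq n).choose_spec.1 (h3 i))⟩

theorem open_of_ball (hB : BallStmt K) : OpenStmt K := by
  intro T hT ht ε hε
  obtain ⟨n, hn⟩ : ∃ n, T.natDegree = n + 1 := ⟨T.natDegree - 1, by omega⟩
  rw [hn] at ht hT ⊢
  have hn1 := ht _ n.succ_pos le_rfl
  have hn0 : ((n + 1 : ℕ) : K) ≠ 0 := norm_ne_zero_iff.1 (by rw [hn1]; exact one_ne_zero)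
  have hα : T.coeff (n + 1) ≠ 0 := by
    rw [← hn, coeff_natDegree, leadingCoeff_ne_zero]
    rintro rfl
    simp at hn
  have hl : (derivative T).coeff n = ((n + 1 : ℕ) : K) * T.coeff (n + 1) := by
    rw [coeff_derivative]; push_cast; ring
  have hd : (derivative T).natDegree = n :=
    ((natDegree_derivative_le T).trans (by omega)).antisymm
      (le_natDegree_of_ne_zero (hl ▸ mul_ne_zero hn0 hα))
  obtain ⟨c0, hc0⟩ : ∃ c0 : Fin n → K, derivative T =
      C (((n + 1 : ℕ) : K) * T.coeff (n + 1)) * ∏ i, (X - C (c0 i)) := by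
    have h1 := (IsAlgClosed.splits (derivative T)).eq_prod_roots
    have h2 := (IsAlgClosed.splits (derivative T)).natDegree_eq_card_roots
    obtain ⟨l, hl'⟩ := Quotient.exists_rep (derivative T).roots
    have h3 : l.length = n := by rw [← hd, h2, ← hl']; rfl
    subst h3
    refine ⟨l.get, ?_⟩
    rw [h1, ← hl', leadingCoeff, hd, hl, Multiset.quot_mk_to_coe, Multiset.map_coe,
      Multiset.prod_coe, ← List.prod_ofFn]
    congr 2
    conv_lhs => rw [← List.ofFn_get l, List.map_ofFn]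
    rfl
  have hev : ∀ᶠ p : K × (Fin n → K) in nhds (T.coeff (n + 1), c0), p.1 ≠ 0 ∧
      ∀ k : Fin (n + 1), ‖(C (((n + 1 : ℕ) : K) * p.1) * ∏ i, (X - C (p.2 i))).coeff k -
        (derivative T).coeff k‖ < ε := by
    refine (continuous_fst.continuousAt.eventually_ne hα).and (Filter.eventually_all.2 fun k => ?_)
    refine ContinuousAt.eventually_lt (Continuous.continuousAt ?_) continuousAt_const
      (by rw [← hc0, sub_self, norm_zero]; exact hε)
    simp only [coeff_C_mul]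
    have h1 : Continuous fun p : K × (Fin n → K) => (∏ i, (X - C (p.2 i))).coeff k :=
      (op_cont Finset.univ k).comp continuous_snd
    fun_prop
  obtain ⟨η, η0, hη⟩ := Metric.eventually_nhds_iff.1 hev
  obtain ⟨α1, c1, a1, r, r0, b1, b2, b3, hg⟩ := hB n (by omega) ht _ c0 (T.eval 0) (min η ε) hα
    (lt_min η0 hε)
  obtain ⟨e, he, he'⟩ := op_inj c1 (lt_min r0 η0)
  obtain ⟨h1, h2⟩ := hη (y := (α1, e)) (by
    rw [Prod.dist_eq, max_lt_iff, dist_pi_lt_iff η0, dist_eq_norm]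
    refine ⟨b1.trans_le (min_le_left _ _), fun i => ?_⟩
    have := IsUltrametricDist.norm_add_le_max (e i - c1 i) (c1 i - c0 i)
    rw [sub_add_sub_cancel] at this
    rw [dist_eq_norm]
    exact this.trans_lt (max_lt ((he' i).trans_le (min_le_right _ _))
      ((b2 i).trans_le (min_le_left _ _))))
  have hm : ∀ c : Fin n → K, (∏ i, (X - C (c i))).Monic := fun c =>
    monic_prod_of_monic Finset.univ _ fun i _ => monic_X_sub_C (c i)
  have hP : (C (((n + 1 : ℕ) : K) * α1) * ∏ i, (X - C (e i))).natDegree = n := by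
    rw [natDegree_C_mul (mul_ne_zero hn0 h1), natDegree_finsetProd_X_sub_C_eq_card,
      Finset.card_univ, Fintype.card_fin]
  obtain ⟨S, s1, s2, s3⟩ := op_prim ht hP.le a1
  obtain ⟨δ, d0, hδ⟩ := crit_near s1 s2 he h1 hn1 (lt_min r0 (norm_pos_iff.2 h1))
  refine ⟨S, δ, d0, s1.antisymm ?_, fun k => ?_, fun S' h3 h4 x hx => ?_⟩
  · have := natDegree_derivative_lt (p := S) fun h0 => by
      rw [eq_C_of_natDegree_eq_zero h0, derivative_C] at s2
      rw [← s2, natDegree_zero] at hP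
      omega
    rw [s2, hP] at this
    exact this
  · rcases k with _ | k
    · rw [coeff_zero_eq_eval_zero, coeff_zero_eq_eval_zero, s3]
      exact b3.trans_le (min_le_right _ _)
    · by_cases hk : k < n + 1
      · have h5 := h2 ⟨k, hk⟩
        rw [← s2, coeff_derivative, coeff_derivative, ← sub_mul, norm_mul] at h5
        have h6 := ht (k + 1) k.succ_pos hk
        push_cast at h6
        rwa [h6, mul_one] at h5
      · rw [coeff_eq_zero_of_natDegree_lt (by omega), coeff_eq_zero_of_natDegree_lt (by omega),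
          sub_self, norm_zero]
        exact hε
  · obtain ⟨α, c, k1, k2, k3, k4⟩ := hδ S' h3.le h4
    have h5 : α ≠ 0 := by
      rintro rfl
      rw [zero_sub, norm_neg] at k2
      exact (k2.trans_le (min_le_right _ _)).false
    rw [k1, eval_mul, eval_C, eval_prod, mul_eq_zero, Finset.prod_eq_zero_iff] at hx
    obtain ⟨i, -, hi⟩ := hx.resolve_left (mul_ne_zero hn0 h5)
    rw [eval_sub, eval_X, eval_C, sub_eq_zero] at hi
    refine hi ▸ hg S' α c h3.le k1 (k2.le.trans (min_le_left _ _)) (fun j => ?_)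
      (s3 ▸ k4.le.trans (min_le_left _ _)) i
    have := IsUltrametricDist.norm_add_le_max (c j - e j) (e j - c1 j)
    rw [sub_add_sub_cancel] at this
    exact this.trans (max_le ((k3 j).le.trans (min_le_left _ _)) ((he' j).le.trans (min_le_left _ _)))

end Pool.Agent.MP_28f8a1_an.H19
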