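import Pool.Agent.MP_28f8a1_an.H19N.Final
import Pool.Agent.MP_28f8a1_an.H19N.Open

/-! h19n: a ball of good parameters, with the leading coefficient free. -/

open Polynomial

namespace Pool.Agent.MP_28f8a1_an.H19

variable {K : Type*} [NontriviallyNormedField K]

theorem ob_cont {n : ℕ} (ht : ∀ j : ℕ, 1 ≤ j → j ≤ n + 1 → (j : K) ≠ 0) {Y : Type*}
    [TopologicalSpace Y] {α : Y → K} {q : Y → Option (Fin n) → K} {z : Y → K} (hα : Continuous α)
    (hq : Continuous q) (hz : Continuous z) (m : ℕ) :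
    Continuous fun y => (fun x => (fam (α y) (q y)).eval x)^[m] (z y) := by
  induction m with
  | zero => exact hz
  | succ m ih =>
    have h1 : ∀ (a : K) (p : Option (Fin n) → K) (x : K), (fam a p).eval x = p none +
        a * (∑ k ∈ Finset.range (n + 2), (fam 1 p).coeff k * x ^ k - p none) := fun a p x => by
      have h0 : (fam 1 p).natDegree ≤ n + 1 := famP_deg _ _ _
      have h2 : fam a p = C (p none) + C a * (fam 1 p - C (p none)) :=
        eq_of_der ht (famP_deg _ _ _) ((natDegree_add_le _ _).trans (max_le (by simp)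
          ((natDegree_C_mul_le _ _).trans ((natDegree_sub_le _ _).trans (max_le h0 (by simp))))))
          (by simp [coeff_zero_eq_eval_zero, fam_zero]) (by
            rw [derivative_add, derivative_C, zero_add, derivative_C_mul, derivative_sub,
              derivative_C, sub_zero, fam_der ht, fam_der ht, ← mul_assoc, ← C_mul, mul_one,
              mul_comm a])
      rw [h2, ← eval_eq_sum_range' (Nat.lt_succ_of_le h0)]
      simp
    have h2 : ∀ k, Continuous fun y => (fam 1 (q y)).coeff k := fun k => ((fam_cont 1).1 k).comp hq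
    simp only [Function.iterate_succ_apply']
    simp only [h1 _ _ ((fun x => (fam (α _) (q _)).eval x)^[m] (z _))]
    fun_prop

variable [IsUltrametricDist K] [IsAlgClosed K]

theorem ball_of_core (hc : CoreStmt K) (hg : GrowStmt K) : BallStmt K := by
  classical
  intro n hn ht α0 c0 a0 ε hα hε
  let q0 : Option (Fin n) → K := fun τ => τ.elim a0 c0
  obtain ⟨ρ, hρ, hq, hb⟩ := exists_rho hn hα q0
  let E : K × (Option (Fin n) → K) → Finset (Fin n) := fun p => Finset.univ.filter fun i =>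
    ∃ m, 2 * ρ < ‖(fun x => (fam p.1 p.2).eval x)^[m + 1] (p.2 (some i))‖
  obtain ⟨δ, d0, d1, d2, d3⟩ : ∃ δ : ℝ, 0 < δ ∧ δ ≤ ε ∧ δ ≤ 1 ∧ δ ≤ ‖α0‖ :=
    ⟨min ε (min 1 ‖α0‖), lt_min hε (lt_min one_pos (norm_pos_iff.2 hα)), min_le_left _ _,
      (min_le_right _ _).trans (min_le_left _ _), (min_le_right _ _).trans (min_le_right _ _)⟩
  obtain ⟨p1, hp1, hmax⟩ := Set.Finite.exists_maximalFor' (fun p => (E p).card)
    (Metric.ball (α0, q0) δ) ((Set.finite_Iic n).subset (by
      rintro _ ⟨p, -, rfl⟩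
      simpa using Finset.card_le_univ (E p))) ⟨_, Metric.mem_ball_self d0⟩
  have hev : ∀ᶠ p in nhds p1, p ∈ Metric.ball (α0, q0) δ ∧ ∀ i ∈ E p1, i ∈ E p := by
    refine Filter.Eventually.and (Metric.isOpen_ball.mem_nhds hp1) ?_
    refine (Filter.eventually_all_finset _).2 fun i hi => ?_
    obtain ⟨m, hm⟩ := (Finset.mem_filter.1 hi).2
    filter_upwards [((ob_cont (tame_ne ht) continuous_fst continuous_snd
      ((continuous_apply (some i)).comp continuous_snd) (m + 1)).norm.tendsto p1).eventually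
        (lt_mem_nhds hm)] with p h
    exact Finset.mem_filter.2 ⟨Finset.mem_univ _, m, h⟩
  obtain ⟨η, hη, hB⟩ := Metric.eventually_nhds_iff.1 hev
  have hcl : ∀ p ∈ Metric.ball (α0, q0) δ, ‖p.1 - α0‖ < δ ∧ ∀ τ, ‖p.2 τ - q0 τ‖ < δ := fun p h => by
    rw [Metric.mem_ball, Prod.dist_eq, max_lt_iff, dist_pi_lt_iff d0] at h
    exact ⟨by rw [← dist_eq_norm]; exact h.1, fun τ => by rw [← dist_eq_norm]; exact h.2 τ⟩
  have hle : ∀ p ∈ Metric.ball (α0, q0) δ, (∀ τ, ‖p.2 τ‖ ≤ ρ) ∧ 2 ≤ ‖p.1‖ * ρ ^ n := by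
    intro p h
    refine ⟨fun τ => ?_, ?_⟩
    · have := IsUltrametricDist.norm_add_le_max (p.2 τ - q0 τ) (q0 τ)
      rw [sub_add_cancel] at this
      exact this.trans (max_le (((hcl p h).2 τ).le.trans (d2.trans hρ)) (hq τ))
    · have h1 := (hcl p h).1.trans_le d3
      have := IsUltrametricDist.norm_add_eq_max_of_norm_ne_norm h1.ne
      rw [sub_add_cancel, max_eq_right h1.le] at this
      rwa [this]
  obtain ⟨r, hr0, hr⟩ := NormedField.exists_norm_lt K (lt_min hη one_pos)
  have hr1 := hr.trans_le (min_le_left _ _)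
  refine ⟨p1.1, fun i => p1.2 (some i), p1.2 none, ‖r‖, hr0, (hcl p1 hp1).1.trans_le d1,
    fun i => ((hcl p1 hp1).2 (some i)).trans_le d1, ((hcl p1 hp1).2 none).trans_le d1,
    fun f α c f1 f2 f3 f4 f5 i => ?_⟩
  obtain ⟨q, rfl, rfl, g4⟩ : ∃ q : Option (Fin n) → K, f = fam α q ∧ (c = fun i => q (some i)) ∧
      ∀ τ, ‖q τ - p1.2 τ‖ ≤ ‖r‖ :=
    ⟨fun τ => τ.elim (f.eval 0) c, eq_of_der (tame_ne ht) f1 (famP_deg _ _ _)
      (by rw [coeff_zero_eq_eval_zero, coeff_zero_eq_eval_zero, fam_zero]; rfl)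
      (by rw [f2, fam_der (tame_ne ht)]; rfl), rfl, fun τ => τ.rec f5 f4⟩
  have hin : ∀ μ : Option (Fin n) → K, (∀ τ, ‖μ τ‖ ≤ 1) → dist (α, q + r • μ) p1 < η := fun μ hμ => by
    rw [Prod.dist_eq, max_lt_iff, dist_pi_lt_iff hη, dist_eq_norm]
    refine ⟨f3.trans_lt hr1, fun τ => ?_⟩
    rw [dist_eq_norm]
    change ‖q τ + (r • μ) τ - p1.2 τ‖ < η
    rw [add_sub_right_comm]
    refine (IsUltrametricDist.norm_add_le_max _ _).trans_lt (max_lt ((g4 τ).trans_lt hr1) ?_)
    rw [Pi.smul_apply, norm_smul]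
    exact (mul_le_of_le_one_right hr0.le (hμ τ)).trans_lt hr1
  have h1 := hB (hin 0 fun _ => by simp)
  rw [smul_zero, add_zero] at h1
  obtain ⟨h2, h3⟩ := hle _ h1.1
  by_cases hi : i ∈ E p1
  · obtain ⟨m, hm⟩ := (Finset.mem_filter.1 (h1.2 i hi)).2
    exact Or.inl (escape hg (fam_setup hn ht (by linarith) h2 h3) (m := m + 1)
      (lt_trans (by linarith) hm))
  obtain ⟨s, hs, H⟩ := ball_bound hc hn ht hρ (norm_pos_iff.1 hr0) (hr.le.trans (min_le_right _ _))
    h2 h3 i fun μ hμ m => by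
      by_contra h
      have h4 := hB (hin μ hμ)
      have h5 : (E p1).card < (E (α, q + r • μ)).card :=
        Finset.card_lt_card ⟨h4.2, fun h6 => hi (h6 (Finset.mem_filter.2
          ⟨Finset.mem_univ _, m, by rw [itp_eval] at h; exact not_le.1 h⟩))⟩
      exact (hmax h4.1 h5.le).not_gt h5
  have H1 := H 0 fun _ => by simp
  rw [smul_zero, add_zero] at H1
  obtain ⟨t, t0, H2⟩ := Metric.continuous_iff.1 (fam α q).continuous (q (some i)) s hs
  refine Or.inr ⟨t / 2, by linarith, max (‖q (some i)‖ + t) (2 * ρ), fun z hz k => ?_⟩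
  rcases k with _ | k
  · refine le_max_of_le_left ?_
    have := norm_sub_norm_le z (q (some i))
    simp only [Function.iterate_zero, id_eq]
    linarith
  · rw [Function.iterate_succ_apply, ← itp_eval]
    refine le_max_of_le_right (H1 k _ ?_)
    rw [← dist_eq_norm]
    exact (H2 z (by rw [dist_eq_norm]; linarith)).le

theorem open_of_core (hc : CoreStmt K) (hg : GrowStmt K) : OpenStmt K :=
  open_of_ball (ball_of_core hc hg)

end Pool.Agent.MP_28f8a1_an.H19
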