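import Pool.Agent.MP_28f8a1_an.H19N.Defs

/-! h19n: polynomial identities and the determinant bound. -/

open Polynomial

namespace Pool.Agent.MP_28f8a1_an.H19

variable {K : Type*} [NontriviallyNormedField K]

theorem p_itp_succ' (f : K[X]) (m : ℕ) : itp f (m + 1) = (itp f m).comp f := by
  induction m with
  | zero => simp [itp]
  | succ m ih =>
    calc itp f (m + 1 + 1) = f.comp (itp f (m + 1)) := rfl
      _ = f.comp ((itp f m).comp f) := by rw [ih]
      _ = (f.comp (itp f m)).comp f := by rw [comp_assoc]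
      _ = (itp f (m + 1)).comp f := rfl

theorem p_Gp_succ' (f v : K[X]) (m : ℕ) :
    Gp f v (m + 1) = (Gp f v m).comp f + (derivative (itp f m)).comp f * v := by
  induction m with
  | zero => simp [Gp, itp]
  | succ m ih =>
    have h1 : Gp f v (m + 1 + 1)
        = v.comp (itp f (m + 1)) + (derivative f).comp (itp f (m + 1)) * Gp f v (m + 1) := rfl
    have h2 : Gp f v (m + 1)
        = v.comp (itp f m) + (derivative f).comp (itp f m) * Gp f v m := rfl
    have h3 : derivative (itp f (m + 1)) = derivative (itp f m) * (derivative f).comp (itp f m) := by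
      rw [show itp f (m + 1) = f.comp (itp f m) from rfl, derivative_comp]
    have h4 : (Gp f v (m + 1)).comp f = v.comp (itp f (m + 1))
        + (derivative f).comp (itp f (m + 1)) * (Gp f v m).comp f := by
      rw [h2, add_comp, mul_comp, comp_assoc, comp_assoc, ← p_itp_succ']
    rw [h1, h4, h3, mul_comp, comp_assoc, ← p_itp_succ']
    nth_rewrite 1 [ih]
    ring

theorem p_der_itp_succ' (f : K[X]) (m : ℕ) :
    derivative (itp f (m + 1)) = derivative f * (derivative (itp f m)).comp f := by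
  rw [p_itp_succ', derivative_comp]

theorem p_alpha_ne {n : ℕ} {f : K[X]} {α : K} {c : Fin n → K} {ρ : ℝ} (h : Setup n f α c ρ) :
    ((n + 1 : ℕ) : K) * α ≠ 0 := by
  have h1 : ‖((n + 1 : ℕ) : K)‖ = 1 := h.tame _ (by omega) le_rfl
  refine mul_ne_zero ?_ ?_
  · intro h0; rw [h0, norm_zero] at h1; exact zero_ne_one h1
  · intro h0; have := h.big; rw [h0, norm_zero, zero_mul] at this; linarith

theorem p_der_eq {n : ℕ} {f : K[X]} {α : K} {c : Fin n → K} {ρ : ℝ} (h : Setup n f α c ρ)
    (j : Fin n) : derivative f = (X - C (c j)) * vv α c j := by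
  rw [h.der, vv, ← Finset.mul_prod_erase Finset.univ (fun i => X - C (c i)) (Finset.mem_univ j)]
  ring

theorem p_der_ne {n : ℕ} {f : K[X]} {α : K} {c : Fin n → K} {ρ : ℝ} (h : Setup n f α c ρ) :
    derivative f ≠ 0 := by
  rw [h.der]
  exact mul_ne_zero (C_ne_zero.mpr (p_alpha_ne h))
    (Finset.prod_ne_zero_iff.mpr fun i _ => X_sub_C_ne_zero _)

theorem p_vv_self {n : ℕ} {f : K[X]} {α : K} {c : Fin n → K} {ρ : ℝ} (h : Setup n f α c ρ)
    (hc : Function.Injective c) (i : Fin n) : (vv α c i).eval (c i) ≠ 0 := by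
  rw [vv, eval_mul, eval_C, eval_prod]
  refine mul_ne_zero (p_alpha_ne h) (Finset.prod_ne_zero_iff.mpr fun k hk => ?_)
  simp only [eval_sub, eval_X, eval_C]
  exact sub_ne_zero.mpr fun e => (Finset.ne_of_mem_erase hk) (hc e).symm

theorem p_vv_other {n : ℕ} (α : K) (c : Fin n → K) {i j : Fin n} (hij : i ≠ j) :
    (vv α c j).eval (c i) = 0 := by
  rw [vv, eval_mul, eval_prod, Finset.prod_eq_zero (i := i) (by simp [hij]) (by simp), mul_zero]

theorem p_der_root {n : ℕ} {f : K[X]} {α : K} {c : Fin n → K} {ρ : ℝ} (h : Setup n f α c ρ)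
    {p : K} (hp : ∀ i, p ≠ c i) : (derivative f).eval p ≠ 0 := by
  rw [h.der, eval_mul, eval_C, eval_prod]
  refine mul_ne_zero (p_alpha_ne h) (Finset.prod_ne_zero_iff.mpr fun k _ => ?_)
  simp only [eval_sub, eval_X, eval_C]
  exact sub_ne_zero.mpr (hp k)

theorem p_det_le {n : ℕ} (M : Matrix (Fin n) (Fin n) K) (r : Fin n → ℝ)
    (hM : ∀ i j, ‖M i j‖ ≤ r i) : ‖M.det‖ ≤ (n.factorial : ℝ) * ∏ i, r i := by
  rw [Matrix.det_apply']
  refine (norm_sum_le _ _).trans ?_
  have : ∀ σ : Equiv.Perm (Fin n), ‖((Equiv.Perm.sign σ : ℤ) : K) * ∏ i, M (σ i) i‖ ≤ ∏ i, r i := by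
    intro σ
    have h1 : ‖((Equiv.Perm.sign σ : ℤ) : K)‖ = 1 := by
      rcases Int.units_eq_one_or (Equiv.Perm.sign σ) with e | e <;> simp [e]
    rw [norm_mul, h1, one_mul, norm_prod, ← Equiv.prod_comp σ r]
    exact Finset.prod_le_prod (fun i _ => norm_nonneg _) (fun i _ => hM _ _)
  refine (Finset.sum_le_sum fun σ _ => this σ).trans ?_
  simp [Fintype.card_perm]

end Pool.Agent.MP_28f8a1_an.H19
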