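import Pool.Agent.MP_28f8a1_an.H19N.S2Defs

/-! h19n, rows X4 to X7. -/

open Polynomial Metric

namespace Pool.Agent.MP_28f8a1_an.H19

variable {K : Type*} [NontriviallyNormedField K] [IsUltrametricDist K] [IsAlgClosed K]
variable {n : ℕ} {f : K[X]} {α : K} {c : Fin n → K} {ρ : ℝ} {s : ℕ → K → ℝ}

omit [IsUltrametricDist K] [IsAlgClosed K] in
theorem x78_inv_pri (a : K) {S : Set K} (ha : a ∈ S) : (ι (X - C a))⁻¹ ∈ Pri S :=
  ⟨1, X - C a, by rw [degree_one, degree_X_sub_C]; exact zero_lt_one, fun b hb => by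
    rw [eval_sub, eval_X, eval_C, sub_eq_zero] at hb
    rwa [hb], by rw [map_one, one_div]⟩

omit [IsUltrametricDist K] [IsAlgClosed K] in
theorem x78_EE_pri (r : Fin n → K) {S : Set K} (hS : ∀ i, c i ∈ S) : EE c r ∈ Pri S := by
  rw [EE_apply]
  exact Submodule.sum_mem _ fun i _ => Submodule.smul_mem _ _ (x78_inv_pri _ (hS i))

/-- ROW X4 -/
theorem x_EE_ne' (_h : Setup n f α c ρ) (hc : Function.Injective c) {r : Fin n → K} (hr : r ≠ 0) :
    EE c r ≠ 0 := fun h0 => by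
  obtain ⟨i, hi⟩ := Function.ne_iff.1 hr
  have h1 := congrArg (pp {c i}) h0
  rw [EE_apply, map_sum, map_zero, Finset.sum_eq_single i, map_smul,
    pp_of_mem (x78_inv_pri _ (Set.mem_singleton _)), smul_eq_zero] at h1
  · exact h1.elim hi (inv_ne_zero (ι_ne (X_sub_C_ne_zero _)))
  · intro j _ hj
    rw [map_smul, pp_eq_zero.2 (Reg_of_Pri (S := {c j}) (Set.disjoint_singleton.2 (hc.ne hj))
      (x78_inv_pri _ rfl)), smul_zero]
  · exact fun h => absurd (Finset.mem_univ i) h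

omit [IsUltrametricDist K] [IsAlgClosed K] in
/-- ROW X5 -/
theorem x_EE_pri' (_h : Setup n f α c ρ) (r : Fin n → K) {S : Set K} (hS : ∀ i, c i ∈ S) :
    EE c r ∈ Pri S := x78_EE_pri r hS

theorem x78_gp {x : K} (hx : 0 < ‖x‖) (Q : K[X]) : (∀ b, Q.eval b = 0 → ‖b‖ < ‖x‖) →
    gp x (‖x‖ / 2) Q = gp x ‖x‖ Q := by
  induction Q using mul_ind with
  | h0 a => intro _; rw [gp_C, gp_C]
  | h1 a q ih =>
    intro H
    have h1 : ‖x - a‖ = ‖x‖ := by
      have h2 := H a (by simp)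
      rw [sub_eq_add_neg, IsUltrametricDist.norm_add_eq_max_of_norm_ne_norm
        (by rw [norm_neg]; exact h2.ne'), norm_neg, max_eq_left h2.le]
    rw [gp_mul x (half_pos hx), gp_mul x hx, gp_X x (half_pos hx).le, gp_X x hx.le, h1,
      max_eq_left (half_le_self hx.le), max_self, ih fun b hb => H b (by simp [hb])]

/-- ROW X6: on an outer cell of level 0 -/
theorem x_outer' (h : Setup n f α c ρ) (r : Fin n → K) {x : K} (hx : 2 * ρ < ‖x‖) :
    gn x (‖x‖ / 2) (EE c r) ≤ gn 0 (2 * ρ) (EE c r) := by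
  have h2 : 0 < 2 * ρ := by linarith [h.rho_pos]
  have h0 : 0 < ‖x‖ := h2.trans hx
  have hg : EE c r ∈ Pri (closedBall (0 : K) (2 * ρ)) := x78_EE_pri r fun i => by
    rw [mem_closedBall_zero_iff]; linarith [h.crit i, h.rho_pos]
  have h3 := gn_pri h2 hx.le hg
  have h4 : gn x (‖x‖ / 2) (EE c r) ≤ gn 0 ‖x‖ (EE c r) := by
    obtain ⟨P, Q, -, h5, h6⟩ := hg
    rw [← gn_centre (x := x) (y := 0) h0 (by simp), h6, gn_div x (half_pos h0), gn_div x h0,
      x78_gp h0 Q fun b hb => (mem_closedBall_zero_iff.1 (h5 b hb)).trans_lt hx]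
    exact div_le_div_of_nonneg_right (gp_mono x (half_pos h0).le (half_le_self h0.le) P)
      (gp_nonneg x h0.le Q)
  refine h4.trans (le_of_mul_le_mul_right (h3.trans ?_) h0)
  exact mul_le_mul_of_nonneg_left hx.le (gn_nonneg 0 h2 _)

omit [IsUltrametricDist K] [IsAlgClosed K] in
/-- ROW X7: no pole outside radius `2ρ` -/
theorem x_eta_reg' (h : Setup n f α c ρ) (hf : 0 < f.natDegree) (C0 : Cel f c ρ s) (m : ℕ)
    (r : Fin n → K) : eta f hf c m r ∈ Reg {z : K | 2 * ρ < ‖z‖} := by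
  have hc : ∀ i, ¬ 2 * ρ < ‖c i‖ := fun i => by linarith [h.crit i, h.rho_pos]
  induction m with
  | zero => exact zero_mem _
  | succ m ih =>
    change TT f hf (eta f hf c m r) - EE c r ∈ _
    refine sub_mem ?_ (Reg_of_Pri (S := {z : K | 2 * ρ < ‖z‖}ᶜ) disjoint_compl_left
      (x78_EE_pri r hc))
    rw [TT_apply, div_eq_mul_one_div, ← map_one ι]
    exact mul_mem (cmp_mem_Reg hf C0.p8 ih)
      (div_mem_Reg 1 fun a ha => p_der_root h fun i e => hc i (e ▸ ha))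

end Pool.Agent.MP_28f8a1_an.H19
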