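import Pool.Agent.MP_28f8a1_an.H19N.X16
import Pool.Agent.MP_28f8a1_an.H19N.X78
import Pool.Agent.MP_28f8a1_an.H19N.Cells
import Pool.Agent.MP_28f8a1_an.H19N.Det78

/-! h19n, section 2: the contraction estimates. -/

set_option linter.unusedSectionVars false

open Polynomial Metric

namespace Pool.Agent.MP_28f8a1_an.H19

variable {K : Type*} [NontriviallyNormedField K] [IsUltrametricDist K] [IsAlgClosed K]
variable {n : ℕ}

/-- relative size of `h` on the cell of level `m` of `x` -/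
noncomputable def rs (s : ℕ → K → ℝ) (m : ℕ) (x : K) (h : RatFunc K) : ℝ :=
  gn x (s m x) h / s m x

/-- relative size of the principal part of `h` in the cell of level `m` of `x` -/
noncomputable def nu (s : ℕ → K → ℝ) (m : ℕ) (x : K) (h : RatFunc K) : ℝ :=
  rs s m x (pp (cell s m x) h)

/-- the largest relative size of a principal part at level `m` -/
noncomputable def NN (s : ℕ → K → ℝ) (m : ℕ) (h : RatFunc K) : ℝ := ⨆ x, nu s m x h

variable {f : K[X]} {α : K} {c : Fin n → K} {ρ : ℝ} {s : ℕ → K → ℝ}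

theorem Cel.self_mem (C0 : Cel f c ρ s) (m : ℕ) (x : K) : x ∈ cell s m x :=
  mem_closedBall_self (C0.p0 m x).le

theorem mem_cell {m : ℕ} {x y : K} : y ∈ cell s m x ↔ ‖y - x‖ ≤ s m x := by
  rw [cell, mem_closedBall, dist_eq_norm]

theorem Cel.cell_eq (C0 : Cel f c ρ s) {m : ℕ} {x y : K} (h : y ∈ cell s m x) :
    cell s m y = cell s m x := by
  have h1 := C0.p3 m x y (mem_cell.mp h)
  rw [cell, h1, cell]
  exact (IsUltrametricDist.closedBall_eq_of_mem h).symm

theorem Cel.succ_le (C0 : Cel f c ρ s) (m : ℕ) (x : K) : s (m + 1) x ≤ s m x := by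
  rcases lt_or_ge (2 * ρ) ‖(itp f m).eval x‖ with h | h
  · exact (C0.p5a m x h).le
  · exact (C0.p5b m x h).le

theorem Cel.le_zero (C0 : Cel f c ρ s) (m : ℕ) (x : K) : s m x ≤ s 0 x := by
  induction m with
  | zero => exact le_rfl
  | succ m ih => exact (C0.succ_le m x).trans ih

theorem Cel.cell_sub (C0 : Cel f c ρ s) {m : ℕ} {x y : K} (h : y ∈ cell s m x) :
    cell s (m + 1) y ⊆ cell s m x := by
  rw [← C0.cell_eq h]
  exact closedBall_subset_closedBall (C0.succ_le m y)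

theorem Cel.unst (C0 : Cel f c ρ s) {m : ℕ} {x y : K} (h : y ∈ cell s m x)
    (hx : s (m + 1) x < s m x) : s (m + 1) y < s m x := by
  have h1 := C0.p3 m x y (mem_cell.mp h)
  refine lt_of_le_of_ne (h1 ▸ C0.succ_le m y) fun e => ?_
  have h2 : ‖x - y‖ ≤ s (m + 1) y := by rw [e, norm_sub_rev]; exact mem_cell.mp h
  have h3 := C0.p3 (m + 1) y x h2
  linarith

theorem Cel.rs_nonneg (C0 : Cel f c ρ s) (m : ℕ) (x : K) (h : RatFunc K) : 0 ≤ rs s m x h :=
  div_nonneg (gn_nonneg _ (C0.p0 m x) _) (C0.p0 m x).le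

theorem Cel.rs_add (C0 : Cel f c ρ s) (m : ℕ) (x : K) (g h : RatFunc K) :
    rs s m x (g + h) ≤ max (rs s m x g) (rs s m x h) := by
  have h0 := C0.p0 m x
  rw [rs, rs, rs, max_div_div_right h0.le]
  exact div_le_div_of_nonneg_right (gn_add x h0 g h) h0.le

theorem Cel.rs_sub (C0 : Cel f c ρ s) (m : ℕ) (x : K) (g h : RatFunc K) :
    rs s m x (g - h) ≤ max (rs s m x g) (rs s m x h) := by
  have h0 := C0.p0 m x
  rw [rs, rs, rs, max_div_div_right h0.le]
  exact div_le_div_of_nonneg_right (gn_sub x h0 g h) h0.le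

theorem Cel.nu_le_rs (C0 : Cel f c ρ s) (m : ℕ) (x : K) (h : RatFunc K) :
    nu s m x h ≤ rs s m x h :=
  div_le_div_of_nonneg_right (gn_pp (C0.p0 m x) h) (C0.p0 m x).le

theorem Cel.nu_add (C0 : Cel f c ρ s) (m : ℕ) (x : K) (g h : RatFunc K) :
    nu s m x (g + h) ≤ max (nu s m x g) (nu s m x h) := by
  rw [nu, map_add]; exact C0.rs_add m x _ _

theorem Cel.nu_sub (C0 : Cel f c ρ s) (m : ℕ) (x : K) (g h : RatFunc K) :
    nu s m x (g - h) ≤ max (nu s m x g) (nu s m x h) := by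
  rw [nu, map_sub]; exact C0.rs_sub m x _ _

theorem Cel.nu_smul (C0 : Cel f c ρ s) (m : ℕ) (x : K) (a : K) (h : RatFunc K) :
    nu s m x (a • h) = ‖a‖ * nu s m x h := by
  rw [nu, map_smul, rs, gn_smul x (C0.p0 m x), nu, rs, mul_div_assoc]

theorem nu_of_reg {m : ℕ} {x : K} {h : RatFunc K} (hh : h ∈ Reg (cell s m x)) :
    nu s m x h = 0 := by
  rw [nu, pp_eq_zero.mpr hh, rs, gn_zero, zero_div]

theorem Cel.nu_congr (C0 : Cel f c ρ s) {m : ℕ} {x y : K} (hy : y ∈ cell s m x) (h : RatFunc K) :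
    nu s m y h = nu s m x h := by
  have h1 := C0.p3 m x y (mem_cell.mp hy)
  rw [nu, nu, C0.cell_eq hy, rs, rs, h1, gn_centre (C0.p0 m x) (mem_cell.mp hy)]

theorem Cel.nu_finite (C0 : Cel f c ρ s) (m : ℕ) (h : RatFunc K) :
    (Set.range fun x => nu s m x h).Finite := by
  obtain ⟨Z, hZ⟩ := exists_poles h
  refine ((Z.finite_toSet.image fun p => nu s m p h).insert 0).subset ?_
  rintro _ ⟨x, rfl⟩
  by_cases e : ∃ p ∈ Z, p ∈ cell s m x
  · obtain ⟨p, hp, hp'⟩ := e
    exact Or.inr ⟨p, hp, C0.nu_congr hp' h⟩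
  · exact Or.inl (nu_of_reg (Reg_mono (fun p hp hp' => e ⟨p, hp', hp⟩) hZ))

theorem Cel.nu_le_NN (C0 : Cel f c ρ s) (m : ℕ) (x : K) (h : RatFunc K) :
    nu s m x h ≤ NN s m h :=
  le_ciSup (f := fun x => nu s m x h) (C0.nu_finite m h).bddAbove x

theorem Cel.NN_ex (C0 : Cel f c ρ s) (m : ℕ) (h : RatFunc K) : ∃ x, nu s m x h = NN s m h :=
  (Set.range_nonempty fun x => nu s m x h).csSup_mem (C0.nu_finite m h)

theorem Cel.NN_nonneg (C0 : Cel f c ρ s) (m : ℕ) (h : RatFunc K) : 0 ≤ NN s m h :=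
  (C0.rs_nonneg m 0 _).trans (C0.nu_le_NN m 0 h)

theorem Cel.NN_smul (C0 : Cel f c ρ s) (m : ℕ) (a : K) (h : RatFunc K) :
    NN s m (a • h) = ‖a‖ * NN s m h := by
  rw [NN, NN, Real.mul_iSup_of_nonneg (norm_nonneg a)]
  exact iSup_congr fun x => C0.nu_smul m x a h

/-- a principal part seen from the larger cell -/
theorem Cel.pri_le (C0 : Cel f c ρ s) {m : ℕ} {x y : K} (hy : y ∈ cell s m x) (h : RatFunc K) :
    gn x (s m x) (pp (cell s (m + 1) y) h) * s m x ≤ nu s (m + 1) y h * s (m + 1) y ^ 2 := by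
  have h0 := C0.p0 (m + 1) y
  have h1 : s (m + 1) y ≤ s m x := C0.p3 m x y (mem_cell.mp hy) ▸ C0.succ_le m y
  have h2 := gn_pri' h0 h1 (mem_cell.mp hy) (pp_mem (cell s (m + 1) y) h)
  refine h2.trans (le_of_eq ?_)
  rw [nu, rs, cell]; field_simp

theorem Cel.ref_lt (C0 : Cel f c ρ s) {m : ℕ} {x : K} (hx : s (m + 1) x < s m x) {h : RatFunc K}
    {B : ℝ} (hB : 0 < B) (H : ∀ y, nu s (m + 1) y h ≤ B) : nu s m x h < B := by
  have h0 := C0.p0 m x
  rw [nu, rs, div_lt_iff₀ h0]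
  refine gn_pp_lt (cell s (m + 1)) (C0.self_mem _) (fun a b hb => C0.cell_eq hb)
    (fun a ha => C0.cell_sub ha) h x h0 (mul_pos hB h0) fun y hy => ?_
  have h1 := C0.pri_le hy h
  have h2 := C0.unst hy hx
  have h3 := C0.p0 (m + 1) y
  have h4 : s (m + 1) y ^ 2 < s m x ^ 2 := by gcongr
  have h5 : nu s (m + 1) y h * s (m + 1) y ^ 2 ≤ B * s (m + 1) y ^ 2 := by gcongr; exact H y
  have h6 : B * s (m + 1) y ^ 2 < B * s m x ^ 2 := by gcongr
  refine lt_of_mul_lt_mul_right (a := s m x) ?_ h0.le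
  nlinarith

theorem nu_stable {m : ℕ} {x : K} (hx : s (m + 1) x = s m x) (h : RatFunc K) :
    nu s (m + 1) x h = nu s m x h := by
  rw [nu, nu, rs, rs, cell, cell, hx]

theorem Cel.ref_le (C0 : Cel f c ρ s) (m : ℕ) (x : K) (h : RatFunc K) :
    nu s m x h ≤ NN s (m + 1) h := by
  rcases (C0.succ_le m x).eq_or_lt with e | e
  · rw [← nu_stable e]; exact C0.nu_le_NN _ _ _
  · refine le_of_forall_gt_imp_ge_of_dense fun B hB => ?_
    exact (C0.ref_lt e ((C0.NN_nonneg _ _).trans_lt hB)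
      fun y => (C0.nu_le_NN _ y h).trans hB.le).le

theorem Cel.iso (C0 : Cel f c ρ s) (h : Setup n f α c ρ) (hf : 0 < f.natDegree) (m : ℕ) (x : K)
    (g : RatFunc K) : rs s (m + 1) x (TT f hf g) = rs s m (f.eval x) g := by
  have h0 := C0.p0 (m + 1) x
  have h1 := gp_deriv (f := f) (fun j hj hj' => h.tame j hj (hj'.trans h.deg)) x h0
  rw [rs, rs, TT_apply, gn_div' x h0, gn_cmp hf x h0, gn_ι x h0, div_div, h1, C0.p2]

theorem Cel.nu_TT (C0 : Cel f c ρ s) (h : Setup n f α c ρ) (hf : 0 < f.natDegree) (m : ℕ) (x : K)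
    (g : RatFunc K) :
    nu s (m + 1) x (TT f hf (pp (cell s m (f.eval x)) g)) ≤ nu s m (f.eval x) g :=
  (C0.nu_le_rs _ _ _).trans (le_of_eq (C0.iso h hf m x _))

/-- the size of `η_1` on the central disc -/
noncomputable def bet (c : Fin n → K) (ρ : ℝ) (r : Fin n → K) : ℝ :=
  gn 0 (2 * ρ) (EE c r) / (2 * ρ)

omit [IsUltrametricDist K] [IsAlgClosed K] in
theorem eta_succ (hf : 0 < f.natDegree) (m : ℕ) (r : Fin n → K) :
    eta f hf c (m + 1) r = TT f hf (eta f hf c m r) - EE c r := rfl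

omit [IsUltrametricDist K] [IsAlgClosed K] in
theorem eta_one (hf : 0 < f.natDegree) (r : Fin n → K) : eta f hf c 1 r = -EE c r := by
  rw [eta_succ]; simp [eta]

/-- (D) -/
theorem Cel.stepD (C0 : Cel f c ρ s) (h : Setup n f α c ρ) (hf : 0 < f.natDegree) (r : Fin n → K)
    (m : ℕ) : ∀ x, rs s m x (eta f hf c (m + 1) r - eta f hf c m r) ≤ 2 * bet c ρ r := by
  have hρ : 0 < 2 * ρ := by have := h.rho_pos; linarith
  induction m with
  | zero =>
    intro x
    have h0 := C0.p0 0 x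
    have hb : 0 ≤ gn 0 (2 * ρ) (EE c r) := gn_nonneg _ hρ _
    have e : eta f hf c (0 + 1) r - eta f hf c 0 r = -EE c r := by
      rw [zero_add, eta_one]; simp [eta]
    rw [e, rs, gn_neg x h0, C0.p1, s0, bet]
    split_ifs with hx
    · rw [gn_centre (y := 0) hρ (by simpa using hx)]
      have : 0 ≤ gn 0 (2 * ρ) (EE c r) / (2 * ρ) := by positivity
      linarith
    · have hx' := not_le.mp hx
      have h1 := x_outer' h r hx'
      have h2 : 0 < ‖x‖ / 2 := by linarith
      rw [div_le_iff₀ h2]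
      refine h1.trans ?_
      have h3 : 2 * (gn 0 (2 * ρ) (EE c r) / (2 * ρ)) * (‖x‖ / 2)
          = gn 0 (2 * ρ) (EE c r) * (‖x‖ / (2 * ρ)) := by ring
      rw [h3]
      exact le_mul_of_one_le_right hb ((one_le_div hρ).mpr hx'.le)
  | succ m ih =>
    intro x
    have e : eta f hf c (m + 1 + 1) r - eta f hf c (m + 1) r
        = TT f hf (eta f hf c (m + 1) r - eta f hf c m r) := by
      rw [map_sub, eta_succ hf (m + 1), eta_succ hf m]; ring
    rw [e, C0.iso h hf]
    exact ih _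

theorem Cel.nuD (C0 : Cel f c ρ s) (h : Setup n f α c ρ) (hf : 0 < f.natDegree) (r : Fin n → K)
    (m : ℕ) (x : K) : nu s m x (eta f hf c (m + 1) r - eta f hf c m r) ≤ 2 * bet c ρ r :=
  (C0.nu_le_rs _ _ _).trans (C0.stepD h hf r m x)

theorem bet_pos (h : Setup n f α c ρ) (hc : Function.Injective c) {r : Fin n → K} (hr : r ≠ 0) :
    0 < bet c ρ r := by
  have hρ : 0 < 2 * ρ := by have := h.rho_pos; linarith
  exact div_pos (gn_pos _ hρ (x_EE_ne' h hc hr)) hρ

theorem Cel.bet_le (C0 : Cel f c ρ s) (h : Setup n f α c ρ) (r : Fin n → K) :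
    4 * bet c ρ r ≤ NN s 1 (EE c r) := by
  have hρ := h.rho_pos
  have hρ2 : 0 < 2 * ρ := by linarith
  have e0 : s 0 0 = 2 * ρ := by rw [C0.p1, s0, if_pos (by simpa using hρ2.le)]
  have hN := C0.NN_nonneg 1 (EE c r)
  have h1 : pp (cell s 0 0) (EE c r) = EE c r :=
    pp_of_mem (x_EE_pri' h r fun i => by
      rw [mem_cell, e0, sub_zero]; have := h.crit i; linarith)
  have h2 : gn 0 (2 * ρ) (pp (cell s 0 0) (EE c r)) ≤ NN s 1 (EE c r) * ρ / 2 := by
    refine gn_pp_le (cell s 1) (C0.self_mem _) (fun a b hb => C0.cell_eq hb)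
      (fun a ha => C0.cell_sub ha) _ 0 hρ2 (by positivity) fun y hy => ?_
    by_cases e : ∃ i, c i ∈ cell s 1 y
    · obtain ⟨i, hi⟩ := e
      have h3 := C0.pri_le hy (EE c r)
      have h4 : s 1 y ≤ ρ := C0.p3 1 y _ (mem_cell.mp hi) ▸ C0.p6 i
      have h5 := C0.p0 1 y
      have h6 : nu s 1 y (EE c r) * s 1 y ^ 2 ≤ NN s 1 (EE c r) * ρ ^ 2 := by
        gcongr; exact C0.nu_le_NN _ _ _
      rw [e0, zero_add] at h3
      refine le_of_mul_le_mul_right ?_ hρ2
      nlinarith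
    · have h3 : EE c r ∈ Reg (cell s 1 y) :=
        Reg_of_Pri (S := (cell s 1 y)ᶜ) disjoint_compl_left (x_EE_pri' h r fun i hi => e ⟨i, hi⟩)
      rw [pp_eq_zero.mpr h3, gn_zero]; positivity
  rw [h1] at h2
  rw [bet, ← mul_div_assoc, div_le_iff₀ hρ2]
  linarith

/-- (M) -/
theorem Cel.stepM (C0 : Cel f c ρ s) (h : Setup n f α c ρ) (hc : Function.Injective c)
    (hf : 0 < f.natDegree) {r : Fin n → K} (hr : r ≠ 0) (m : ℕ) :
    2 * bet c ρ r < NN s (m + 1) (eta f hf c (m + 1) r) := by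
  have hb := bet_pos h hc hr
  induction m with
  | zero =>
    have h1 := C0.bet_le h r
    have h2 := C0.NN_smul 1 (-1) (EE c r)
    rw [neg_one_smul, norm_neg, norm_one, one_mul] at h2
    rw [zero_add, eta_one, h2]; linarith
  | succ m ih =>
    obtain ⟨x, hx⟩ := C0.NN_ex (m + 1) (eta f hf c (m + 1) r)
    have h1 := C0.nu_sub (m + 1) x (eta f hf c (m + 1 + 1) r)
      (eta f hf c (m + 1 + 1) r - eta f hf c (m + 1) r)
    rw [sub_sub_cancel, hx] at h1
    have h2 := C0.nuD h hf r (m + 1) x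
    have h3 := C0.ref_le (m + 1) x (eta f hf c (m + 1 + 1) r)
    rcases le_max_iff.mp h1 with e | e <;> linarith

/-- (B) -/
theorem Cel.stepB (C0 : Cel f c ρ s) (h : Setup n f α c ρ) (hc : Function.Injective c)
    (hf : 0 < f.natDegree) {r : Fin n → K} (hr : r ≠ 0) (m : ℕ) :
    NN s (m + 1) (eta f hf c (m + 1) r) ≤ NN s (m + 1) (EE c (IIf f hf α c s m r)) := by
  have hb := bet_pos h hc hr
  have hM := C0.stepM h hc hf hr m
  set a := NN s (m + 1) (eta f hf c (m + 1) r) with ha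
  by_contra hlt
  replace hlt := not_le.mp hlt
  have step : ∀ x, nu s m (f.eval x) (eta f hf c (m + 1) r) < a →
      nu s (m + 1) x (eta f hf c (m + 1) r) < a := by
    intro x hx
    have h1 : nu s (m + 1) x (eta f hf c (m + 1) r)
        = nu s (m + 1) x (TT f hf (pp (cell s m (f.eval x)) (eta f hf c m r))
          + EE c (IIf f hf α c s m r)) := by
      rw [nu, nu, x_dec' h hc hf C0, map_add]
    have h2 := C0.nu_sub m (f.eval x) (eta f hf c (m + 1) r)
      (eta f hf c (m + 1) r - eta f hf c m r)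
    rw [sub_sub_cancel] at h2
    rw [h1]
    refine (C0.nu_add _ _ _ _).trans_lt (max_lt ?_ ((C0.nu_le_NN _ _ _).trans_lt hlt))
    exact (C0.nu_TT h hf m x _).trans_lt
      (h2.trans_lt (max_lt hx ((C0.nuD h hf r m _).trans_lt hM)))
  have down : ∀ y, nu s (m + 1) y (eta f hf c (m + 1) r) < a →
      nu s m y (eta f hf c (m + 1) r) < a := by
    intro y hy
    rcases (C0.succ_le m y).eq_or_lt with e | e
    · rwa [← nu_stable e]
    · exact C0.ref_lt e (by linarith) fun z => C0.nu_le_NN _ z _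
  have esc : ∀ k x, 2 * ρ < ‖(itp f k).eval x‖ → nu s (m + 1) x (eta f hf c (m + 1) r) < a := by
    intro k
    induction k with
    | zero =>
      intro x hx
      have hx' : 2 * ρ < ‖x‖ := by simpa [itp] using hx
      rw [nu_of_reg (Reg_mono (fun z hz => ?_) (x_eta_reg' h hf C0 (m + 1) r))]
      · linarith
      · have h1 := (mem_cell.mp hz).trans (C0.le_zero (m + 1) x)
        rw [C0.p1, s0, if_neg (not_le.mpr hx')] at h1
        have h2 : ‖x‖ ≤ max ‖z‖ ‖z - x‖ := by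
          have := IsUltrametricDist.norm_add_le_max z (-(z - x))
          rwa [norm_neg, show z + -(z - x) = x by ring] at this
        have hρ := h.rho_pos
        rcases le_max_iff.mp h2 with e | e
        · exact hx'.trans_le e
        · linarith
    | succ k ih =>
      intro x hx
      rw [p_itp_succ', eval_comp] at hx
      exact step x (down _ (ih _ hx))
  obtain ⟨x, hx⟩ := C0.NN_ex (m + 1) (eta f hf c (m + 1) r)
  refine (step x ?_).ne hx
  rcases lt_or_ge (2 * ρ) ‖(itp f m).eval (f.eval x)‖ with e | e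
  · exact down _ (esc m _ e)
  · exact C0.ref_lt (C0.p5b m _ e) (by linarith) fun z => C0.nu_le_NN _ z _

/-- (C) -/
theorem Cel.stepC (C0 : Cel f c ρ s) (h : Setup n f α c ρ) (hc : Function.Injective c)
    (hf : 0 < f.natDegree) {r : Fin n → K} (hr : r ≠ 0) (m : ℕ) :
    NN s (m + 1) (EE c (IIf f hf α c s (m + 1) r) - EE c (IIf f hf α c s m r))
      < NN s (m + 1) (eta f hf c (m + 1) r) := by
  have hb := bet_pos h hc hr
  have hM := C0.stepM h hc hf hr m
  set a := NN s (m + 1) (eta f hf c (m + 1) r) with ha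
  obtain ⟨x, hx⟩ := C0.NN_ex (m + 1)
    (EE c (IIf f hf α c s (m + 1) r) - EE c (IIf f hf α c s m r))
  rw [← hx]
  have d1 := x_dec' h hc hf C0 m r x
  have t1 := (C0.nuD h hf r (m + 1) x).trans_lt hM
  have t2 := (C0.nu_TT h hf m x _).trans_lt ((C0.nuD h hf r m (f.eval x)).trans_lt hM)
  rcases lt_or_ge (2 * ρ) ‖(itp f m).eval (f.eval x)‖ with e | e
  · have e1 := C0.p5a m _ e
    have e2 := C0.p5a (m + 1) x (by rwa [p_itp_succ', eval_comp])
    have d2 := x_dec' h hc hf C0 (m + 1) r x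
    have c1 : cell s (m + 1) (f.eval x) = cell s m (f.eval x) := by rw [cell, cell, e1]
    have c2 : cell s (m + 1 + 1) x = cell s (m + 1) x := by rw [cell, cell, e2]
    rw [c1, c2] at d2
    have h1 : nu s (m + 1) x (EE c (IIf f hf α c s (m + 1) r) - EE c (IIf f hf α c s m r))
        = nu s (m + 1) x ((eta f hf c (m + 1 + 1) r - eta f hf c (m + 1) r)
          - TT f hf (pp (cell s m (f.eval x)) (eta f hf c (m + 1) r - eta f hf c m r))) := by
      rw [nu, nu]
      congr 1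
      simp only [map_sub]
      rw [d1, d2]; ring
    rw [h1]
    exact (C0.nu_sub _ _ _ _).trans_lt (max_lt t1 t2)
  · have e1 := C0.p5b m _ e
    have e2 := C0.p5b (m + 1) x (by rwa [p_itp_succ', eval_comp])
    have t3 : nu s (m + 1) x (eta f hf c (m + 1 + 1) r - EE c (IIf f hf α c s (m + 1) r)) < a := by
      refine C0.ref_lt e2 (by linarith) fun y => ?_
      have d2 := x_dec' h hc hf C0 (m + 1) r y
      have h1 : nu s (m + 1 + 1) y (eta f hf c (m + 1 + 1) r - EE c (IIf f hf α c s (m + 1) r))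
          = nu s (m + 1 + 1) y
            (TT f hf (pp (cell s (m + 1) (f.eval y)) (eta f hf c (m + 1) r))) := by
        rw [nu, nu, map_sub, d2, add_sub_cancel_right]
      rw [h1]
      exact (C0.nu_TT h hf (m + 1) y _).trans (C0.nu_le_NN _ _ _)
    have t4 : nu s (m + 1) x (TT f hf (pp (cell s m (f.eval x)) (eta f hf c (m + 1) r))) < a :=
      (C0.nu_TT h hf m x _).trans_lt (C0.ref_lt e1 (by linarith) fun z => C0.nu_le_NN _ z _)
    have h1 : nu s (m + 1) x (EE c (IIf f hf α c s (m + 1) r) - EE c (IIf f hf α c s m r))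
        = nu s (m + 1) x (((eta f hf c (m + 1 + 1) r - eta f hf c (m + 1) r)
          - TT f hf (pp (cell s m (f.eval x)) (eta f hf c (m + 1) r - eta f hf c m r)))
          - ((eta f hf c (m + 1 + 1) r - EE c (IIf f hf α c s (m + 1) r))
            - TT f hf (pp (cell s m (f.eval x)) (eta f hf c (m + 1) r)))) := by
      rw [nu, nu]
      congr 1
      simp only [map_sub]
      rw [d1]; ring
    rw [h1]
    exact (C0.nu_sub _ _ _ _).trans_lt (max_lt ((C0.nu_sub _ _ _ _).trans_lt (max_lt t1 t2))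
      ((C0.nu_sub _ _ _ _).trans_lt (max_lt t3 t4)))

theorem Cel.det_one (C0 : Cel f c ρ s) (h : Setup n f α c ρ) (hc : Function.Injective c)
    (hf : 0 < f.natDegree) (m : ℕ) :
    ‖LinearMap.det (IsLinearMap.mk' _ (x_linear' (α := α) hf C0 m))‖ = 1 := by
  have e0 : IsLinearMap.mk' _ (x_linear' (α := α) hf C0 0) = (-1 : K) • LinearMap.id := by
    ext r i
    have : ev (f.eval (c i)) (0 : RatFunc K) = 0 := by simp [ev]
    simp [IIf, eta, this]
  have := (d78_chain (fun m r => NN s (m + 1) (EE c r)) (fun m r => C0.NN_nonneg _ _)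
    (fun m a r => by simp only [map_smul, C0.NN_smul])
    (fun m => IsLinearMap.mk' _ (x_linear' (α := α) hf C0 m))
    (by simp only [e0]; intro a b e; simpa using e)
    (fun m r hr => by
      simp only [IsLinearMap.mk'_apply, map_sub]
      exact (C0.stepC h hc hf hr m).trans_le (C0.stepB h hc hf hr m)) m).2
  rw [this]
  simp only [e0, LinearMap.det_smul, LinearMap.det_id, mul_one, norm_pow, norm_neg, norm_one,
    one_pow]

theorem Cel.core (C0 : Cel f c ρ s) (h : Setup n f α c ρ) (hc : Function.Injective c)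
    (hf : 0 < f.natDegree) (m : ℕ) {Λ : ℝ}
    (H : ∀ i j k, ‖(taylor (f.eval (c i))
            (Gp f (vv α c j) m + derivative (itp f m) * C ((vv α c j).eval (c i)))).coeff k‖
              * s m (f.eval (c i)) ^ k ≤ Λ * s0 ρ ((itp f m).eval (f.eval (c i)))) :
    1 ≤ (n.factorial : ℝ) * ∏ i, (Λ * s m (f.eval (c i)) / ‖(vv α c i).eval (c i)‖) := by
  rw [← C0.det_one h hc hf m, ← LinearMap.det_toMatrix']
  refine p_det_le _ _ fun i j => ?_
  rw [LinearMap.toMatrix'_apply, IsLinearMap.mk'_apply]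
  exact x_bound' h hc hf C0 m i j (H i j)

theorem core : CoreStmt K := by
  intro n f α c ρ h hc m
  obtain ⟨s, C0, h7, h9⟩ := cells_ex h
  refine ⟨fun i => s m (f.eval (c i)), fun i => ⟨C0.p0 _ _, h9 m i⟩, fun i k hk => ?_,
    fun Λ _ H => C0.core h hc h.deg_pos m H⟩
  obtain ⟨k, rfl⟩ : ∃ j, k = j + 1 := ⟨k - 1, by omega⟩
  rw [← h7, ← (sig_coeff (itp f m) (f.eval (c i)) k).1]
  exact le_gp _ (C0.p0 _ _).le _ _

end Pool.Agent.MP_28f8a1_an.H19
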