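import Pool.Agent.MP_28f8a1_an.H19N.G
import Pool.Agent.MP_28f8a1_an.H19N.Poly

/-! h19n, section 2: vector fields (definitions and the decomposition). -/

open Polynomial Metric

namespace Pool.Agent.MP_28f8a1_an.H19

variable {K : Type*} [NontriviallyNormedField K] [IsUltrametricDist K] [IsAlgClosed K]
variable {n : ℕ}

/-- what section 2 uses of the cell radii -/
structure Cel (f : K[X]) (c : Fin n → K) (ρ : ℝ) (s : ℕ → K → ℝ) : Prop where
  p0 : ∀ m x, 0 < s m x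
  p1 : ∀ x, s 0 x = s0 ρ x
  p2 : ∀ m x, sig f x (s (m + 1) x) = s m (f.eval x)
  p3 : ∀ m x y, ‖y - x‖ ≤ s m x → s m y = s m x
  p5a : ∀ m x, 2 * ρ < ‖(itp f m).eval x‖ → s (m + 1) x = s m x
  p5b : ∀ m x, ‖(itp f m).eval x‖ ≤ 2 * ρ → s (m + 1) x < s m x
  p6 : ∀ i, s 1 (c i) ≤ ρ
  p7b : ∀ m x, s m x * gp x (s m x) (derivative (itp f m)) = s0 ρ ((itp f m).eval x)
  p8 : ∀ x, 2 * ρ < ‖x‖ → 2 * ρ < ‖f.eval x‖

/-- pull-back of vector fields -/
noncomputable def TT (f : K[X]) (hf : 0 < f.natDegree) : RatFunc K →ₗ[K] RatFunc K :=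
  (LinearMap.mulRight K (ι (derivative f))⁻¹) ∘ₗ (cmp f hf).toLinearMap

omit [IsUltrametricDist K] [IsAlgClosed K] in
theorem TT_apply (f : K[X]) (hf : 0 < f.natDegree) (h : RatFunc K) :
    TT f hf h = cmp f hf h / ι (derivative f) := by
  simp [TT, div_eq_mul_inv]

/-- `∑ r i / (z - c i)` -/
noncomputable def EE (c : Fin n → K) : (Fin n → K) →ₗ[K] RatFunc K :=
  ∑ i, (LinearMap.proj i).smulRight (ι (X - C (c i)))⁻¹

omit [IsUltrametricDist K] [IsAlgClosed K] in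
theorem EE_apply (c : Fin n → K) (r : Fin n → K) :
    EE c r = ∑ i, r i • (ι (X - C (c i)))⁻¹ := by
  simp [EE]

/-- the vector fields `η_m` -/
noncomputable def eta (f : K[X]) (hf : 0 < f.natDegree) (c : Fin n → K) :
    ℕ → (Fin n → K) →ₗ[K] RatFunc K
  | 0 => 0
  | m + 1 => TT f hf ∘ₗ eta f hf c m - EE c

/-- the cell of level `m` of `x` -/
def cell (s : ℕ → K → ℝ) (m : ℕ) (x : K) : Set K := closedBall x (s m x)

/-- the transversality map as a function -/
noncomputable def IIf (f : K[X]) (hf : 0 < f.natDegree) (α : K) (c : Fin n → K) (s : ℕ → K → ℝ)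
    (m : ℕ) (r : Fin n → K) (i : Fin n) : K :=
  ev (f.eval (c i)) (eta f hf c m r - pp (cell s m (f.eval (c i))) (eta f hf c m r))
    / (vv α c i).eval (c i) - r i

end Pool.Agent.MP_28f8a1_an.H19
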