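import Pool.Agent.MP_28f8a1_an.H19N.S2
import Pool.Agent.MP_28f8a1_an.H19N.OpenB

/-! Density of hyperbolicity for tame polynomials over non-archimedean fields. -/

namespace Pool.Agent.MP_28f8a1_an.H19

theorem tame_result (K : Type*) [NontriviallyNormedField K] [IsUltrametricDist K] [IsAlgClosed K]
    (T : Polynomial K) (hd : 2 ≤ T.natDegree)
    (htame : ∀ j : ℕ, 1 ≤ j → j ≤ T.natDegree → ‖(j : K)‖ = 1) (ε : ℝ) (hε : 0 < ε) :
    ∃ S : Polynomial K, ∃ δ : ℝ, 0 < δ ∧ S.natDegree = T.natDegree ∧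
      (∀ k : ℕ, ‖S.coeff k - T.coeff k‖ < ε) ∧
      ∀ U : Polynomial K, U.natDegree = T.natDegree → (∀ k : ℕ, ‖U.coeff k - S.coeff k‖ < δ) →
        ∀ c : K, (Polynomial.derivative U).eval c = 0 →
          (Filter.Tendsto (fun n : ℕ => ‖(fun z => U.eval z)^[n] c‖) Filter.atTop Filter.atTop ∨
            ∃ r : ℝ, 0 < r ∧ ∃ B : ℝ, ∀ z : K, ‖z - c‖ ≤ r → ∀ n : ℕ,
              ‖(fun z => U.eval z)^[n] z‖ ≤ B) :=
  Pool.Agent.MP_28f8a1_an.H19.open_of_core Pool.Agent.MP_28f8a1_an.H19.core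
    Pool.Agent.MP_28f8a1_an.H19.grow T hd htame ε hε

end Pool.Agent.MP_28f8a1_an.H19
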