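import Pool.Agent.MP_28f8a1_an.H19N.S2Defs

/-! h19n, section 2: rows X1-X7. -/

open Polynomial Metric

namespace Pool.Agent.MP_28f8a1_an.H19

variable {K : Type*} [NontriviallyNormedField K] [IsUltrametricDist K] [IsAlgClosed K]
variable {n : ℕ} {f : K[X]} {α : K} {c : Fin n → K} {ρ : ℝ} {s : ℕ → K → ℝ}

omit [IsUltrametricDist K] [IsAlgClosed K] in
theorem x_inv (h : Setup n f α c ρ) (hc : Function.Injective c) : (ι (derivative f))⁻¹ =
    ∑ i, ((vv α c i).eval (c i))⁻¹ • (ι (X - C (c i)))⁻¹ := by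
  have h1 : (1 : K[X]) = ∑ i, C ((vv α c i).eval (c i))⁻¹ * vv α c i := by
    have h2 : ∀ i, (vv α c i).degree < (n : ℕ) := fun i => by
      have h3 := congrArg natDegree (p_der_eq h i)
      have h4 : vv α c i ≠ 0 := fun h0 => p_vv_self h hc i (by simp [h0])
      have h5 := (natDegree_derivative_le f).trans (Nat.sub_le_sub_right h.deg 1)
      rw [natDegree_mul (X_sub_C_ne_zero _) h4, natDegree_X_sub_C] at h3
      exact (natDegree_lt_iff_degree_lt h4).1 (by omega)
    refine eq_of_degrees_lt_of_eval_index_eq Finset.univ hc.injOn ?_ ?_ fun j _ => ?_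
    · simpa using Nat.lt_of_succ_le h.n_pos
    · rw [Finset.card_univ, Fintype.card_fin]
      exact (degree_sum_le _ _).trans_lt ((Finset.sup_lt_iff (WithBot.bot_lt_coe n)).2
        fun i _ => (smul_eq_C_mul (p := vv α c i) _ ▸ degree_smul_le _ _).trans_lt (h2 i))
    · rw [eval_finsetSum, Finset.sum_eq_single j
        (fun i _ hi => by simp [p_vv_other α c hi.symm]) (by simp)]
      simp [p_vv_self h hc j]
  refine inv_eq_of_mul_eq_one_right ?_
  rw [← map_one ι, h1, map_sum, Finset.mul_sum]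
  refine Finset.sum_congr rfl fun j _ => ?_
  rw [p_der_eq h j, map_mul, map_mul, ι_C, Algebra.smul_def]
  have := ι_ne (X_sub_C_ne_zero (c j))
  field_simp

/-- ROW X1 -/
theorem x_linear' (hf : 0 < f.natDegree) (C0 : Cel f c ρ s) (m : ℕ) :
    IsLinearMap K (IIf f hf α c s m) := by
  have H := fun i (g : RatFunc K) => Reg_mono (Set.singleton_subset_iff.2
    (mem_closedBall_self (C0.p0 m (f.eval (c i))).le)) (sub_pp_mem (cell s m (f.eval (c i))) g)
  refine ⟨fun u w => funext fun i => ?_, fun a u => funext fun i => ?_⟩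
  · rw [Pi.add_apply, IIf, IIf, IIf, map_add, map_add, add_sub_add_comm, ev_add (H _ _) (H _ _),
      Pi.add_apply]
    ring
  · rw [Pi.smul_apply, IIf, IIf, map_smul, map_smul, ← smul_sub, ev_smul _ (H _ _), Pi.smul_apply,
      smul_eq_mul, smul_eq_mul]
    ring

/-- ROW X2 -/
theorem x_dec' (h : Setup n f α c ρ) (hc : Function.Injective c) (hf : 0 < f.natDegree)
    (C0 : Cel f c ρ s) (m : ℕ) (r : Fin n → K) (x : K) :
    pp (cell s (m + 1) x) (eta f hf c (m + 1) r)
      = pp (cell s (m + 1) x) (TT f hf (pp (cell s m (f.eval x)) (eta f hf c m r)))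
        + pp (cell s (m + 1) x) (EE c (IIf f hf α c s m r)) := by
  have hm : ∀ a ∈ cell s (m + 1) x, f.eval a ∈ cell s m (f.eval x) := fun a ha =>
    mem_closedBall_iff_norm.2
      (C0.p2 m x ▸ eval_mem f (C0.p0 _ x) (mem_closedBall_iff_norm.1 ha))
  have hg := sub_pp_mem (cell s m (f.eval x)) (eta f hf c m r)
  have h1 := cmp_mem_Reg hf hm hg
  rw [← map_add]
  refine pp_congr ?_
  rw [show eta f hf c (m + 1) r = TT f hf (eta f hf c m r) - EE c r from rfl, sub_sub,
    ← add_assoc, add_comm (EE c r), add_assoc, ← sub_sub, ← map_sub, ← map_add, TT_apply,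
    div_eq_mul_inv, x_inv h hc, EE_apply, Finset.mul_sum, ← Finset.sum_sub_distrib]
  refine sum_mem fun i _ => ?_
  rw [Pi.add_apply, IIf, add_sub_cancel, div_eq_inv_mul, mul_smul, mul_smul_comm, ← smul_sub,
    Algebra.smul_def (ev _ _), ← sub_mul, ← ι_C, ← div_eq_mul_inv]
  refine Subalgebra.smul_mem _ ?_ _
  by_cases hi : c i ∈ cell s (m + 1) x
  · have h2 := hm _ hi
    have h3 : cell s m (f.eval (c i)) = cell s m (f.eval x) := by
      rw [cell, C0.p3 m _ _ (mem_closedBall_iff_norm.1 h2)]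
      exact (IsUltrametricDist.closedBall_eq_of_mem h2).symm
    rw [h3, ← ev_cmp hf (Reg_mono (Set.singleton_subset_iff.2 h2) hg)]
    exact ev_spec hi h1
  · rw [div_eq_mul_one_div, ← map_one ι]
    refine mul_mem (sub_mem h1 (ι_mem_Reg _ _)) (div_mem_Reg _ fun a ha h0 => hi ?_)
    rw [eval_sub, eval_X, eval_C, sub_eq_zero] at h0
    exact h0 ▸ ha

/-- ROW X3 -/
theorem x_bound' (h : Setup n f α c ρ) (hc : Function.Injective c) (hf : 0 < f.natDegree)
    (C0 : Cel f c ρ s) (m : ℕ) (i j : Fin n) {Λ : ℝ}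
    (H : ∀ k, ‖(taylor (f.eval (c i))
            (Gp f (vv α c j) m + derivative (itp f m) * C ((vv α c j).eval (c i)))).coeff k‖
              * s m (f.eval (c i)) ^ k ≤ Λ * s0 ρ ((itp f m).eval (f.eval (c i)))) :
    ‖IIf f hf α c s m (Pi.single j 1) i‖ ≤ Λ * s m (f.eval (c i)) / ‖(vv α c i).eval (c i)‖ := by
  have h0 := fun x => C0.p0 m x
  have h1 : ∀ k x, 0 < gp x (s k x) (derivative (itp f k)) := fun k x => by
    have h2 := C0.p7b k x
    rw [← C0.p1] at h2
    exact (mul_pos_iff_of_pos_left (C0.p0 k x)).1 (h2 ▸ C0.p0 0 _)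
  have h2 : ∀ k, derivative (itp f k) ≠ 0 := fun k h => by simpa [h, gp_zero] using h1 k 0
  have h3 : ∀ k, eta f hf c k (Pi.single j 1) =
      -ι (Gp f (vv α c j) k) / ι (derivative (itp f k)) := fun k => by
    induction k with
    | zero => simp [eta, Gp]
    | succ k ih =>
      have h4 := ι_ne (h2 (k + 1))
      have h5 := ι_ne (p_der_ne h)
      have h6 := ι_ne (X_sub_C_ne_zero (c j))
      have h7 := congrArg ι (p_der_eq h j)
      rw [p_der_itp_succ', map_mul] at h4
      have h8 := right_ne_zero_of_mul h4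
      rw [show eta f hf c (k + 1) (Pi.single j 1) =
        TT f hf (eta f hf c k (Pi.single j 1)) - EE c (Pi.single j 1) from rfl, ih, TT_apply,
        neg_div, map_neg, cmp_div, p_Gp_succ', p_der_itp_succ', EE_apply,
        Finset.sum_eq_single j (fun i _ hi => by simp [hi]) (by simp), map_add, map_mul, map_mul,
        Pi.single_eq_same, one_smul, inv_eq_one_div,
        (div_eq_div_iff h6 h5).2 (by rw [one_mul, h7, map_mul, mul_comm])]
      field_simp
      ring
  set x := f.eval (c i)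
  have h4 := p_vv_self h hc i
  have h5 : ({x} : Set K) ⊆ closedBall x (s m x) :=
    Set.singleton_subset_iff.2 (mem_closedBall_self (h0 x).le)
  have h6 := ev_le (h0 x) (mem_closedBall_self (h0 x).le) (sub_pp_mem (closedBall x (s m x))
    (eta f hf c m (Pi.single j 1) - ι (C ((vv α c j).eval (c i)))))
  replace h6 := h6.trans (gn_sub_pp (h0 x) _)
  rw [map_sub, pp_eq_zero.2 (ι_mem_Reg _ _), sub_zero, sub_right_comm,
    ev_sub (Reg_mono h5 (sub_pp_mem _ _)) (ι_mem_Reg _ _), ev_ι, eval_C] at h6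
  have h7 : gn x (s m x) (eta f hf c m (Pi.single j 1) - ι (C ((vv α c j).eval (c i)))) ≤
      Λ * s m x := by
    rw [h3, ← gn_neg x (h0 x), neg_sub, neg_div, sub_neg_eq_add, add_div' _ _ _ (ι_ne (h2 m)),
      ← map_mul, ← map_add, gn_div x (h0 x), div_le_iff₀ (h1 m x), mul_assoc, C0.p7b, add_comm,
      mul_comm (C _)]
    exact gp_le H
  rw [le_div_iff₀ (norm_pos_iff.2 h4), ← norm_mul, IIf, cell, sub_mul, div_mul_cancel₀ _ h4]
  convert h6.trans h7 using 3
  rcases eq_or_ne i j with rfl | hij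
  · simp
  · simp [hij, p_vv_other α c hij]

end Pool.Agent.MP_28f8a1_an.H19
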